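import Pool.Agent.H347Z.AcyMain

set_option autoImplicit false

namespace Pool.Agent.H347Z.Acy

open Finset
open Pool.Agent.H347Z.Exp (sg sum_split unif choose_lower w_num)

noncomputable def pA (D s : ℕ) : ℝ :=
  ((40 * s).choose (20 * s) : ℝ) * (2 * D - 1) ^ (20 * s) / (2 * D) ^ (40 * s)

noncomputable def pB (s : ℕ) : ℝ := ((40 * s).choose (21 * s) : ℝ) / 2 ^ (40 * s)

lemma card_pt (D m : ℕ) : (Fintype.card (Pt D m) : ℝ) = (2 * D * 2 ^ D) ^ m := by
  rw [Fintype.card_fun, Fintype.card_fin, Nat.cast_pow, card_xi]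

open Classical in
lemma countA {D : ℕ} (hD : 0 < D) (s : ℕ) (c : Pt D (40 * s)) :
    pA D s * Fintype.card (Pt D (40 * s)) ≤
      ∑ a : Pt D (40 * s), if AC a c then (1 : ℝ) else 0 := by
  have hD' : (0 : ℝ) < D := by exact_mod_cast hD
  have hu : ∀ i, ∑ ξ : Xi D, (if ξ.1 = (c i).1 then (1 : ℝ) else 0) = 2 ^ D := by
    intro i
    rw [sum_xi_fst (fun z => if z = (c i).1 then (1 : ℝ) else 0)]
    simp
  have hv : ∀ i, ∑ ξ : Xi D, (if ξ.1 = (c i).1 then (0 : ℝ) else 1) = (2 * D - 1) * 2 ^ D := by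
    intro i
    have h1 : ∀ ξ : Xi D, (if ξ.1 = (c i).1 then (0 : ℝ) else 1) =
        1 - (if ξ.1 = (c i).1 then (1 : ℝ) else 0) := by
      intro ξ; split_ifs <;> norm_num
    simp only [h1, sum_sub_distrib, hu, sum_const, card_univ, nsmul_eq_mul, card_xi]
    ring
  have h := count_ge (fun i (ξ : Xi D) => ξ.1 = (c i).1) (2 ^ D) ((2 * D - 1) * 2 ^ D)
    (fun i => by convert hu i) (fun i => by convert hv i) (20 * s)
  rw [show 40 * s - 20 * s = 20 * s by omega] at h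
  refine le_trans (le_of_eq ?_) (le_trans h (le_of_eq ?_))
  · rw [card_pt, pA, mul_pow (2 * (D : ℝ)), mul_pow (2 * (D : ℝ) - 1)]
    have e : ((2 : ℝ) ^ D) ^ (40 * s) = (2 ^ D) ^ (20 * s) * (2 ^ D) ^ (20 * s) := by
      rw [← pow_add]; congr 1; omega
    rw [e]
    field_simp
  · refine sum_congr rfl (fun a _ => if_congr ?_ rfl rfl)
    unfold AC
    have e : ((40 * s : ℕ) : ℝ) / 2 = ((20 * s : ℕ) : ℝ) := by push_cast; ring
    rw [e]
    convert Iff.rfl

open Classical in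
lemma countB {D : ℕ} (s : ℕ) (c : Pt D (40 * s)) :
    pB s * Fintype.card (Pt D (40 * s)) ≤
      ∑ b : Pt D (40 * s), if BC b c then (1 : ℝ) else 0 := by
  have huv : ∀ i, ∑ ξ : Xi D, (if ξ.2 (c i).1.1 = (c i).1.2 then (1 : ℝ) else 0) =
      ∑ ξ : Xi D, (if ξ.2 (c i).1.1 = (c i).1.2 then (0 : ℝ) else 1) := by
    intro i
    let e : Xi D ≃ Xi D := Function.Involutive.toPerm (fun ξ => (ξ.1, fun x => !ξ.2 x))
      (fun ξ => by simp)
    refine Fintype.sum_equiv e _ _ (fun ξ => ?_)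
    have : (e ξ).2 (c i).1.1 = !ξ.2 (c i).1.1 := rfl
    rw [this]
    cases ξ.2 (c i).1.1 <;> cases (c i).1.2 <;> simp
  have hsum : ∀ i, ∑ ξ : Xi D, (if ξ.2 (c i).1.1 = (c i).1.2 then (1 : ℝ) else 0) +
      ∑ ξ : Xi D, (if ξ.2 (c i).1.1 = (c i).1.2 then (0 : ℝ) else 1) = 2 * D * 2 ^ D := by
    intro i
    rw [← sum_add_distrib, ← card_xi]
    have h1 : ∀ ξ : Xi D, (if ξ.2 (c i).1.1 = (c i).1.2 then (1 : ℝ) else 0) +
        (if ξ.2 (c i).1.1 = (c i).1.2 then (0 : ℝ) else 1) = 1 := by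
      intro ξ; split_ifs <;> norm_num
    simp only [h1, sum_const, card_univ, nsmul_eq_mul, mul_one]
  have hu : ∀ i, ∑ ξ : Xi D, (if ξ.2 (c i).1.1 = (c i).1.2 then (1 : ℝ) else 0) = D * 2 ^ D := by
    intro i; have := huv i; have := hsum i; linarith
  have hv : ∀ i, ∑ ξ : Xi D, (if ξ.2 (c i).1.1 = (c i).1.2 then (0 : ℝ) else 1) = D * 2 ^ D := by
    intro i; have := huv i; have := hsum i; linarith
  have h := count_ge (fun i (ξ : Xi D) => ξ.2 (c i).1.1 = (c i).1.2) (D * 2 ^ D) (D * 2 ^ D)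
    (fun i => by convert hu i) (fun i => by convert hv i) (21 * s)
  rw [← pow_add, show 21 * s + (40 * s - 21 * s) = 40 * s by omega] at h
  refine le_trans (le_of_eq ?_) (le_trans h (le_of_eq ?_))
  · rw [card_pt, pB, mul_assoc (2 : ℝ), mul_pow (2 : ℝ)]
    field_simp
  · refine sum_congr rfl (fun a _ => if_congr ?_ rfl rfl)
    unfold BC
    have e : 21 / 40 * ((40 * s : ℕ) : ℝ) = ((21 * s : ℕ) : ℝ) := by push_cast; ring
    rw [e]
    convert Iff.rfl

open Classical in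
/-- the set of index triples that span an edge of the hypergraph -/
noncomputable def tri {N D m : ℕ} (ω : Fin 3 × Fin N → Pt D m) :
    Finset (Fin N × Fin N × Fin N) :=
  univ.filter (fun τ => AC (ω (0, τ.1)) (ω (2, τ.2.2)) ∧ BC (ω (1, τ.2.1)) (ω (2, τ.2.2)))

lemma pA_nonneg {D : ℕ} (hD : 0 < D) (s : ℕ) : 0 ≤ pA D s := by
  have : (1 : ℝ) ≤ D := by exact_mod_cast hD
  unfold pA
  exact div_nonneg (mul_nonneg (Nat.cast_nonneg _) (pow_nonneg (by linarith) _)) (by positivity)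

lemma pB_nonneg (s : ℕ) : 0 ≤ pB s := by unfold pB; positivity

lemma sum_tri {D : ℕ} (hD : 0 < D) (s N : ℕ) :
    (N : ℝ) ^ 3 * (pA D s * pB s) *
      (Fintype.card (Pt D (40 * s)) : ℝ) ^ Fintype.card (Fin 3 × Fin N) ≤
    ∑ ω : Fin 3 × Fin N → Pt D (40 * s), ((tri ω).card : ℝ) := by
  classical
  have : Nonempty (Fin D) := ⟨⟨0, hD⟩⟩
  have hK : (0 : ℝ) < Fintype.card (Pt D (40 * s)) := by exact_mod_cast Fintype.card_pos
  have key : ∀ τ : Fin N × Fin N × Fin N,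
      (pA D s * pB s) * (Fintype.card (Pt D (40 * s)) : ℝ) ^ Fintype.card (Fin 3 × Fin N) ≤
      ∑ ω : Fin 3 × Fin N → Pt D (40 * s), if AC (ω (0, τ.1)) (ω (2, τ.2.2)) ∧
        BC (ω (1, τ.2.1)) (ω (2, τ.2.2)) then (1 : ℝ) else 0 := by
    intro τ
    let f : Unit ⊕ Bool → Fin 3 × Fin N :=
      Sum.elim (fun _ => (2, τ.2.2)) (fun b => if b then (1, τ.2.1) else (0, τ.1))
    have hf : Function.Injective f := by
      rintro (a | (_ | _)) (b | (_ | _)) h <;> simp [f] at h ⊢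
    let R : Bool → Pt D (40 * s) → Pt D (40 * s) → Prop := fun b x c =>
      if b then BC x c else AC x c
    have h1 := unif f hf (fun ξ : Unit ⊕ Bool → Pt D (40 * s) =>
      ∏ b : Bool, if R b ((ξ ∘ Sum.inr) b) ((ξ ∘ Sum.inl) ()) then (1 : ℝ) else 0)
    have h2 := sum_split (A := Unit) (B := Bool) (K := Pt D (40 * s)) (fun ξ ρ =>
      ∏ b : Bool, if R b (ρ b) (ξ ()) then (1 : ℝ) else 0)
    rw [h2] at h1
    have h3 : ∀ ξ : Unit → Pt D (40 * s),
        pB s * Fintype.card (Pt D (40 * s)) * (pA D s * Fintype.card (Pt D (40 * s))) ≤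
        ∑ ρ : Bool → Pt D (40 * s), ∏ b : Bool, if R b (ρ b) (ξ ()) then (1 : ℝ) else 0 := by
      intro ξ
      have h4 := Finset.prod_univ_sum (fun _ : Bool => (univ : Finset (Pt D (40 * s))))
        (fun b x => if R b x (ξ ()) then (1 : ℝ) else 0)
      rw [Fintype.piFinset_univ] at h4
      rw [← h4, Fintype.prod_bool]
      have c1 := countA hD s (ξ ())
      have c2 := countB (D := D) s (ξ ())
      refine mul_le_mul (le_trans c2 (le_of_eq (sum_congr rfl (fun x _ => if_congr (by simp [R]) rfl rfl))))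
        (le_trans c1 (le_of_eq (sum_congr rfl (fun x _ => if_congr (by simp [R]) rfl rfl))))
        (mul_nonneg (pA_nonneg hD s) hK.le) (sum_nonneg (fun _ _ => by split_ifs <;> norm_num))
    have h5 := sum_le_sum (s := (univ : Finset (Unit → Pt D (40 * s)))) (fun ξ _ => h3 ξ)
    rw [sum_const, card_univ, Fintype.card_fun, Fintype.card_unit, pow_one, nsmul_eq_mul] at h5
    have h6 : ∑ ω : Fin 3 × Fin N → Pt D (40 * s), (∏ b : Bool,
        if R b (((ω ∘ f) ∘ Sum.inr) b) (((ω ∘ f) ∘ Sum.inl) ()) then (1 : ℝ) else 0) =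
        ∑ ω : Fin 3 × Fin N → Pt D (40 * s), if AC (ω (0, τ.1)) (ω (2, τ.2.2)) ∧
          BC (ω (1, τ.2.1)) (ω (2, τ.2.2)) then (1 : ℝ) else 0 := by
      refine sum_congr rfl (fun ω _ => ?_)
      rw [Fintype.prod_bool]
      by_cases c1 : AC (ω (0, τ.1)) (ω (2, τ.2.2)) <;>
        by_cases c2 : BC (ω (1, τ.2.1)) (ω (2, τ.2.2)) <;> simp [f, R, c1, c2]
    rw [h6] at h1
    have hc : Fintype.card (Unit ⊕ Bool) = 3 := by simp
    rw [hc] at h1
    have h7 := mul_le_mul_of_nonneg_left h5 (pow_pos hK (Fintype.card (Fin 3 × Fin N))).le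
    rw [← h1] at h7
    refine le_of_mul_le_mul_right (le_trans (le_of_eq ?_) h7) (pow_pos hK 3)
    ring
  have h8 := sum_le_sum (s := (univ : Finset (Fin N × Fin N × Fin N))) (fun τ _ => key τ)
  rw [sum_comm, sum_const, card_univ, nsmul_eq_mul] at h8
  refine le_trans (le_of_eq ?_) (le_trans h8 (le_of_eq ?_))
  · simp only [Fintype.card_prod, Fintype.card_fin]; push_cast; ring
  · refine sum_congr rfl (fun ω _ => ?_)
    rw [sum_boole]; rfl

lemma exists_good (k L : ℕ) {D : ℕ} (hD : 0 < D) (s N : ℕ) (hN : 0 < N) (C : ℝ) (hC : 0 ≤ C)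
    (h : 9 * C + (3 * L + 7) ≤ N * (pA D s * pB s)) :
    ∃ ω : Fin 3 × Fin N → Pt D (40 * s), Good k L ω ∧ C * (3 * N) ^ 2 < (tri ω).card := by
  have : Nonempty (Fin D) := ⟨⟨0, hD⟩⟩
  have : Nonempty (Fin N) := ⟨⟨0, hN⟩⟩
  have p0 := sum_npot_le (V := Fin 3 × Fin N) (eB k D (40 * s)) (fun _ _ _ _ => btest_ok _)
  have p1 := fun j => sum_npot_le (V := Fin 3 × Fin N) (eS k D (40 * s) j)
    (fun _ _ _ _ => chain_ok hD _ _ (fun _ => grid_abs _ _) _)
  have p2 := sum_npot_le (V := Fin 3 × Fin N) (eF k D (40 * s) L) (fun _ _ _ _ => final_ok hD _ _)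
  have p3 := sum_tri hD s N
  obtain ⟨n, hn⟩ : ∃ n : ℝ, (Fintype.card (Fin 3 × Fin N) : ℝ) = n := ⟨_, rfl⟩
  have hn3 : n = 3 * N := by rw [← hn]; simp
  have hNR : (1 : ℝ) ≤ N := by exact_mod_cast hN
  have hn0 : 0 < n := by rw [hn3]; positivity
  obtain ⟨Q, hQ⟩ : ∃ Q : ℝ,
      (Fintype.card (Pt D (40 * s)) : ℝ) ^ Fintype.card (Fin 3 × Fin N) = Q := ⟨_, rfl⟩
  rw [hQ] at p0 p1 p2 p3
  rw [hn] at p0 p1 p2
  obtain ⟨q, hq⟩ : ∃ q : ℝ, pA D s * pB s = q := ⟨_, rfl⟩
  rw [hq] at h p3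
  have p4 := sum_le_sum (s := range L) (fun j _ => p1 j)
  rw [sum_comm, sum_const, card_range, nsmul_eq_mul] at p4
  have hsum : ∑ _ω : Fin 3 × Fin N → Pt D (40 * s), ((N : ℝ) ^ 3 * q - (L + 2) * n) ≤
      ∑ ω : Fin 3 × Fin N → Pt D (40 * s), (((tri ω).card : ℝ) -
        n ^ 3 * npot (eB k D (40 * s)) ω -
        ∑ j ∈ range L, n ^ 3 * npot (eS k D (40 * s) j) ω -
        n ^ 3 * npot (eF k D (40 * s) L) ω) := by
    rw [sum_const, card_univ, Fintype.card_fun, nsmul_eq_mul, Nat.cast_pow, hQ]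
    simp only [sum_sub_distrib]
    linarith
  obtain ⟨ω, -, hω⟩ := exists_le_of_sum_le univ_nonempty hsum
  have hn3p : 0 < n ^ 3 := by positivity
  have u0 := mul_nonneg hn3p.le (npot_nonneg (eB k D (40 * s)) ω)
  have u1 := fun j => mul_nonneg hn3p.le (npot_nonneg (eS k D (40 * s) j) ω)
  have u1' : 0 ≤ ∑ j ∈ range L, n ^ 3 * npot (eS k D (40 * s) j) ω :=
    sum_nonneg (fun j _ => u1 j)
  have u2 := mul_nonneg hn3p.le (npot_nonneg (eF k D (40 * s) L) ω)
  have hT : ((tri ω).card : ℝ) ≤ n ^ 3 := by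
    have : (tri ω).card ≤ N * (N * N) := by simpa using card_le_univ (tri ω)
    have h' : ((tri ω).card : ℝ) ≤ N * (N * N) := by exact_mod_cast this
    rw [hn3]
    have : (0 : ℝ) ≤ (N : ℝ) ^ 3 := by positivity
    nlinarith
  have hbig : C * (3 * N) ^ 2 < (N : ℝ) ^ 3 * q - (L + 2) * n := by
    have h1 := mul_le_mul_of_nonneg_left h (sq_nonneg (N : ℝ))
    have hL : (0 : ℝ) ≤ L := Nat.cast_nonneg L
    have h2 : (N : ℝ) ≤ N ^ 2 := by nlinarith
    have h3 := mul_le_mul_of_nonneg_left h2 hL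
    rw [hn3]
    nlinarith
  have hC0 : 0 ≤ C * (3 * N) ^ 2 := by positivity
  refine ⟨ω, ⟨?_, ?_, ?_⟩, by linarith⟩
  · exact lt_of_mul_lt_mul_left (by linarith) hn3p.le
  · intro j hj
    have := single_le_sum (f := fun j => n ^ 3 * npot (eS k D (40 * s) j) ω) (fun j _ => u1 j)
      (mem_range.2 hj)
    exact lt_of_mul_lt_mul_left (by linarith) hn3p.le
  · exact lt_of_mul_lt_mul_left (by linarith) hn3p.le

lemma exists_params {D : ℕ} (hD : D = 100000) (C : ℝ) (hC : 0 ≤ C) : ∃ s N : ℕ, 0 < s ∧ 0 < N ∧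
    ((3 * N : ℕ) : ℝ) ≤ Real.exp ((alpha D + 0.001251) * ((40 * s : ℕ) : ℝ)) ∧
    C ≤ N * (pA D s * pB s) := by
  obtain ⟨s, hs⟩ := exists_nat_ge (C * 10 ^ 21 + 100)
  have hs50 : (100 : ℝ) ≤ s := by nlinarith
  have hspos : 0 < s := by
    have : (0 : ℝ) < s := by linarith
    exact_mod_cast this
  have hDR : (D : ℝ) = 100000 := by rw [hD]; norm_num
  obtain ⟨ha0, -⟩ := alpha_bounds hD
  obtain ⟨E, hE⟩ : ∃ E : ℝ, Real.exp ((alpha D + 0.001251) * ((40 * s : ℕ) : ℝ)) = E := ⟨_, rfl⟩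
  have hE6 : 6 ≤ E := by
    have h1 := Real.add_one_le_exp ((alpha D + 0.001251) * ((40 * s : ℕ) : ℝ))
    have h2 : 0 ≤ alpha D * s := by positivity
    rw [hE] at h1
    push_cast at h1
    linarith
  have hN1 : (⌊E / 3⌋₊ : ℝ) ≤ E / 3 := Nat.floor_le (by linarith)
  have hN2 : E / 3 < (⌊E / 3⌋₊ : ℝ) + 1 := Nat.lt_floor_add_one _
  have hN3 : E / 6 ≤ (⌊E / 3⌋₊ : ℝ) := by linarith
  refine ⟨s, ⌊E / 3⌋₊, hspos, ?_, ?_, ?_⟩
  · have : (0 : ℝ) < ⌊E / 3⌋₊ := by linarith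
    exact_mod_cast this
  · rw [hE]; push_cast; linarith
  · -- lower bound for pB
    have hB : 1 ≤ (40 * s + 1) * Real.exp (0.050025 * s) * pB s := by
      obtain ⟨B, hB⟩ : ∃ B : ℝ, ((40 * s).choose (21 * s) : ℝ) = B := ⟨_, rfl⟩
      have hcl := choose_lower s
      have hB0 : 0 ≤ pB s := pB_nonneg s
      unfold pB at hB0 ⊢
      rw [hB] at hcl hB0 ⊢
      obtain ⟨w, hw⟩ : ∃ w : ℝ, (21 : ℝ) ^ 21 * 19 ^ 19 / 20 ^ 40 = w := ⟨_, rfl⟩
      have hw0 : 0 < w := by rw [← hw]; positivity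
      have hq : 1 ≤ (40 * s + 1) * w ^ s * (B / 2 ^ (40 * s)) := by
        have e1 : w ^ s = 21 ^ (21 * s) * 19 ^ (19 * s) / 20 ^ (40 * s) := by
          rw [← hw, div_pow, mul_pow, ← pow_mul, ← pow_mul, ← pow_mul]
        have e2 : (40 : ℝ) ^ (40 * s) = 20 ^ (40 * s) * 2 ^ (40 * s) := by
          rw [← mul_pow]; norm_num
        rw [e1]
        rw [e2] at hcl
        have : (40 * s + 1) * (21 ^ (21 * s) * 19 ^ (19 * s) / 20 ^ (40 * s)) *
            (B / 2 ^ (40 * s)) = ((40 * s + 1) * (B * 21 ^ (21 * s) * 19 ^ (19 * s))) /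
              (20 ^ (40 * s) * 2 ^ (40 * s) : ℝ) := by
          field_simp
        rw [this, le_div_iff₀ (by positivity), one_mul]
        exact hcl
      have hw1 : w ≤ Real.exp 0.050025 := by
        have h1 := w_num
        rw [hw, show (0.10005 : ℝ) = ((2 : ℕ) : ℝ) * 0.050025 by norm_num, Real.exp_nat_mul] at h1
        exact (pow_le_pow_iff_left₀ hw0.le (Real.exp_pos _).le (by norm_num)).1 h1
      have hw2 : w ^ s ≤ Real.exp (0.050025 * s) := by
        rw [mul_comm (0.050025 : ℝ), Real.exp_nat_mul]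
        exact pow_le_pow_left₀ hw0.le hw1 s
      refine le_trans hq (mul_le_mul_of_nonneg_right (mul_le_mul_of_nonneg_left hw2 ?_) hB0)
      positivity
    -- lower bound for pA
    have hA : 1 ≤ (40 * s + 1) * Real.exp (alpha D * (40 * s) + 0.000001 * s) * pA D s := by
      have h1 : (4 : ℝ) ^ (20 * s) ≤ (40 * s + 1) * ((40 * s).choose (20 * s) : ℝ) := by
        have := Nat.four_pow_le_two_mul_add_one_mul_central_binom (20 * s)
        rw [show 2 * (20 * s) = 40 * s by omega] at this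
        exact_mod_cast this
      have h2 : Real.exp (alpha D * (40 * s)) = (200001 / 4 : ℝ) ^ (20 * s) := by
        have h3 : alpha D * (40 * s) = ((20 * s : ℕ) : ℝ) * Real.log (200001 / 4) := by
          unfold alpha
          rw [← Real.log_mul (by positivity) (by norm_num), hDR]
          push_cast
          rw [show ((100000 : ℝ) + 1 / 2) * (1 / 2) = 200001 / 4 by norm_num]
          ring
        rw [h3, Real.exp_nat_mul, Real.exp_log (by norm_num)]
      have h4 : (1.00000005 : ℝ) ^ (20 * s) ≤ Real.exp (0.000001 * s) := by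
        rw [show (0.000001 : ℝ) * s = ((20 * s : ℕ) : ℝ) * 0.00000005 by push_cast; ring,
          Real.exp_nat_mul]
        refine pow_le_pow_left₀ (by norm_num) ?_ _
        have := Real.add_one_le_exp (0.00000005 : ℝ)
        linarith
      have h5 : ((200000 : ℝ) ^ 2) ^ (20 * s) ≤
          (4 * (200001 / 4) * 1.00000005 * 199999) ^ (20 * s) :=
        pow_le_pow_left₀ (by norm_num) (by norm_num) _
      rw [← pow_mul, show 2 * (20 * s) = 40 * s by omega, mul_pow, mul_pow, mul_pow] at h5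
      rw [Real.exp_add, h2, pA, hDR, show (2 : ℝ) * 100000 - 1 = 199999 by norm_num,
        show (2 : ℝ) * 100000 = 200000 by norm_num, ← mul_div_assoc,
        le_div_iff₀ (by positivity), one_mul]
      refine le_trans h5 ?_
      have h6 := mul_le_mul h1 h4 (by positivity) (by positivity)
      have h7 := mul_le_mul_of_nonneg_right h6
        (show (0 : ℝ) ≤ (200001 / 4) ^ (20 * s) * 199999 ^ (20 * s) by positivity)
      refine le_trans (le_of_eq ?_) (le_trans h7 (le_of_eq ?_)) <;> ring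
    have hA0 := pA_nonneg (D := D) (by omega) s
    have hB0 := pB_nonneg s
    obtain ⟨X, hX⟩ : ∃ X : ℝ, Real.exp (alpha D * (40 * s) + 0.000001 * s) = X := ⟨_, rfl⟩
    obtain ⟨Y, hY⟩ : ∃ Y : ℝ, Real.exp (0.050025 * s) = Y := ⟨_, rfl⟩
    have hsplit : E = Real.exp (0.000014 * s) * (X * Y) := by
      rw [← hE, ← hX, ← hY, ← Real.exp_add, ← Real.exp_add]; congr 1; push_cast; ring
    have hX0 : 0 ≤ X := by rw [← hX]; positivity
    have hY0 : 0 ≤ Y := by rw [← hY]; positivity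
    rw [hX] at hA
    rw [hY] at hB
    have hAB := mul_le_mul hA hB (by norm_num) (by linarith)
    have hG : 0 ≤ X * Y * (pA D s * pB s) := by positivity
    have u2 : ((40 : ℝ) * s + 1) ^ 2 ≤ (41 * s) ^ 2 :=
      pow_le_pow_left₀ (by positivity) (by linarith) 2
    have u3 := mul_le_mul_of_nonneg_right u2 hG
    have hq2 : 1 ≤ (41 * s) ^ 2 * (X * Y * (pA D s * pB s)) := by
      refine le_trans (le_trans (by norm_num) hAB) (le_trans (le_of_eq ?_) u3)
      ring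
    have hcube := Real.pow_div_factorial_le_exp (x := 0.000014 * s) (by positivity) 3
    have hfac : ((Nat.factorial 3 : ℕ) : ℝ) = 6 := by norm_num [Nat.factorial]
    rw [hfac] at hcube
    have hF : 6 * C * (41 * s) ^ 2 ≤ Real.exp (0.000014 * s) := by
      refine le_trans ?_ hcube
      have : (0 : ℝ) ≤ (s : ℝ) ^ 2 := sq_nonneg _
      have h5 : C * 10 ^ 21 ≤ s := by linarith
      have h6 := mul_le_mul_of_nonneg_right h5 this
      nlinarith
    have v1 := mul_le_mul_of_nonneg_right hF hG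
    have v2 := mul_le_mul_of_nonneg_left hq2 hC
    have v3 := mul_le_mul_of_nonneg_right hN3 (mul_nonneg hA0 hB0)
    refine le_trans ?_ v3
    rw [hsplit]
    nlinarith

end Pool.Agent.H347Z.Acy
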