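import Pool.Agent.H347Z.AcyProb

set_option autoImplicit false

namespace Pool.Agent.H347Z.Acy

open Finset
open Pool.Agent.H347Z.Exp (sg sg_mul_self quad quad_ok grid exists_grid)

abbrev Sig (D : ℕ) : Type := Fin D × Bool
abbrev Xi (D : ℕ) : Type := Sig D × (Fin D → Bool)
abbrev Pt (D m : ℕ) : Type := Fin m → Xi D

noncomputable def dot {D : ℕ} (β : Fin D → ℝ) (s : Sig D) : ℝ := β s.1 * sg s.2

def AC {D m : ℕ} (a c : Pt D m) : Prop :=
  (m : ℝ) / 2 ≤ ∑ i, if (a i).1 = (c i).1 then (1 : ℝ) else 0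

def BC {D m : ℕ} (b c : Pt D m) : Prop :=
  21 / 40 * (m : ℝ) ≤ ∑ i, if (b i).2 (c i).1.1 = (c i).1.2 then (1 : ℝ) else 0

lemma AC.symm {D m : ℕ} {a c : Pt D m} (h : AC a c) : AC c a := by
  unfold AC at *
  simpa only [eq_comm] using h

noncomputable def lw {D : ℕ} (p s : Sig D) : ℝ :=
  if p = s then Real.log (D + 1 / 2) else Real.log (1 / 2)

noncomputable def alpha (D : ℕ) : ℝ := (Real.log (D + 1 / 2) + Real.log (1 / 2)) / 2

lemma lw_sum {D m : ℕ} {a c : Pt D m} (h : AC a c) :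
    alpha D * m ≤ ∑ i, lw (a i).1 (c i).1 := by
  have h0 : Real.log (1 / 2) ≤ Real.log ((D : ℝ) + 1 / 2) :=
    Real.log_le_log (by norm_num) (by have : (0 : ℝ) ≤ D := Nat.cast_nonneg D; linarith)
  have h1 : ∀ i, lw (a i).1 (c i).1 = Real.log (1 / 2) +
      (Real.log ((D : ℝ) + 1 / 2) - Real.log (1 / 2)) *
        (if (a i).1 = (c i).1 then (1 : ℝ) else 0) := by
    intro i; unfold lw; split_ifs <;> ring
  simp only [h1, sum_add_distrib, ← mul_sum, sum_const, card_univ, Fintype.card_fin, nsmul_eq_mul]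
  unfold AC at h
  have := mul_le_mul_of_nonneg_left h (sub_nonneg.2 h0)
  unfold alpha
  linarith

lemma bc_sum {D m : ℕ} {b c : Pt D m} (h : BC b c) :
    (m : ℝ) / 20 ≤ ∑ i, dot (fun x => sg ((b i).2 x)) (c i).1 := by
  have h1 : ∀ i, dot (fun x => sg ((b i).2 x)) (c i).1 =
      2 * (if (b i).2 (c i).1.1 = (c i).1.2 then (1 : ℝ) else 0) - 1 := by
    intro i
    simp only [dot]
    cases (b i).2 (c i).1.1 <;> cases (c i).1.2 <;> norm_num [sg]
  simp only [h1, sum_sub_distrib, ← mul_sum, sum_const, card_univ, Fintype.card_fin, nsmul_eq_mul]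
  unfold BC at h
  linarith

lemma card_xi (D : ℕ) : (Fintype.card (Xi D) : ℝ) = 2 * D * 2 ^ D := by
  simp; ring

lemma sum_xi_fst {D : ℕ} (f : Sig D → ℝ) : ∑ ξ : Xi D, f ξ.1 = 2 ^ D * ∑ s, f s := by
  rw [Fintype.sum_prod_type, mul_sum]
  refine sum_congr rfl (fun s _ => ?_)
  simp

lemma sum_xi_snd {D : ℕ} (f : (Fin D → Bool) → ℝ) : ∑ ξ : Xi D, f ξ.2 = 2 * D * ∑ b, f b := by
  rw [Fintype.sum_prod_type]
  simp only [sum_const, card_univ, nsmul_eq_mul, Fintype.card_prod, Fintype.card_fin,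
    Fintype.card_bool]
  push_cast; ring

lemma test_fst {D : ℕ} (hD : 0 < D) (p : Sig D) (P : Sig D → ℝ) (B : ℝ)
    (h : (∑ s, Real.exp (P s)) / (4 * D) + Real.exp (P p) / 2 ≤ Real.exp B) :
    ∑ ξ : Xi D, Real.exp (lw p ξ.1 + P ξ.1 - B) ≤ Fintype.card (Xi D) := by
  have hD' : (0 : ℝ) < D := by exact_mod_cast hD
  rw [sum_xi_fst (fun s => Real.exp (lw p s + P s - B)), card_xi, mul_comm (2 * (D : ℝ))]
  refine mul_le_mul_of_nonneg_left ?_ (by positivity)
  have h1 : ∀ s, Real.exp (lw p s + P s - B) =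
      (Real.exp (P s) / 2 + if p = s then D * Real.exp (P s) else 0) / Real.exp B := by
    intro s
    rw [Real.exp_sub, Real.exp_add]
    unfold lw
    split_ifs
    · rw [Real.exp_log (by positivity)]; ring
    · rw [Real.exp_log (by positivity)]; ring
  simp only [h1]
  rw [← sum_div, sum_add_distrib, sum_ite_eq, if_pos (mem_univ p), ← sum_div,
    div_le_iff₀ (Real.exp_pos B)]
  have h2 := mul_le_mul_of_nonneg_left h (show (0 : ℝ) ≤ 2 * D by positivity)
  refine le_trans (le_of_eq ?_) h2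
  field_simp
  ring

lemma exp_le_quad {x : ℝ} (hx : |x| ≤ 1) : Real.exp x ≤ 1 + x + x ^ 2 := by
  have := (abs_le.1 (Real.abs_exp_sub_one_sub_id_le hx)).2
  linarith

lemma dot_sq {D : ℕ} (β : Fin D → ℝ) (s : Sig D) : dot β s ^ 2 = β s.1 ^ 2 := by
  unfold dot
  have := sg_mul_self s.2
  linear_combination (β s.1 ^ 2) * this

lemma dot_abs {D : ℕ} (β : Fin D → ℝ) (hβ : ∀ x, |β x| ≤ 1) (s : Sig D) : |dot β s| ≤ 1 := by
  rw [← sq_le_one_iff_abs_le_one, dot_sq, sq_le_one_iff_abs_le_one]; exact hβ _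

/-- the tilt of a chain test -/
noncomputable def tP {D : ℕ} (fl : Bool) (β : Fin D → ℝ) (s : Sig D) : ℝ :=
  if fl then dot β s / 2 else β s.1 ^ 2 / 2

noncomputable def tB {D : ℕ} (fl : Bool) (β : Fin D → ℝ) (p : Sig D) : ℝ :=
  if fl then dot β p / 4 + β p.1 ^ 2 / 8 + (∑ x, β x ^ 2) / (8 * D)
  else 3 * β p.1 ^ 2 / 8 + 3 * (∑ x, β x ^ 2) / (8 * D)

lemma chain_ok {D : ℕ} (hD : 0 < D) (fl : Bool) (β : Fin D → ℝ) (hβ : ∀ x, |β x| ≤ 1)
    (p : Sig D) :
    ∑ ξ : Xi D, Real.exp (lw p ξ.1 + tP fl β ξ.1 - tB fl β p) ≤ Fintype.card (Xi D) := by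
  have hD' : (0 : ℝ) < D := by exact_mod_cast hD
  refine test_fst hD p (tP fl β) _ (le_trans ?_ (Real.add_one_le_exp _))
  cases fl
  · have h1 : ∀ s : Sig D, Real.exp (tP false β s) ≤ 1 + 3 / 4 * β s.1 ^ 2 := by
      intro s
      have h2 : β s.1 ^ 2 ≤ 1 := (sq_le_one_iff_abs_le_one _).2 (hβ _)
      have h3 : 0 ≤ β s.1 ^ 2 := sq_nonneg _
      have h4 := exp_le_quad (x := β s.1 ^ 2 / 2) (by rw [abs_le]; constructor <;> linarith)
      simp only [tP, Bool.false_eq_true, if_false]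
      nlinarith
    have h2 : ∑ s : Sig D, Real.exp (tP false β s) ≤ 2 * D + 3 / 2 * ∑ x, β x ^ 2 := by
      refine le_trans (sum_le_sum (fun s _ => h1 s)) (le_of_eq ?_)
      rw [Fintype.sum_prod_type]
      simp only [Fintype.card_bool, sum_add_distrib, ← mul_sum, sum_const, card_univ,
        Fintype.card_fin, nsmul_eq_mul]
      push_cast; ring
    have h3 := div_le_div_of_nonneg_right h2 (show (0 : ℝ) ≤ 4 * D by positivity)
    have h4 := h1 p
    have h5 : (2 * D + 3 / 2 * ∑ x, β x ^ 2) / (4 * D) =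
        1 / 2 + 3 * (∑ x, β x ^ 2) / (8 * D : ℝ) := by field_simp; ring
    simp only [tB, Bool.false_eq_true, if_false]
    linarith
  · have h1 : ∀ s : Sig D, Real.exp (tP true β s) ≤ 1 + dot β s / 2 + β s.1 ^ 2 / 4 := by
      intro s
      have h2 := abs_le.1 (dot_abs β hβ s)
      have h4 := exp_le_quad (x := dot β s / 2) (by rw [abs_le]; constructor <;> linarith)
      have h5 := dot_sq β s
      simp only [tP, if_true]
      nlinarith
    have h2 : ∑ s : Sig D, Real.exp (tP true β s) ≤ 2 * D + 1 / 2 * ∑ x, β x ^ 2 := by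
      refine le_trans (sum_le_sum (fun s _ => h1 s)) (le_of_eq ?_)
      rw [Fintype.sum_prod_type]
      have h6 : ∀ x : Fin D, ∑ y : Bool, (1 + dot β (x, y) / 2 + β (x, y).1 ^ 2 / 4) =
          2 + 1 / 2 * β x ^ 2 := by
        intro x
        simp only [Fintype.sum_bool, dot, sg]
        norm_num; ring
      simp only [h6, sum_add_distrib, ← mul_sum, sum_const, card_univ,
        Fintype.card_fin, nsmul_eq_mul]
      ring
    have h3 := div_le_div_of_nonneg_right h2 (show (0 : ℝ) ≤ 4 * D by positivity)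
    have h4 := h1 p
    have h5 : (2 * D + 1 / 2 * ∑ x, β x ^ 2) / (4 * D) =
        1 / 2 + (∑ x, β x ^ 2) / (8 * D : ℝ) := by field_simp; ring
    simp only [tB, if_true]
    linarith

lemma fin_num :
    (Real.exp 0.05 + Real.exp (-0.05)) / 4 + Real.exp 0.05 / 2 ≤ Real.exp 0.025925 ∧
    (Real.exp 0.05 + Real.exp (-0.05)) / 4 + Real.exp (-0.05) / 2 ≤ Real.exp (-0.024045) := by
  have h1 := Real.exp_bound (x := 0.05) (by rw [abs_le]; constructor <;> norm_num)
    (n := 5) (by norm_num)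
  have h2 := Real.exp_bound (x := -0.05) (by rw [abs_le]; constructor <;> norm_num)
    (n := 5) (by norm_num)
  have h3 := Real.exp_bound (x := 0.025925) (by rw [abs_le]; constructor <;> norm_num)
    (n := 5) (by norm_num)
  have h4 := Real.exp_bound (x := -0.024045) (by rw [abs_le]; constructor <;> norm_num)
    (n := 5) (by norm_num)
  rw [abs_le] at h1 h2 h3 h4
  have a1 : |(0.05 : ℝ)| = 0.05 := abs_of_pos (by norm_num)
  have a2 : |(-0.05 : ℝ)| = 0.05 := by rw [abs_neg]; exact abs_of_pos (by norm_num)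
  have a3 : |(0.025925 : ℝ)| = 0.025925 := abs_of_pos (by norm_num)
  have a4 : |(-0.024045 : ℝ)| = 0.024045 := by rw [abs_neg]; exact abs_of_pos (by norm_num)
  rw [a1] at h1
  rw [a2] at h2
  rw [a3] at h3
  rw [a4] at h4
  have b1 := h1.2
  have b2 := h2.2
  have b3 := h3.1
  have b4 := h4.1
  simp only [sum_range_succ, sum_range_zero, Nat.factorial] at b1 b2 b3 b4
  norm_num at b1 b2 b3 b4 ⊢
  constructor <;> linarith

lemma final_ok {D : ℕ} (hD : 0 < D) (b : Fin D → Bool) (p : Sig D) :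
    ∑ ξ : Xi D, Real.exp (lw p ξ.1 + dot (fun x => sg (b x)) ξ.1 / 20 -
      (0.00094 + 0.024985 * dot (fun x => sg (b x)) p)) ≤ Fintype.card (Xi D) := by
  have hD' : (0 : ℝ) < D := by exact_mod_cast hD
  refine test_fst hD p (fun s => dot (fun x => sg (b x)) s / 20) _ ?_
  have h1 : ∑ s : Sig D, Real.exp (dot (fun x => sg (b x)) s / 20) =
      D * (Real.exp 0.05 + Real.exp (-0.05)) := by
    rw [Fintype.sum_prod_type]
    have h6 : ∀ x : Fin D, ∑ y : Bool, Real.exp (dot (fun x => sg (b x)) (x, y) / 20) =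
        Real.exp 0.05 + Real.exp (-0.05) := by
      intro x
      simp only [Fintype.sum_bool, dot]
      cases b x
      · norm_num [sg]; ring
      · norm_num [sg]
    simp only [h6, sum_const, card_univ, Fintype.card_fin, nsmul_eq_mul]
  rw [h1]
  have h2 : D * (Real.exp 0.05 + Real.exp (-0.05)) / (4 * D) =
      (Real.exp 0.05 + Real.exp (-0.05)) / 4 := by field_simp
  rw [h2]
  have h3 : dot (fun x => sg (b x)) p = 1 ∨ dot (fun x => sg (b x)) p = -1 := by
    simp only [dot]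
    cases b p.1 <;> cases p.2 <;> norm_num [sg]
  have h4 := fin_num
  rcases h3 with h | h <;> rw [h]
  · convert h4.1 using 3 <;> norm_num
  · convert h4.2 using 3 <;> norm_num

lemma btest_ok {D : ℕ} (β : Fin D → ℝ) :
    ∑ ξ : Xi D, Real.exp (∑ x, quad (β x) (ξ.2 x)) ≤ Fintype.card (Xi D) := by
  rw [sum_xi_snd (fun b => Real.exp (∑ x, quad (β x) (b x))), card_xi]
  refine mul_le_mul_of_nonneg_left ?_ (by positivity)
  have := Finset.prod_univ_sum (fun _ : Fin D => (univ : Finset Bool))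
    (fun x b => Real.exp (quad (β x) b))
  rw [Fintype.piFinset_univ] at this
  simp only [Real.exp_sum]
  rw [← this]
  have h2 : ∏ x : Fin D, ∑ b : Bool, Real.exp (quad (β x) b) ≤ ∏ _i : Fin D, (2 : ℝ) := by
    refine prod_le_prod (fun i _ => sum_nonneg (fun _ _ => (Real.exp_pos _).le)) (fun i _ => ?_)
    rw [Fintype.sum_bool]; exact quad_ok _
  refine h2.trans (le_of_eq ?_)
  simp

lemma grid_abs (k : ℕ) (h : Fin (k + 1)) : |grid k h| ≤ 1 := by
  unfold grid
  rcases Nat.eq_zero_or_pos k with rfl | hk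
  · simp
  · have hk' : (0 : ℝ) < k := by exact_mod_cast hk
    have h1 : (h : ℝ) ≤ k := by exact_mod_cast Nat.le_of_lt_succ h.2
    have h2 : (0 : ℝ) ≤ (h : ℝ) := Nat.cast_nonneg _
    rw [abs_div, abs_of_pos hk', div_le_one hk', abs_le]
    constructor <;> linarith

lemma tail_sum {k j : ℕ} (F : (Fin j → Fin k) → ℝ) :
    ∑ u : Fin (j + 1) → Fin k, F (Fin.tail u) = k * ∑ a, F a := by
  rw [← Fintype.sum_equiv (Fin.consEquiv (fun _ : Fin (j + 1) => Fin k)) (fun z => F z.2)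
    (fun u => F (Fin.tail u)) (fun z => by simp [Fin.consEquiv]), Fintype.sum_prod_type]
  simp

end Pool.Agent.H347Z.Acy
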