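import Pool.Agent.H347Z.AcyCount

set_option autoImplicit false

namespace Pool.Agent.H347Z.Acy

open Finset

/-- A graph grown from a triangle by adding vertices with two earlier neighbours of the two other
colours. -/
structure Build (V : Type) where
  par1 : V → V
  par2 : V → V
  lvl : V → ℕ
  col : V → Fin 3
  T : Fin 3 → V
  c1 : ∀ v, col (par1 v) ≠ col v
  c2 : ∀ v, col (par2 v) ≠ col v
  c3 : ∀ v, col (par1 v) ≠ col (par2 v)
  colT : ∀ t, col (T t) = t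
  p1T : ∀ t, par1 (T t) = T (t + 1)
  p2T : ∀ t, par2 (T t) = T (t + 2)
  down : ∀ v, (∃ t, v = T t) ∨ (lvl (par1 v) < lvl v ∧ lvl (par2 v) < lvl v)

namespace Build

variable {V W : Type}

def graph (B : Build V) : SimpleGraph V :=
  SimpleGraph.fromRel (fun u v => u = B.par1 v ∨ u = B.par2 v)

def map (B : Build V) (e : V ≃ W) : Build W where
  par1 w := e (B.par1 (e.symm w))
  par2 w := e (B.par2 (e.symm w))
  lvl w := B.lvl (e.symm w)
  col w := B.col (e.symm w)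
  T t := e (B.T t)
  c1 v := by simpa using B.c1 _
  c2 v := by simpa using B.c2 _
  c3 v := by simpa using B.c3 _
  colT t := by simpa using B.colT t
  p1T t := by simp [B.p1T]
  p2T t := by simp [B.p2T]
  down v := by
    rcases B.down (e.symm v) with ⟨t, ht⟩ | h
    · exact Or.inl ⟨t, by rw [← ht]; simp⟩
    · exact Or.inr (by simpa using h)

lemma adj1 (B : Build V) (v : V) : B.graph.Adj (B.par1 v) v := by
  rw [graph, SimpleGraph.fromRel_adj]
  exact ⟨fun h => B.c1 v (by rw [h]), Or.inl (Or.inl rfl)⟩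

lemma adj2 (B : Build V) (v : V) : B.graph.Adj (B.par2 v) v := by
  rw [graph, SimpleGraph.fromRel_adj]
  exact ⟨fun h => B.c2 v (by rw [h]), Or.inl (Or.inr rfl)⟩

lemma low (B : Build V) {v w : V} (h : B.graph.Adj v w) (hl : B.lvl w ≤ B.lvl v) :
    w = B.par1 v ∨ w = B.par2 v := by
  have e1 : ∀ r : Fin 3, r + 1 + 2 = r := by decide
  have e2 : ∀ r : Fin 3, r + 2 + 1 = r := by decide
  rw [graph, SimpleGraph.fromRel_adj] at h
  rcases h.2 with (h | h) | h
  · subst h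
    rcases B.down w with ⟨t, rfl⟩ | h'
    · right; rw [B.p1T, B.p2T, e1]
    · omega
  · subst h
    rcases B.down w with ⟨t, rfl⟩ | h'
    · left; rw [B.p2T, B.p1T, e2]
    · omega
  · exact h

def coloring (B : Build V) : B.graph.Coloring (Fin 3) :=
  SimpleGraph.Coloring.mk B.col (by
    intro v w h
    rw [graph, SimpleGraph.fromRel_adj] at h
    rcases h.2 with (h | h) | (h | h)
    · rw [h]; exact B.c1 w
    · rw [h]; exact B.c2 w
    · rw [h]; exact (B.c1 v).symm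
    · rw [h]; exact (B.c2 v).symm)

lemma acyclic (B : Build V) (i j : Fin 3) :
    (B.graph.induce {v : V | B.coloring v = i ∨ B.coloring v = j}).IsAcyclic := by
  classical
  intro v c hc
  obtain ⟨u, hu, hmax⟩ := exists_max_image c.support.toFinset (fun x => B.lvl x.1)
    ⟨v, by simp⟩
  rw [List.mem_toFinset] at hu
  have hc' := hc.rotate hu
  have hsup : ∀ x, x ∈ (c.rotate u hu).support → B.lvl x.1 ≤ B.lvl u.1 := fun x hx =>
    hmax x (List.mem_toFinset.2 ((SimpleGraph.Walk.mem_support_rotate_iff c u hu).1 hx))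
  have a1 := SimpleGraph.Walk.adj_snd hc'.not_nil
  have a2 := (SimpleGraph.Walk.adj_penultimate hc'.not_nil).symm
  have hne := hc'.snd_ne_penultimate
  have l1 := B.low a1 (hsup _ (SimpleGraph.Walk.getVert_mem_support _ _))
  have l2 := B.low a2 (hsup _ (SimpleGraph.Walk.getVert_mem_support _ _))
  obtain ⟨x, hx⟩ : ∃ x, (c.rotate u hu).snd = x := ⟨_, rfl⟩
  obtain ⟨y, hy⟩ : ∃ y, (c.rotate u hu).penultimate = y := ⟨_, rfl⟩
  have l1' : x.1 = B.par1 u.1 ∨ x.1 = B.par2 u.1 := by rw [← hx]; exact l1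
  have l2' : y.1 = B.par1 u.1 ∨ y.1 = B.par2 u.1 := by rw [← hy]; exact l2
  have hne' : x.1 ≠ y.1 := fun h => hne (by rw [hx, hy]; exact Subtype.ext h)
  have k0 : B.col u.1 = i ∨ B.col u.1 = j := u.2
  have k1 : B.col x.1 = i ∨ B.col x.1 = j := x.2
  have k2 : B.col y.1 = i ∨ B.col y.1 = j := y.2
  have d1 := B.c1 u.1
  have d2 := B.c2 u.1
  have d3 := B.c3 u.1
  have key : ∀ a b c i j : Fin 3, a ≠ c → b ≠ c → a ≠ b → (a = i ∨ a = j) → (b = i ∨ b = j) →
      (c = i ∨ c = j) → False := by decide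
  rcases l1' with h1 | h1 <;> rcases l2' with h2 | h2
  · exact hne' (h1.trans h2.symm)
  · rw [h1] at k1; rw [h2] at k2; exact key _ _ _ _ _ d1 d2 d3 k1 k2 k0
  · rw [h1] at k1; rw [h2] at k2; exact key _ _ _ _ _ d1 d2 d3 k2 k1 k0
  · exact hne' (h1.trans h2.symm)

lemma forced (B : Build V) (φ : V → Fin 3) (h1 : ∀ v, φ (B.par1 v) ≠ φ v)
    (h2 : ∀ v, φ (B.par2 v) ≠ φ v) :
    ∃ π : Equiv.Perm (Fin 3), ∀ v r, B.col v = π r → φ v = r := by
  have t1 : ∀ t, φ (B.T (t + 1)) ≠ φ (B.T t) := fun t => by rw [← B.p1T]; exact h1 _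
  have t2 : ∀ t, φ (B.T (t + 2)) ≠ φ (B.T t) := fun t => by rw [← B.p2T]; exact h2 _
  have inj : Function.Injective (fun t => φ (B.T t)) := by
    intro a b h
    have hab : ∀ a b : Fin 3, a = b ∨ a = b + 1 ∨ a = b + 2 := by decide
    rcases hab a b with h' | h' | h'
    · exact h'
    · rw [h'] at h; exact absurd h (t1 b)
    · rw [h'] at h; exact absurd h (t2 b)
  have third : ∀ x y z w : Fin 3, x ≠ y → x ≠ z → y ≠ z → x ≠ w → y ≠ w → z = w := by decide
  have main : ∀ n v, B.lvl v < n → φ v = φ (B.T (B.col v)) := by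
    intro n
    induction n with
    | zero => intro v hv; omega
    | succ n ih =>
      intro v hv
      rcases B.down v with ⟨t, rfl⟩ | h
      · rw [B.colT]
      · have a := ih (B.par1 v) (by omega)
        have b := ih (B.par2 v) (by omega)
        have a' := h1 v
        have b' := h2 v
        rw [a] at a'
        rw [b] at b'
        exact third _ _ _ _ (fun h => B.c3 v (inj h)) a' b' (fun h => B.c1 v (inj h))
          (fun h => B.c2 v (inj h))
  refine ⟨(Equiv.ofBijective _ (Finite.injective_iff_bijective.1 inj)).symm, fun v r h => ?_⟩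
  rw [main _ v (Nat.lt_succ_self _), h]
  exact (Equiv.ofBijective _ (Finite.injective_iff_bijective.1 inj)).apply_symm_apply r

end Build

abbrev VG (k L : ℕ) : Type :=
  Fin 3 ⊕ (Equiv.Perm (Fin 3) ×
    (Fin k ⊕ (Σ j : Fin (L + 1), (Fin j → Fin k)) ⊕ ((Fin L → Fin k) × Fin k)))

def vB {k L : ℕ} (π : Equiv.Perm (Fin 3)) (l : Fin k) : VG k L := Sum.inr (π, Sum.inl l)
def vS {k L : ℕ} (π : Equiv.Perm (Fin 3)) (j : ℕ) (h : j ≤ L) (s : Fin j → Fin k) : VG k L :=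
  Sum.inr (π, Sum.inr (Sum.inl ⟨⟨j, Nat.lt_succ_of_le h⟩, s⟩))
def vF {k L : ℕ} (π : Equiv.Perm (Fin 3)) (c : (Fin L → Fin k) × Fin k) : VG k L :=
  Sum.inr (π, Sum.inr (Sum.inr c))

def gp1 {k L : ℕ} : VG k L → VG k L
  | Sum.inl t => Sum.inl (t + 1)
  | Sum.inr (π, Sum.inl _) => Sum.inl (π 0)
  | Sum.inr (π, Sum.inr (Sum.inl ⟨⟨0, _⟩, _⟩)) => Sum.inl (π 2)
  | Sum.inr (π, Sum.inr (Sum.inl ⟨⟨j + 1, h⟩, s⟩)) => vS π j (by omega) (Fin.tail s)
  | Sum.inr (π, Sum.inr (Sum.inr c)) => vS π L le_rfl c.1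

def gp2 {k L : ℕ} : VG k L → VG k L
  | Sum.inl t => Sum.inl (t + 2)
  | Sum.inr (π, Sum.inl _) => Sum.inl (π 2)
  | Sum.inr (π, Sum.inr (Sum.inl _)) => Sum.inl (π 1)
  | Sum.inr (π, Sum.inr (Sum.inr c)) => vB π c.2

def glvl {k L : ℕ} : VG k L → ℕ
  | Sum.inl _ => 0
  | Sum.inr (_, Sum.inl _) => 1
  | Sum.inr (_, Sum.inr (Sum.inl z)) => z.1 + 1
  | Sum.inr (_, Sum.inr (Sum.inr _)) => L + 2

def gcol {k L : ℕ} : VG k L → Fin 3
  | Sum.inl t => t
  | Sum.inr (π, Sum.inl _) => π 1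
  | Sum.inr (π, Sum.inr (Sum.inl z)) => if (z.1 : ℕ) % 2 = 0 then π 0 else π 2
  | Sum.inr (π, Sum.inr (Sum.inr _)) => π 2

def gB (k L : ℕ) (hL : L % 2 = 0) : Build (VG k L) where
  par1 := gp1
  par2 := gp2
  lvl := glvl
  col := gcol
  T := Sum.inl
  c1 := by
    have e1 : ∀ r : Fin 3, r + 1 ≠ r := by decide
    rintro (t | ⟨π, l | ⟨⟨_ | j, h⟩, s⟩ | c⟩)
    · exact e1 t
    · simp [gp1, gcol]
    · simp [gp1, gcol]
    · simp only [gp1, gcol, vS]
      split_ifs <;> first | omega | simp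
    · simp [gp1, gcol, vS, hL]
  c2 := by
    have e1 : ∀ r : Fin 3, r + 2 ≠ r := by decide
    rintro (t | ⟨π, l | z | c⟩)
    · exact e1 t
    · simp [gp2, gcol]
    · simp only [gp2, gcol]
      split_ifs <;> simp
    · simp [gp2, gcol, vB]
  c3 := by
    have e1 : ∀ r : Fin 3, r + 1 ≠ r + 2 := by decide
    rintro (t | ⟨π, l | ⟨⟨_ | j, h⟩, s⟩ | c⟩)
    · exact e1 t
    · simp [gp1, gp2, gcol]
    · simp [gp1, gp2, gcol]
    · simp only [gp1, gp2, gcol, vS]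
      split_ifs <;> simp
    · simp [gp1, gp2, gcol, vS, vB, hL]
  colT _ := rfl
  p1T _ := rfl
  p2T _ := rfl
  down := by
    rintro (t | ⟨π, l | ⟨⟨_ | j, h⟩, s⟩ | c⟩)
    · exact Or.inl ⟨t, rfl⟩
    · right; simp [gp1, gp2, glvl]
    · right; simp [gp1, gp2, glvl]
    · right; simp [gp1, gp2, glvl, vS]
    · right; simp [gp1, gp2, glvl, vS, vB]

/-- the adjacency relation of the tripartite host graph -/
def Host {N D m : ℕ} (ω : Fin 3 × Fin N → Pt D m) (x y : Fin 3 × Fin N) : Prop :=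
  x.1 ≠ y.1 ∧ (x.1 = 0 → y.1 = 2 → AC (ω x) (ω y)) ∧ (x.1 = 1 → y.1 = 2 → BC (ω x) (ω y))

lemma noCopy {k D L : ℕ} (hk : k = 1000000000000) (hD : D = 100000) (hL : L = 26) {N m : ℕ}
    (hm : 0 < m) (ω : Fin 3 × Fin N → Pt D m)
    (hV : (Fintype.card (Fin 3 × Fin N) : ℝ) ≤ Real.exp ((alpha D + 0.001251) * m))
    (hω : Good k L ω) (F : VG k L → Fin 3 × Fin N) (hF : Function.Injective F)
    (h1 : ∀ v, Host ω (F (gp1 v)) (F v) ∧ Host ω (F v) (F (gp1 v)))
    (h2 : ∀ v, Host ω (F (gp2 v)) (F v)) : False := by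
  have hL2 : L % 2 = 0 := by omega
  obtain ⟨π, hπ⟩ := (gB k L hL2).forced (fun v => (F v).1) (fun v => (h1 v).1.1)
    (fun v => (h2 v).1)
  have cS0 : ∀ j h s, j % 2 = 0 → (F (vS π j h s)).1 = 0 := fun j h s hj =>
    hπ _ _ (by simp [gB, gcol, vS, hj])
  have cS2 : ∀ j h s, j % 2 ≠ 0 → (F (vS π j h s)).1 = 2 := fun j h s hj =>
    hπ _ _ (by simp only [gB, gcol, vS]; rw [if_neg hj])
  have cB : ∀ l, (F (vB π l)).1 = 1 := fun l => hπ _ _ rfl
  have cF : ∀ c, (F (vF π c)).1 = 2 := fun c => hπ _ _ rfl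
  refine noGadget hk hD hL hm ω hV hω (fun l => F (vB π l)) (fun j h s => F (vS π j h s))
    (fun c => F (vF π c)) ?_ ?_ ?_ ?_ ?_
  · rintro j h (a | a) (b | b) e <;> have e' := hF e <;> simp [vS] at e' ⊢ <;> exact e'
  · rintro ((a | a) | a) ((b | b) | b) e <;> have e' := hF e <;> simp [vS, vB, vF] at e' ⊢ <;>
      exact e'
  · intro j h u
    have := h1 (vS π (j + 1) h u)
    by_cases hj : j % 2 = 0
    · exact this.1.2.1 (cS0 j (by omega) _ hj) (cS2 (j + 1) h u (by omega))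
    · exact (this.2.2.1 (cS0 (j + 1) h u (by omega)) (cS2 j (by omega) _ hj)).symm
  · intro c
    exact (h1 (vF π c)).1.2.1 (cS0 L le_rfl _ hL2) (cF c)
  · intro c
    exact (h2 (vF π c)).2.2 (cB _) (cF c)

/-- the hypergraph -/
noncomputable def hyp {N D m : ℕ} (ω : Fin 3 × Fin N → Pt D m) :
    Finset (Finset (Fin (3 * N))) :=
  (tri ω).image (fun τ => {finProdFinEquiv ((0 : Fin 3), τ.1), finProdFinEquiv ((1 : Fin 3), τ.2.1),
    finProdFinEquiv ((2 : Fin 3), τ.2.2)})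

lemma hyp_card3 {N D m : ℕ} (ω : Fin 3 × Fin N → Pt D m) : ∀ e ∈ hyp ω, e.card = 3 := by
  intro e he
  obtain ⟨τ, -, rfl⟩ := mem_image.1 he
  rw [card_eq_three]
  refine ⟨_, _, _, ?_, ?_, ?_, rfl⟩ <;> simp

lemma hyp_card {N D m : ℕ} (ω : Fin 3 × Fin N → Pt D m) : (hyp ω).card = (tri ω).card := by
  refine card_image_of_injective _ ?_
  rintro ⟨a, b, c⟩ ⟨a', b', c'⟩ h
  have h0 := (Finset.ext_iff.1 h (finProdFinEquiv ((0 : Fin 3), a))).1 (by simp)
  have h1 := (Finset.ext_iff.1 h (finProdFinEquiv ((1 : Fin 3), b))).1 (by simp)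
  have h2 := (Finset.ext_iff.1 h (finProdFinEquiv ((2 : Fin 3), c))).1 (by simp)
  simp at h0 h1 h2
  simp [h0, h1, h2]

lemma hyp_edge {N D m : ℕ} (ω : Fin 3 × Fin N → Pt D m) (x y z : Fin (3 * N)) (hxy : x ≠ y)
    (h : ({x, y, z} : Finset (Fin (3 * N))) ∈ hyp ω) :
    Host ω (finProdFinEquiv.symm x) (finProdFinEquiv.symm y) := by
  obtain ⟨τ, hτ, he⟩ := mem_image.1 h
  have hτ' : AC (ω (0, τ.1)) (ω (2, τ.2.2)) ∧ BC (ω (1, τ.2.1)) (ω (2, τ.2.2)) := by
    classical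
    unfold tri at hτ
    simpa using hτ
  have hx := (Finset.ext_iff.1 he x).2 (by simp)
  have hy := (Finset.ext_iff.1 he y).2 (by simp)
  simp only [mem_insert, mem_singleton] at hx hy
  rcases hx with rfl | rfl | rfl <;> rcases hy with rfl | rfl | rfl <;>
    simp only [Equiv.symm_apply_apply] <;>
    first
    | exact absurd rfl hxy
    | simp [Host, hτ'.1, hτ'.2]

end Pool.Agent.H347Z.Acy
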