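import Pool.Agent.H347Z.ExpDet

set_option autoImplicit false

namespace Pool.Agent.H347Z.Exp

open Finset

noncomputable def e0 (k m : ℕ) :
    (Fin m → Fin (k + 1)) → (Empty → Cube m) → Fin k → Fin m → Bool → ℝ :=
  fun γ _ _ i b => quad (grid k (γ i)) b

noncomputable def e1 (k m : ℕ) :
    (Fin m → Fin (k * k + 1)) → (Fin k ⊕ Fin k → Cube m) → Fin k × Fin k → Fin m → Bool → ℝ :=
  fun γ α c i b => quad ((sg (α (Sum.inl c.1) i) + sg (α (Sum.inr c.2) i)) / 20 +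
    grid (k * k) (γ i)) b

noncomputable def e2 (k m : ℕ) :
    Unit → (Fin k × Fin k → Cube m) → (Fin k × Fin k) × (Fin k × Fin k) → Fin m → Bool → ℝ :=
  fun _ α d i b => quart (sg (α d.1 i) + sg (α d.2 i)) b

def Good (k : ℕ) {V : Type} [Fintype V] [DecidableEq V] {m : ℕ} (ω : V → Cube m) : Prop :=
  pot (e0 k m) ω < (Fintype.card V : ℝ) ^ (k + 2) * ((k : ℝ) + 1) ^ m ∧
  pot (e1 k m) ω < (Fintype.card V : ℝ) ^ (k + k + k * k + 2) * ((k : ℝ) * k + 1) ^ m ∧
  pot (e2 k m) ω < (Fintype.card V : ℝ) ^ (k * k + k * k * (k * k) + 2)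

lemma exp_twenty : (1000001 : ℝ) ≤ Real.exp 20 ∧ (1000000000001 : ℝ) ≤ Real.exp 40 := by
  have h : (2 : ℝ) ≤ Real.exp 1 := by have := Real.add_one_le_exp (1 : ℝ); linarith
  have h1 : Real.exp 20 = Real.exp 1 ^ 20 := by rw [← Real.exp_nat_mul]; norm_num
  have h2 : Real.exp 40 = Real.exp 1 ^ 40 := by rw [← Real.exp_nat_mul]; norm_num
  have h3 : (2 : ℝ) ^ 20 ≤ Real.exp 1 ^ 20 := pow_le_pow_left₀ (by norm_num) h _
  have h4 : (2 : ℝ) ^ 40 ≤ Real.exp 1 ^ 40 := pow_le_pow_left₀ (by norm_num) h _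
  rw [h1, h2]
  constructor
  · exact le_trans (by norm_num) h3
  · exact le_trans (by norm_num) h4

lemma lt_of_exp_lt {S n g x y : ℝ} {a m : ℕ} (hn0 : 0 ≤ n) (hg0 : 0 ≤ g) (hn : n ≤ Real.exp x)
    (hg : g ≤ Real.exp y) (h : Real.exp S < n ^ a * g ^ m) : S < a * x + m * y := by
  have h1 : n ^ a ≤ Real.exp x ^ a := pow_le_pow_left₀ hn0 hn _
  have h2 : g ^ m ≤ Real.exp y ^ m := pow_le_pow_left₀ hg0 hg _
  have h3 : n ^ a * g ^ m ≤ Real.exp x ^ a * Real.exp y ^ m :=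
    mul_le_mul h1 h2 (pow_nonneg hg0 _) (by positivity)
  rw [← Real.exp_nat_mul, ← Real.exp_nat_mul, ← Real.exp_add] at h3
  exact Real.exp_lt_exp.1 (lt_of_lt_of_le h h3)

lemma noGadget {k : ℕ} (hk : k = 1000000) {V : Type} [Fintype V] [DecidableEq V] {m : ℕ}
    (hm : 0 < m) (ω : V → Cube m) (hV : (Fintype.card V : ℝ) ≤ Real.exp (0.002502 * m))
    (hω : Good k ω) (X Y : Fin k → V) (Z : Fin k × Fin k → V)
    (D : (Fin k × Fin k) × (Fin k × Fin k) → V)
    (h1 : Function.Injective (Sum.elim (Sum.elim X Y) Z))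
    (h2 : Function.Injective (Sum.elim Z D))
    (a1 : ∀ c, Near (ω (X c.1)) (ω (Z c))) (a2 : ∀ c, Near (ω (Y c.2)) (ω (Z c)))
    (a3 : ∀ d, Near (ω (Z d.1)) (ω (D d))) (a4 : ∀ d, Near (ω (Z d.2)) (ω (D d))) : False := by
  haveI : Nonempty (Fin k) := ⟨⟨0, by omega⟩⟩
  have hkR : (k : ℝ) = 1000000 := by rw [hk]; norm_num
  have hn0 : (0 : ℝ) ≤ Fintype.card V := Nat.cast_nonneg _
  have hmR : (0 : ℝ) < m := by exact_mod_cast hm
  obtain ⟨g0, g1, g2⟩ := hω
  have s0 : ∀ X : Fin k → V, Function.Injective X →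
      ∑ i, mean (fun j => ω (X j)) i ^ 2 < 0.00505 * m := by
    intro X hX
    choose γ hγ using fun i : Fin m => exists_grid (Fintype.card_fin k) (fun j => ω (X j) i)
    have hinj : Function.Injective (Sum.elim (Empty.elim : Empty → V) X) := by
      rintro (a | a) (b | b) h
      · exact a.elim
      · exact a.elim
      · exact b.elim
      · exact congrArg Sum.inr (hX h)
    have b1 := lt_of_le_of_lt (le_pot (e0 k m) ω _ hinj γ) g0
    have b2 := lt_of_exp_lt hn0 (by positivity) hV (y := 20)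
      (by rw [hkR]; exact le_trans (by norm_num) exp_twenty.1) b1
    have b3 := step0 (fun j => ω (X j))
    have b4 : ∑ u : Fin k, ∑ i : Fin m, e0 k m γ (ω ∘ Sum.elim Empty.elim X ∘ Sum.inl) u i
        (ω (Sum.elim Empty.elim X (Sum.inr u)) i) =
        ∑ j, ∑ i, quad (mean (fun j => ω (X j)) i) (ω (X j) i) := by
      refine sum_congr rfl (fun u _ => sum_congr rfl (fun i _ => ?_))
      simp only [e0, hγ, mean, Fintype.card_fin, Sum.elim_inr]
    rw [b4, b3, Fintype.card_fin] at b2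
    push_cast at b2
    rw [hkR] at b2
    linarith
  have hX : Function.Injective X := fun a b h =>
    Sum.inl_injective (Sum.inl_injective (h1 (a₁ := Sum.inl (Sum.inl a))
      (a₂ := Sum.inl (Sum.inl b)) h))
  have hY : Function.Injective Y := fun a b h =>
    Sum.inr_injective (Sum.inl_injective (h1 (a₁ := Sum.inl (Sum.inr a))
      (a₂ := Sum.inl (Sum.inr b)) h))
  have sX := s0 X hX
  have sY := s0 Y hY
  have hc2 : Fintype.card (Fin k × Fin k) = k * k := by simp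
  have s1 : ∑ i, mean (fun c => ω (Z c)) i ^ 2 < 0.000261 * m := by
    choose γ hγ using fun i : Fin m => exists_grid hc2 (fun c => ω (Z c) i)
    have b1 := lt_of_le_of_lt (le_pot (e1 k m) ω _ h1 γ) g1
    have b2 := lt_of_exp_lt hn0 (by positivity) hV (y := 40)
      (by rw [hkR]; exact le_trans (by norm_num) exp_twenty.2) b1
    have b3 := step1 (fun j => ω (X j)) (fun j => ω (Y j)) (fun c => ω (Z c)) a1 a2
    have b4 : ∑ u : Fin k × Fin k, ∑ i : Fin m, e1 k m γ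
        (ω ∘ Sum.elim (Sum.elim X Y) Z ∘ Sum.inl) u i
        (ω (Sum.elim (Sum.elim X Y) Z (Sum.inr u)) i) =
        ∑ c : Fin k × Fin k, ∑ i, quad ((sg (ω (X c.1) i) + sg (ω (Y c.2) i)) / 20 +
          mean (fun c => ω (Z c)) i) (ω (Z c) i) := by
      refine sum_congr rfl (fun u _ => sum_congr rfl (fun i _ => ?_))
      simp only [e1, hγ, mean, hc2, Sum.elim_inr, Sum.elim_inl, Function.comp_apply]
    rw [b4] at b2
    rw [Fintype.card_fin] at b3
    have b5 := lt_of_le_of_lt b3 b2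
    push_cast at b5
    rw [hkR] at b5
    linarith
  have b1 := lt_of_le_of_lt (le_pot (e2 k m) ω _ h2 ()) g2
  have b2 := lt_of_exp_lt (g := 1) (m := 0) hn0 (by positivity) hV (y := 0) (by simp)
    (by simpa using b1)
  have b3 := step2 (fun c => ω (Z c)) (fun d => ω (D d)) a3 a4
  have b5 := lt_of_le_of_lt b3 b2
  rw [hc2] at b5
  push_cast at b5
  rw [hkR] at b5
  linarith

/-! ### counting -/

open Classical in
lemma near_count (s : ℕ) (y : Cube (40 * s)) :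
    ((40 * s).choose (21 * s) : ℝ) ≤ ∑ x : Cube (40 * s), if Near x y then (1 : ℝ) else 0 := by
  rw [sum_boole]
  have hcard : (powersetCard (21 * s) (univ : Finset (Fin (40 * s)))).card =
      (40 * s).choose (21 * s) := by simp
  rw [← hcard]
  refine Nat.cast_le.2 (card_le_card_of_injOn
    (fun S i => if i ∈ S then y i else !y i) ?_ ?_)
  · intro S hS
    rw [mem_coe, mem_powersetCard] at hS
    simp only [coe_filter, mem_univ, true_and, Set.mem_setOf_eq]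
    unfold Near ip
    have h1 : ∀ i, sg (if i ∈ S then y i else !y i) * sg (y i) =
        2 * (if i ∈ S then (1 : ℝ) else 0) - 1 := by
      intro i
      by_cases hi : i ∈ S <;> cases hy : y i <;> norm_num [hi, sg]
    simp only [h1, sum_sub_distrib, ← mul_sum, sum_boole, sum_const, card_univ, Fintype.card_fin]
    rw [filter_mem_eq_inter, univ_inter, hS.2]
    simp only [nsmul_eq_mul]
    push_cast
    linarith
  · intro S _ T _ h
    ext i
    have := congrFun h i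
    by_cases h1 : i ∈ S <;> by_cases h2 : i ∈ T <;> simp_all

open Classical in
/-- the set of index triples that span an edge of the hypergraph -/
noncomputable def tri {N m : ℕ} (ω : Fin 3 × Fin N → Cube m) : Finset (Fin N × Fin N × Fin N) :=
  univ.filter (fun τ => Near (ω (0, τ.1)) (ω (2, τ.2.2)) ∧ Near (ω (1, τ.2.1)) (ω (2, τ.2.2)))

lemma sum_tri (s N : ℕ) :
    (N : ℝ) ^ 3 * (((40 * s).choose (21 * s) : ℝ) / Fintype.card (Cube (40 * s))) ^ 2 *
      (Fintype.card (Cube (40 * s)) : ℝ) ^ Fintype.card (Fin 3 × Fin N) ≤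
    ∑ ω : Fin 3 × Fin N → Cube (40 * s), ((tri ω).card : ℝ) := by
  classical
  have hK : (0 : ℝ) < Fintype.card (Cube (40 * s)) := by exact_mod_cast Fintype.card_pos
  have key : ∀ τ : Fin N × Fin N × Fin N,
      (((40 * s).choose (21 * s) : ℝ) / Fintype.card (Cube (40 * s))) ^ 2 *
        (Fintype.card (Cube (40 * s)) : ℝ) ^ Fintype.card (Fin 3 × Fin N) ≤
      ∑ ω : Fin 3 × Fin N → Cube (40 * s), if Near (ω (0, τ.1)) (ω (2, τ.2.2)) ∧
        Near (ω (1, τ.2.1)) (ω (2, τ.2.2)) then (1 : ℝ) else 0 := by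
    intro τ
    let f : Unit ⊕ Bool → Fin 3 × Fin N :=
      Sum.elim (fun _ => (2, τ.2.2)) (fun b => if b then (1, τ.2.1) else (0, τ.1))
    have hf : Function.Injective f := by
      rintro (a | (_ | _)) (b | (_ | _)) h <;> simp [f] at h ⊢
    have h1 := unif f hf (fun ξ : Unit ⊕ Bool → Cube (40 * s) =>
      ∏ b : Bool, if Near ((ξ ∘ Sum.inr) b) ((ξ ∘ Sum.inl) ()) then (1 : ℝ) else 0)
    have h2 := sum_split (A := Unit) (B := Bool) (K := Cube (40 * s)) (fun ξ ρ =>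
      ∏ b : Bool, if Near (ρ b) (ξ ()) then (1 : ℝ) else 0)
    rw [h2] at h1
    have h3 : ∀ ξ : Unit → Cube (40 * s), ((40 * s).choose (21 * s) : ℝ) ^ 2 ≤
        ∑ ρ : Bool → Cube (40 * s), ∏ b : Bool, if Near (ρ b) (ξ ()) then (1 : ℝ) else 0 := by
      intro ξ
      have h4 := Finset.prod_univ_sum (fun _ : Bool => (univ : Finset (Cube (40 * s))))
        (fun _ x => if Near x (ξ ()) then (1 : ℝ) else 0)
      rw [Fintype.piFinset_univ] at h4
      rw [← h4, prod_const, card_univ, Fintype.card_bool]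
      exact pow_le_pow_left₀ (Nat.cast_nonneg _) (near_count s _) 2
    have h5 := sum_le_sum (s := (univ : Finset (Unit → Cube (40 * s)))) (fun ξ _ => h3 ξ)
    rw [sum_const, card_univ, Fintype.card_fun, Fintype.card_unit, pow_one, nsmul_eq_mul] at h5
    have h6 : ∑ ω : Fin 3 × Fin N → Cube (40 * s), (∏ b : Bool,
        if Near (((ω ∘ f) ∘ Sum.inr) b) (((ω ∘ f) ∘ Sum.inl) ()) then (1 : ℝ) else 0) =
        ∑ ω : Fin 3 × Fin N → Cube (40 * s), if Near (ω (0, τ.1)) (ω (2, τ.2.2)) ∧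
          Near (ω (1, τ.2.1)) (ω (2, τ.2.2)) then (1 : ℝ) else 0 := by
      refine sum_congr rfl (fun ω _ => ?_)
      rw [Fintype.prod_bool]
      by_cases c1 : Near (ω (0, τ.1)) (ω (2, τ.2.2)) <;>
        by_cases c2 : Near (ω (1, τ.2.1)) (ω (2, τ.2.2)) <;> simp [f, c1, c2]
    rw [h6] at h1
    have hc : Fintype.card (Unit ⊕ Bool) = 3 := by simp
    rw [hc] at h1
    have h7 := mul_le_mul_of_nonneg_left h5 (pow_pos hK (Fintype.card (Fin 3 × Fin N))).le
    rw [← h1] at h7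
    refine le_of_mul_le_mul_right (le_trans (le_of_eq ?_) h7) (pow_pos hK 3)
    field_simp
  have h8 := sum_le_sum (s := (univ : Finset (Fin N × Fin N × Fin N))) (fun τ _ => key τ)
  rw [sum_comm, sum_const, card_univ, nsmul_eq_mul] at h8
  refine le_trans (le_of_eq ?_) (le_trans h8 (le_of_eq ?_))
  · simp only [Fintype.card_prod, Fintype.card_fin]; push_cast; ring
  · refine sum_congr rfl (fun ω _ => ?_)
    rw [sum_boole]; rfl

lemma exists_good (k s N : ℕ) (hN : 0 < N) (C : ℝ) (hC : 0 ≤ C)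
    (h : 9 * C + 10 ≤
      N * (((40 * s).choose (21 * s) : ℝ) / Fintype.card (Cube (40 * s))) ^ 2) :
    ∃ ω : Fin 3 × Fin N → Cube (40 * s), Good k ω ∧ C * (3 * N) ^ 2 < (tri ω).card := by
  obtain ⟨n, hn⟩ : ∃ n : ℝ, (Fintype.card (Fin 3 × Fin N) : ℝ) = n := ⟨_, rfl⟩
  have hn3 : n = 3 * N := by rw [← hn]; simp
  have hNR : (1 : ℝ) ≤ N := by exact_mod_cast hN
  have hn0 : 0 < n := by rw [hn3]; positivity
  obtain ⟨Q, hQ⟩ : ∃ Q : ℝ,
      (Fintype.card (Cube (40 * s)) : ℝ) ^ Fintype.card (Fin 3 × Fin N) = Q := ⟨_, rfl⟩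
  have hQ0 : 0 < Q := by
    rw [← hQ]; exact pow_pos (by exact_mod_cast Fintype.card_pos) _
  have p0 := sum_pot_le (V := Fin 3 × Fin N) (e0 k (40 * s)) (fun _ _ _ _ => quad_ok _)
  have p1 := sum_pot_le (V := Fin 3 × Fin N) (e1 k (40 * s)) (fun _ _ _ _ => quad_ok _)
  have p2 := sum_pot_le (V := Fin 3 × Fin N) (e2 k (40 * s)) (fun _ _ _ _ => quart_ok _ _)
  have p3 := sum_tri s N
  rw [hQ] at p0 p1 p2 p3
  rw [hn] at p0 p1 p2
  obtain ⟨q, hq⟩ : ∃ q : ℝ,
      (((40 * s).choose (21 * s) : ℝ) / Fintype.card (Cube (40 * s))) ^ 2 = q := ⟨_, rfl⟩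
  rw [hq] at h p3
  set M0 : ℝ := n ^ (k + 2) * ((k : ℝ) + 1) ^ (40 * s) with hM0
  set M1 : ℝ := n ^ (k + k + k * k + 2) * ((k : ℝ) * k + 1) ^ (40 * s) with hM1
  set M2 : ℝ := n ^ (k * k + k * k * (k * k) + 2) with hM2
  have hM0p : 0 < M0 := by positivity
  have hM1p : 0 < M1 := by positivity
  have hM2p : 0 < M2 := by positivity
  have r0 : ∑ ω : Fin 3 × Fin N → Cube (40 * s), n ^ 3 * (pot (e0 k (40 * s)) ω / M0) ≤ n * Q := by
    rw [← mul_sum, ← sum_div, ← mul_div_assoc, div_le_iff₀ hM0p]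
    refine le_trans (mul_le_mul_of_nonneg_left p0 (by positivity)) (le_of_eq ?_)
    simp only [hM0, Fintype.card_fun, Fintype.card_fin, Fintype.card_empty]
    push_cast; ring
  have r1 : ∑ ω : Fin 3 × Fin N → Cube (40 * s), n ^ 3 * (pot (e1 k (40 * s)) ω / M1) ≤ n * Q := by
    rw [← mul_sum, ← sum_div, ← mul_div_assoc, div_le_iff₀ hM1p]
    refine le_trans (mul_le_mul_of_nonneg_left p1 (by positivity)) (le_of_eq ?_)
    simp only [hM1, Fintype.card_fun, Fintype.card_fin, Fintype.card_sum, Fintype.card_prod]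
    push_cast; ring
  have r2 : ∑ ω : Fin 3 × Fin N → Cube (40 * s), n ^ 3 * (pot (e2 k (40 * s)) ω / M2) ≤ n * Q := by
    rw [← mul_sum, ← sum_div, ← mul_div_assoc, div_le_iff₀ hM2p]
    refine le_trans (mul_le_mul_of_nonneg_left p2 (by positivity)) (le_of_eq ?_)
    simp only [hM2, Fintype.card_fin, Fintype.card_unit, Fintype.card_prod]
    push_cast; ring
  have hsum : ∑ _ω : Fin 3 × Fin N → Cube (40 * s), ((N : ℝ) ^ 3 * q - 3 * n) ≤
      ∑ ω : Fin 3 × Fin N → Cube (40 * s), (((tri ω).card : ℝ) -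
        n ^ 3 * (pot (e0 k (40 * s)) ω / M0) - n ^ 3 * (pot (e1 k (40 * s)) ω / M1) -
        n ^ 3 * (pot (e2 k (40 * s)) ω / M2)) := by
    rw [sum_const, card_univ, Fintype.card_fun, nsmul_eq_mul, Nat.cast_pow, hQ]
    simp only [sum_sub_distrib]
    linarith
  obtain ⟨ω, -, hω⟩ := exists_le_of_sum_le univ_nonempty hsum
  have t0 := div_nonneg (pot_nonneg (e0 k (40 * s)) ω) hM0p.le
  have t1 := div_nonneg (pot_nonneg (e1 k (40 * s)) ω) hM1p.le
  have t2 := div_nonneg (pot_nonneg (e2 k (40 * s)) ω) hM2p.le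
  have hn3p : 0 < n ^ 3 := by positivity
  have u0 := mul_nonneg hn3p.le t0
  have u1 := mul_nonneg hn3p.le t1
  have u2 := mul_nonneg hn3p.le t2
  have hT : ((tri ω).card : ℝ) ≤ n ^ 3 := by
    have : (tri ω).card ≤ N * (N * N) := by simpa using card_le_univ (tri ω)
    have h' : ((tri ω).card : ℝ) ≤ N * (N * N) := by exact_mod_cast this
    rw [hn3]
    have : (0 : ℝ) ≤ (N : ℝ) ^ 3 := by positivity
    nlinarith
  have hbig : C * (3 * N) ^ 2 < (N : ℝ) ^ 3 * q - 3 * n := by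
    have := mul_le_mul_of_nonneg_left h (sq_nonneg (N : ℝ))
    rw [hn3]
    nlinarith
  have hC0 : 0 ≤ C * (3 * N) ^ 2 := by positivity
  refine ⟨ω, ⟨?_, ?_, ?_⟩, by linarith⟩
  · rw [hn, ← hM0, ← div_lt_one hM0p]
    exact lt_of_mul_lt_mul_left (by linarith) hn3p.le
  · rw [hn, ← hM1, ← div_lt_one hM1p]
    exact lt_of_mul_lt_mul_left (by linarith) hn3p.le
  · rw [hn, ← hM2, ← div_lt_one hM2p]
    exact lt_of_mul_lt_mul_left (by linarith) hn3p.le

lemma w_num : ((21 : ℝ) ^ 21 * 19 ^ 19 / 20 ^ 40) ^ 2 ≤ Real.exp 0.10005 := by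
  have h := Real.sum_le_exp_of_nonneg (x := 0.10005) (by norm_num) 6
  refine le_trans ?_ h
  simp only [sum_range_succ, sum_range_zero, Nat.factorial]
  norm_num

lemma exists_params (C : ℝ) (hC : 0 ≤ C) : ∃ s N : ℕ, 0 < s ∧ 0 < N ∧
    ((3 * N : ℕ) : ℝ) ≤ Real.exp (0.002502 * ((40 * s : ℕ) : ℝ)) ∧
    C ≤ N * (((40 * s).choose (21 * s) : ℝ) / Fintype.card (Cube (40 * s))) ^ 2 := by
  obtain ⟨s, hs⟩ := exists_nat_ge (C * 10 ^ 19 + 50)
  have hs50 : (50 : ℝ) ≤ s := by nlinarith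
  have hspos : 0 < s := by
    have : (0 : ℝ) < s := by linarith
    exact_mod_cast this
  obtain ⟨E, hE⟩ : ∃ E : ℝ, Real.exp (0.10008 * s) = E := ⟨_, rfl⟩
  have hE6 : 6 ≤ E := by
    have := Real.add_one_le_exp (0.10008 * s : ℝ)
    linarith
  have hN1 : (⌊E / 3⌋₊ : ℝ) ≤ E / 3 := Nat.floor_le (by linarith)
  have hN2 : E / 3 < (⌊E / 3⌋₊ : ℝ) + 1 := Nat.lt_floor_add_one _
  have hN3 : E / 6 ≤ (⌊E / 3⌋₊ : ℝ) := by linarith
  refine ⟨s, ⌊E / 3⌋₊, hspos, ?_, ?_, ?_⟩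
  · have : (0 : ℝ) < ⌊E / 3⌋₊ := by linarith
    exact_mod_cast this
  · push_cast
    rw [show (0.002502 : ℝ) * (40 * s) = 0.10008 * s by ring, hE]
    linarith
  · have hcard : (Fintype.card (Cube (40 * s)) : ℝ) = 2 ^ (40 * s) := by simp
    rw [hcard]
    obtain ⟨B, hB⟩ : ∃ B : ℝ, ((40 * s).choose (21 * s) : ℝ) = B := ⟨_, rfl⟩
    have hcl := choose_lower s
    rw [hB] at hcl ⊢
    obtain ⟨w, hw⟩ : ∃ w : ℝ, (21 : ℝ) ^ 21 * 19 ^ 19 / 20 ^ 40 = w := ⟨_, rfl⟩
    have hw0 : 0 < w := by rw [← hw]; positivity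
    have hq : 1 ≤ (40 * s + 1) * w ^ s * (B / 2 ^ (40 * s)) := by
      have e1 : w ^ s = 21 ^ (21 * s) * 19 ^ (19 * s) / 20 ^ (40 * s) := by
        rw [← hw, div_pow, mul_pow, ← pow_mul, ← pow_mul, ← pow_mul]
      have e2 : (40 : ℝ) ^ (40 * s) = 20 ^ (40 * s) * 2 ^ (40 * s) := by
        rw [← mul_pow]; norm_num
      rw [e1]
      rw [e2] at hcl
      have : (40 * s + 1) * (21 ^ (21 * s) * 19 ^ (19 * s) / 20 ^ (40 * s)) * (B / 2 ^ (40 * s)) =
          ((40 * s + 1) * (B * 21 ^ (21 * s) * 19 ^ (19 * s))) / (20 ^ (40 * s) * 2 ^ (40 * s) : ℝ) := by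
        field_simp
      rw [this, le_div_iff₀ (by positivity), one_mul]
      exact hcl
    obtain ⟨p, hp⟩ : ∃ p : ℝ, B / 2 ^ (40 * s) = p := ⟨_, rfl⟩
    rw [hp] at hq ⊢
    have hw2 : (w ^ s) ^ 2 ≤ Real.exp (0.10005 * s) := by
      rw [← pow_mul, mul_comm s 2, pow_mul, mul_comm (0.10005 : ℝ), Real.exp_nat_mul]
      refine pow_le_pow_left₀ (by positivity) ?_ s
      rw [← hw]; exact w_num
    have hq2 : 1 ≤ (41 * s) ^ 2 * Real.exp (0.10005 * s) * p ^ 2 := by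
      have u1 : 1 ≤ ((40 * s + 1) * w ^ s * p) ^ 2 := one_le_pow₀ hq
      have u2 : ((40 : ℝ) * s + 1) ^ 2 ≤ (41 * s) ^ 2 :=
        pow_le_pow_left₀ (by positivity) (by linarith) 2
      have u3 : ((40 : ℝ) * s + 1) ^ 2 * (w ^ s) ^ 2 ≤ (41 * s) ^ 2 * Real.exp (0.10005 * s) :=
        mul_le_mul u2 hw2 (by positivity) (by positivity)
      have u4 := mul_le_mul_of_nonneg_right u3 (sq_nonneg p)
      rw [mul_pow, mul_pow] at u1
      linarith
    have hsplit : E = Real.exp (0.00003 * s) * Real.exp (0.10005 * s) := by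
      rw [← hE, ← Real.exp_add]; congr 1; ring
    have hcube := Real.pow_div_factorial_le_exp (x := 0.00003 * s) (by positivity) 3
    have hfac : ((Nat.factorial 3 : ℕ) : ℝ) = 6 := by norm_num [Nat.factorial]
    rw [hfac] at hcube
    have hF : 6 * C * (41 * s) ^ 2 ≤ Real.exp (0.00003 * s) := by
      refine le_trans ?_ hcube
      have : (0 : ℝ) ≤ (s : ℝ) ^ 2 := sq_nonneg _
      have h5 : C * 10 ^ 19 ≤ s := by linarith
      have h6 := mul_le_mul_of_nonneg_right h5 this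
      nlinarith
    have hG : 0 ≤ Real.exp (0.10005 * s) * p ^ 2 := by positivity
    have v1 := mul_le_mul_of_nonneg_right hF hG
    have v2 := mul_le_mul_of_nonneg_left hq2 hC
    have v3 := mul_le_mul_of_nonneg_right hN3 (sq_nonneg p)
    rw [hsplit] at v3
    rw [hsplit]
    nlinarith

end Pool.Agent.H347Z.Exp
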