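import Pool.Agent.H347Z.AcyDet
import Pool.Agent.H347Z.ExpMain

set_option autoImplicit false

namespace Pool.Agent.H347Z.Acy

open Finset
open Pool.Agent.H347Z.Exp (sg sg_mul_self quad quad_ok grid exists_grid sum_split unif)

abbrev Gr (k D m : ℕ) : Type := Fin m → Fin D → Fin (k + 1)

noncomputable def gb {k D m : ℕ} (γ : Gr k D m) (i : Fin m) : Fin D → ℝ := fun x => grid k (γ i x)

noncomputable def eB (k D m : ℕ) : Gr k D m → (Empty → Pt D m) → Fin k → Fin m → Xi D → ℝ :=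
  fun γ _ _ i ξ => ∑ x, quad (gb γ i x) (ξ.2 x)

noncomputable def eS (k D m j : ℕ) : Bool × Gr k D m → ((Fin j → Fin k) → Pt D m) →
    (Fin (j + 1) → Fin k) → Fin m → Xi D → ℝ :=
  fun γ α u i ξ => lw (α (Fin.tail u) i).1 ξ.1 + tP γ.1 (gb γ.2 i) ξ.1 -
    tB γ.1 (gb γ.2 i) (α (Fin.tail u) i).1

noncomputable def eF (k D m L : ℕ) : Unit → ((Fin L → Fin k) ⊕ Fin k → Pt D m) →
    (Fin L → Fin k) × Fin k → Fin m → Xi D → ℝ :=
  fun _ α c i ξ => lw (α (Sum.inl c.1) i).1 ξ.1 +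
    dot (fun x => sg ((α (Sum.inr c.2) i).2 x)) ξ.1 / 20 -
    (0.00094 + 0.024985 * dot (fun x => sg ((α (Sum.inr c.2) i).2 x)) (α (Sum.inl c.1) i).1)

def Good (k L : ℕ) {V : Type} [Fintype V] [DecidableEq V] {D m : ℕ} (ω : V → Pt D m) : Prop :=
  npot (eB k D m) ω < 1 ∧ (∀ j, j < L → npot (eS k D m j) ω < 1) ∧ npot (eF k D m L) ω < 1

lemma alpha_bounds {D : ℕ} (hD : D = 100000) : 0 ≤ alpha D ∧ alpha D ≤ 5.5 := by
  have h1 : alpha D = Real.log (200001 / 4) / 2 := by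
    unfold alpha
    rw [← Real.log_mul (by positivity) (by norm_num), hD]
    norm_num
  rw [h1]
  constructor
  · exact div_nonneg (Real.log_nonneg (by norm_num)) (by norm_num)
  · have h2 : Real.log (200001 / 4) ≤ 11 := by
      rw [Real.log_le_iff_le_exp (by norm_num)]
      have h3 : Real.exp 11 = Real.exp 1 ^ 11 := by rw [← Real.exp_nat_mul]; norm_num
      have h4 : (2.7 : ℝ) ≤ Real.exp 1 := le_trans (by norm_num) Real.exp_one_gt_d9.le
      rw [h3]
      exact le_trans (by norm_num) (pow_le_pow_left₀ (by norm_num) h4 11)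
    linarith

lemma card_gr {k D m : ℕ} (hk : k = 1000000000000) :
    (Fintype.card (Gr k D m) : ℝ) ≤ Real.exp (40 * D * m) := by
  have h1 : (Fintype.card (Gr k D m) : ℝ) = (((k : ℝ) + 1) ^ D) ^ m := by simp
  have h2 : (k : ℝ) + 1 ≤ Real.exp 40 := by
    rw [hk]; exact le_trans (by norm_num) Exp.exp_twenty.2
  rw [h1, ← pow_mul, show (40 : ℝ) * D * m = ((D * m : ℕ) : ℝ) * 40 by push_cast; ring,
    Real.exp_nat_mul]
  exact pow_le_pow_left₀ (by positivity) h2 _

lemma chain_sum {k D m j : ℕ} (fl : Bool) (γ : Gr k D m) (p : (Fin j → Fin k) → Pt D m)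
    (c : (Fin (j + 1) → Fin k) → Pt D m) (h : ∀ u, AC (p (Fin.tail u)) (c u)) :
    (k : ℝ) ^ (j + 1) * (alpha D * m) + (∑ u, ∑ i, tP fl (gb γ i) (c u i).1) -
      k * ∑ a, ∑ i, tB fl (gb γ i) (p a i).1 ≤
    ∑ u, ∑ i, eS k D m j (fl, γ) p u i (c u i) := by
  simp only [eS, sum_sub_distrib, sum_add_distrib]
  rw [tail_sum (fun a => ∑ i, tB fl (gb γ i) (p a i).1)]
  have h1 := sum_le_sum (s := (univ : Finset (Fin (j + 1) → Fin k))) (fun u _ => lw_sum (h u))
  rw [sum_const, card_univ, Fintype.card_fun, Fintype.card_fin, Fintype.card_fin,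
    nsmul_eq_mul] at h1
  push_cast at h1
  linarith

lemma noGadget {k D L : ℕ} (hk : k = 1000000000000) (hD : D = 100000) (hL : L = 26)
    {V : Type} [Fintype V] [DecidableEq V] {m : ℕ} (hm : 0 < m) (ω : V → Pt D m)
    (hV : (Fintype.card V : ℝ) ≤ Real.exp ((alpha D + 0.001251) * m)) (hω : Good k L ω)
    (Bv : Fin k → V) (S : ∀ j : ℕ, j ≤ L → (Fin j → Fin k) → V)
    (F : (Fin L → Fin k) × Fin k → V)
    (i1 : ∀ j (h : j + 1 ≤ L), Function.Injective (Sum.elim (S j (by omega)) (S (j + 1) h)))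
    (i2 : Function.Injective (Sum.elim (Sum.elim (S L le_rfl) Bv) F))
    (a1 : ∀ j (h : j + 1 ≤ L) u, AC (ω (S j (by omega) (Fin.tail u))) (ω (S (j + 1) h u)))
    (a2 : ∀ c, AC (ω (S L le_rfl c.1)) (ω (F c))) (a3 : ∀ c, BC (ω (Bv c.2)) (ω (F c))) :
    False := by
  have hk0 : 0 < k := by omega
  have : Nonempty (Fin k) := ⟨⟨0, hk0⟩⟩
  have : Nonempty V := ⟨Bv ⟨0, hk0⟩⟩
  have hkR : (k : ℝ) = 1000000000000 := by rw [hk]; norm_num
  have hDR : (D : ℝ) = 100000 := by rw [hD]; norm_num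
  have hmR : (1 : ℝ) ≤ m := by exact_mod_cast hm
  obtain ⟨ha0, ha1⟩ := alpha_bounds hD
  obtain ⟨A, hA⟩ : ∃ A : ℝ, alpha D * m = A := ⟨_, rfl⟩
  have hA0 : 0 ≤ A := by rw [← hA]; positivity
  have hA1 : A ≤ 5.5 * m := by rw [← hA]; exact mul_le_mul_of_nonneg_right ha1 (by positivity)
  rw [add_mul, hA] at hV
  obtain ⟨g0, g1, g2⟩ := hω
  choose γ hγ using fun (i : Fin m) (x : Fin D) =>
    exists_grid (Fintype.card_fin k) (fun l => (ω (Bv l) i).2 x)
  have hβ : ∀ i x, ∑ l, sg ((ω (Bv l) i).2 x) = k * gb γ i x := by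
    intro i x
    unfold gb
    rw [hγ, hkR]; field_simp
  have hβ1 : ∀ i x, |gb γ i x| ≤ 1 := fun i x => grid_abs _ _
  obtain ⟨W, hW⟩ : ∃ W : ℝ, ∑ i, ∑ x, gb γ i x ^ 2 = W := ⟨_, rfl⟩
  have hBv : Function.Injective Bv := fun a b h =>
    Sum.inr_injective (Sum.inl_injective (i2 (a₁ := Sum.inl (Sum.inr a))
      (a₂ := Sum.inl (Sum.inr b)) h))
  have sW : W < 11.3 * m := by
    have hinj : Function.Injective (Sum.elim (Empty.elim : Empty → V) Bv) := by
      rintro (a | a) (b | b) h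
      · exact a.elim
      · exact a.elim
      · exact b.elim
      · exact congrArg Sum.inr (hBv h)
    have b1 := budget (eB k D m) ω g0 hV (card_gr hk) _ hinj γ
    have b2 : ∑ u : Fin k, ∑ i : Fin m, eB k D m γ (ω ∘ Sum.elim Empty.elim Bv ∘ Sum.inl) u i
        (ω (Sum.elim Empty.elim Bv (Sum.inr u)) i) = k / 2 * W := by
      rw [sum_comm, ← hW, mul_sum]
      refine sum_congr rfl (fun i _ => ?_)
      simp only [eB, Sum.elim_inr]
      rw [sum_comm, mul_sum]
      refine sum_congr rfl (fun x _ => ?_)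
      simp only [quad, sum_sub_distrib, ← mul_sum, hβ, sum_const, card_univ, Fintype.card_fin,
        nsmul_eq_mul]
      ring
    rw [b2] at b1
    simp only [Fintype.card_empty, Fintype.card_fin] at b1
    rw [hkR, hDR] at b1
    push_cast at b1
    linarith
  have hΓ : (Fintype.card (Bool × Gr k D m) : ℝ) ≤ Real.exp (1 + 40 * D * m) := by
    rw [Fintype.card_prod, Fintype.card_bool, Real.exp_add]
    push_cast
    have h : (2 : ℝ) ≤ Real.exp 1 := by have := Real.add_one_le_exp (1 : ℝ); linarith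
    exact mul_le_mul h (card_gr hk) (by positivity) (by positivity)
  have ind : ∀ j (h : j ≤ L),
      ∑ u, ∑ i, dot (gb γ i) (ω (S j h u) i).1 ≤ (k : ℝ) ^ j * m * (0.0104 + (3 / 4) ^ j) ∧
      ∑ u, ∑ i, gb γ i (ω (S j h u) i).1.1 ^ 2 ≤ (k : ℝ) ^ j * m * (0.0104 + (3 / 4) ^ j) := by
    intro j
    induction j with
    | zero =>
      intro h
      have c1 : ∀ G : (Fin 0 → Fin k) → Fin m → ℝ, (∀ u i, G u i ≤ 1) →
          ∑ u, ∑ i, G u i ≤ (k : ℝ) ^ 0 * m * (0.0104 + (3 / 4) ^ 0) := by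
        intro G hG
        have := sum_le_sum (s := (univ : Finset (Fin 0 → Fin k))) (fun u _ =>
          sum_le_sum (s := (univ : Finset (Fin m))) (fun i _ => hG u i))
        refine le_trans this ?_
        simp only [sum_const, card_univ, Fintype.card_fin, Fintype.card_unique, nsmul_eq_mul]
        norm_num
        linarith
      exact ⟨c1 _ (fun u i => (abs_le.1 (dot_abs _ (hβ1 i) _)).2),
        c1 _ (fun u i => (sq_le_one_iff_abs_le_one _).2 (hβ1 i _))⟩
    | succ j ih =>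
      intro h
      obtain ⟨ih1, ih2⟩ := ih (by omega)
      have b : ∀ fl, (k : ℝ) ^ (j + 1) * A +
          (∑ u, ∑ i, tP fl (gb γ i) (ω (S (j + 1) h u) i).1) -
          k * ∑ a, ∑ i, tB fl (gb γ i) (ω (S j (by omega) a) i).1 <
          ((k : ℝ) ^ j + k ^ (j + 1) + 2) * (A + 0.001251 * m) + (1 + 40 * D * m) := by
        intro fl
        have b1 := budget (eS k D m j) ω (g1 j (by omega)) hV hΓ _ (i1 j h) (fl, γ)
        have b2 := chain_sum fl γ (fun a => ω (S j (by omega) a)) (fun u => ω (S (j + 1) h u))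
          (a1 j h)
        rw [hA] at b2
        simp only [Fintype.card_fun, Fintype.card_fin] at b1
        push_cast at b1
        exact lt_of_le_of_lt b2 b1
      have b1 := b true
      have b2 := b false
      simp only [tP, tB, if_true, Bool.false_eq_true, if_false, sum_add_distrib, ← sum_div,
        ← mul_sum, hW, sum_const, card_univ, Fintype.card_fun, Fintype.card_fin,
        nsmul_eq_mul] at b1 b2
      push_cast at b1 b2
      rw [pow_succ] at b1 b2 ⊢
      rw [pow_succ]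
      obtain ⟨K, hK⟩ : ∃ K : ℝ, (k : ℝ) ^ j = K := ⟨_, rfl⟩
      have hK1 : 1 ≤ K := by rw [← hK]; exact one_le_pow₀ (by rw [hkR]; norm_num)
      obtain ⟨q, hq⟩ : ∃ q : ℝ, (3 / 4 : ℝ) ^ j = q := ⟨_, rfl⟩
      rw [hK] at b1 b2 ih1 ih2 ⊢
      rw [hq] at ih1 ih2 ⊢
      rw [hkR, hDR] at b1 b2
      rw [hkR]
      have f1 : (m : ℝ) ≤ K * m := le_mul_of_one_le_left (by linarith) hK1
      have f2 : K * A ≤ K * (5.5 * m) := mul_le_mul_of_nonneg_left hA1 (by linarith)
      have f3 : K * W ≤ K * (11.3 * m) := mul_le_mul_of_nonneg_left sW.le (by linarith)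
      constructor
      · linarith
      · linarith
  obtain ⟨fin1, -⟩ := ind L le_rfl
  have b1 := budget (eF k D m L) ω g2 hV (y := 0) (by simp) _ i2 ()
  have b2 : (k : ℝ) ^ L * k * (A + m / 400 - 0.00094 * m) -
      0.024985 * (k * ∑ u, ∑ i, dot (gb γ i) (ω (S L le_rfl u) i).1) ≤
      ∑ c : (Fin L → Fin k) × Fin k, ∑ i : Fin m, eF k D m L ()
        (ω ∘ Sum.elim (Sum.elim (S L le_rfl) Bv) F ∘ Sum.inl) c i
        (ω (Sum.elim (Sum.elim (S L le_rfl) Bv) F (Sum.inr c)) i) := by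
    have e1 : ∑ c : (Fin L → Fin k) × Fin k, ∑ i : Fin m,
        dot (fun x => sg ((ω (Bv c.2) i).2 x)) (ω (S L le_rfl c.1) i).1 =
        k * ∑ u, ∑ i, dot (gb γ i) (ω (S L le_rfl u) i).1 := by
      rw [Fintype.sum_prod_type, mul_sum]
      refine sum_congr rfl (fun u _ => ?_)
      rw [sum_comm, mul_sum]
      refine sum_congr rfl (fun i _ => ?_)
      simp only [dot, ← sum_mul, hβ]
      ring
    have e2 := sum_le_sum (s := (univ : Finset ((Fin L → Fin k) × Fin k)))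
      (fun c _ => lw_sum (a2 c))
    have e3 := sum_le_sum (s := (univ : Finset ((Fin L → Fin k) × Fin k)))
      (fun c _ => bc_sum (a3 c))
    rw [sum_const, card_univ, Fintype.card_prod, Fintype.card_fun, Fintype.card_fin,
      Fintype.card_fin, nsmul_eq_mul] at e2 e3
    push_cast at e2 e3
    rw [hA] at e2
    simp only [eF, Function.comp_apply, Sum.elim_inl, Sum.elim_inr, sum_sub_distrib,
      sum_add_distrib, ← sum_div, ← mul_sum, e1, sum_const, card_univ, Fintype.card_prod,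
      Fintype.card_fun, Fintype.card_fin, nsmul_eq_mul]
    push_cast
    linarith
  have b3 := lt_of_le_of_lt b2 b1
  simp only [Fintype.card_sum, Fintype.card_prod, Fintype.card_fun, Fintype.card_fin] at b3
  push_cast at b3
  have hq : (3 / 4 : ℝ) ^ L ≤ 0.0006 := by rw [hL]; norm_num
  obtain ⟨K, hK⟩ : ∃ K : ℝ, (k : ℝ) ^ L = K := ⟨_, rfl⟩
  have hK1 : 1000000000000 ≤ K := by
    rw [← hK, ← hkR]
    exact le_self_pow₀ (by rw [hkR]; norm_num) (by omega)
  rw [hK] at b3 fin1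
  rw [hkR] at b3
  have f1 : 1000000000000 * (m : ℝ) ≤ K * m := mul_le_mul_of_nonneg_right hK1 (by linarith)
  have f2 : K * A ≤ K * (5.5 * m) := mul_le_mul_of_nonneg_left hA1 (by linarith)
  have f3 : K * m * (3 / 4) ^ L ≤ K * m * 0.0006 :=
    mul_le_mul_of_nonneg_left hq (mul_nonneg (by linarith) (by linarith))
  linarith

end Pool.Agent.H347Z.Acy
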