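import Pool.Agent.H347Z.ExpDet

set_option autoImplicit false

namespace Pool.Agent.H347Z.Acy

open Finset
open Pool.Agent.H347Z.Exp (sum_split unif)

/-- the exponential potential of a family of tests, over a general alphabet -/
noncomputable def pot {V A U Γ Ξ : Type} [Fintype V] [Fintype A] [Fintype U] [Fintype Γ]
    [DecidableEq V] [DecidableEq A] [DecidableEq U] {m : ℕ}
    (e : Γ → (A → Fin m → Ξ) → U → Fin m → Ξ → ℝ) (ω : V → Fin m → Ξ) : ℝ := by
  classical
  exact ∑ f : A ⊕ U → V, if Function.Injective f then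
    ∑ γ : Γ, Real.exp (∑ u : U, ∑ i : Fin m, e γ (ω ∘ f ∘ Sum.inl) u i (ω (f (Sum.inr u)) i))
    else 0

section
variable {V A U Γ Ξ : Type} [Fintype V] [Fintype A] [Fintype U] [Fintype Γ] [Fintype Ξ]
    [DecidableEq V] [DecidableEq A] [DecidableEq U] {m : ℕ}

omit [Fintype Ξ] in
lemma pot_nonneg (e : Γ → (A → Fin m → Ξ) → U → Fin m → Ξ → ℝ) (ω : V → Fin m → Ξ) :
    0 ≤ pot e ω := by
  unfold pot
  refine sum_nonneg (fun f _ => ?_)
  split_ifs
  · exact sum_nonneg (fun γ _ => (Real.exp_pos _).le)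
  · exact le_rfl

omit [Fintype Ξ] in
lemma le_pot (e : Γ → (A → Fin m → Ξ) → U → Fin m → Ξ → ℝ) (ω : V → Fin m → Ξ)
    (f : A ⊕ U → V) (hf : Function.Injective f) (γ : Γ) :
    Real.exp (∑ u : U, ∑ i : Fin m, e γ (ω ∘ f ∘ Sum.inl) u i (ω (f (Sum.inr u)) i)) ≤
      pot e ω := by
  classical
  unfold pot
  refine le_trans ?_ (single_le_sum (f := fun f : A ⊕ U → V => if Function.Injective f then
    ∑ γ : Γ, Real.exp (∑ u : U, ∑ i : Fin m, e γ (ω ∘ f ∘ Sum.inl) u i (ω (f (Sum.inr u)) i))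
    else 0) (fun g _ => ?_) (mem_univ f))
  · simp only [hf, if_true]
    exact single_le_sum (f := fun γ : Γ => Real.exp (∑ u : U, ∑ i : Fin m,
      e γ (ω ∘ f ∘ Sum.inl) u i (ω (f (Sum.inr u)) i))) (fun _ _ => (Real.exp_pos _).le)
      (mem_univ γ)
  · split_ifs
    · exact sum_nonneg (fun γ _ => (Real.exp_pos _).le)
    · exact le_rfl

lemma inner_le (g : U → Fin m → Ξ → ℝ)
    (hg : ∀ u i, ∑ ξ, Real.exp (g u i ξ) ≤ Fintype.card Ξ) :
    ∑ ρ : U → Fin m → Ξ, Real.exp (∑ u : U, ∑ i : Fin m, g u i (ρ u i)) ≤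
      (Fintype.card (Fin m → Ξ) : ℝ) ^ Fintype.card U := by
  have h1 : ∀ u, ∑ x : Fin m → Ξ, ∏ i : Fin m, Real.exp (g u i (x i)) ≤
      (Fintype.card (Fin m → Ξ) : ℝ) := by
    intro u
    have := Finset.prod_univ_sum (fun _ : Fin m => (univ : Finset Ξ))
      (fun i b => Real.exp (g u i b))
    rw [Fintype.piFinset_univ] at this
    rw [← this]
    have h2 : ∏ i : Fin m, ∑ b : Ξ, Real.exp (g u i b) ≤ ∏ _i : Fin m, (Fintype.card Ξ : ℝ) :=
      prod_le_prod (fun i _ => sum_nonneg (fun _ _ => (Real.exp_pos _).le)) (fun i _ => hg u i)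
    refine h2.trans (le_of_eq ?_)
    simp
  have h3 := Finset.prod_univ_sum (fun _ : U => (univ : Finset (Fin m → Ξ)))
      (fun u x => ∏ i : Fin m, Real.exp (g u i (x i)))
  rw [Fintype.piFinset_univ] at h3
  simp only [Real.exp_sum]
  rw [← h3]
  refine le_trans (prod_le_prod (fun u _ => sum_nonneg (fun _ _ =>
    prod_nonneg (fun _ _ => (Real.exp_pos _).le))) (fun u _ => h1 u)) (le_of_eq ?_)
  simp

lemma sum_pot_le [Nonempty Ξ] (e : Γ → (A → Fin m → Ξ) → U → Fin m → Ξ → ℝ)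
    (he : ∀ γ α u i, ∑ ξ, Real.exp (e γ α u i ξ) ≤ Fintype.card Ξ) :
    ∑ ω : V → Fin m → Ξ, pot e ω ≤
      (Fintype.card V : ℝ) ^ (Fintype.card A + Fintype.card U) * Fintype.card Γ *
        (Fintype.card (Fin m → Ξ) : ℝ) ^ Fintype.card V := by
  classical
  have hK : (0 : ℝ) < Fintype.card (Fin m → Ξ) := by exact_mod_cast Fintype.card_pos
  have key : ∀ f : A ⊕ U → V, Function.Injective f → ∀ γ : Γ,
      ∑ ω : V → Fin m → Ξ, Real.exp (∑ u : U, ∑ i : Fin m,
        e γ (ω ∘ f ∘ Sum.inl) u i (ω (f (Sum.inr u)) i)) ≤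
        (Fintype.card (Fin m → Ξ) : ℝ) ^ Fintype.card V := by
    intro f hf γ
    have h1 := unif f hf (fun ξ : A ⊕ U → Fin m → Ξ => Real.exp (∑ u : U, ∑ i : Fin m,
        e γ (ξ ∘ Sum.inl) u i ((ξ ∘ Sum.inr) u i)))
    have h2 := sum_split (A := A) (B := U) (K := Fin m → Ξ) (fun α ρ => Real.exp (∑ u : U,
      ∑ i : Fin m, e γ α u i (ρ u i)))
    rw [h2] at h1
    have h3 : ∑ α : A → Fin m → Ξ, ∑ ρ : U → Fin m → Ξ, Real.exp (∑ u : U,
        ∑ i : Fin m, e γ α u i (ρ u i)) ≤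
        (Fintype.card (Fin m → Ξ) : ℝ) ^ Fintype.card (A ⊕ U) := by
      refine le_trans (sum_le_sum (fun α _ => inner_le (e γ α) (he γ α))) (le_of_eq ?_)
      rw [sum_const, card_univ, Fintype.card_fun, nsmul_eq_mul, Fintype.card_sum, pow_add]
      push_cast
      ring
    have h4 := mul_le_mul_of_nonneg_left h3 (pow_pos hK (Fintype.card V)).le
    rw [← h1] at h4
    exact le_of_mul_le_mul_right h4 (pow_pos hK _)
  unfold pot
  rw [sum_comm]
  refine le_trans (sum_le_sum (g := fun _ => (Fintype.card Γ : ℝ) *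
    (Fintype.card (Fin m → Ξ) : ℝ) ^ Fintype.card V) (fun f _ => ?_)) (le_of_eq ?_)
  · by_cases hf : Function.Injective f
    · simp only [hf, if_true]
      rw [sum_comm]
      refine le_trans (sum_le_sum (fun γ _ => key f hf γ)) (le_of_eq ?_)
      rw [sum_const, card_univ, nsmul_eq_mul]
    · simp only [hf, if_false, sum_const_zero]
      positivity
  · rw [sum_const, card_univ, Fintype.card_fun, nsmul_eq_mul, Fintype.card_sum]
    push_cast
    ring

/-- normalised potential: its average is at most `1 / n ^ 2` -/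
noncomputable def npot (e : Γ → (A → Fin m → Ξ) → U → Fin m → Ξ → ℝ) (ω : V → Fin m → Ξ) : ℝ :=
  pot e ω / ((Fintype.card V : ℝ) ^ (Fintype.card A + Fintype.card U + 2) * Fintype.card Γ)

omit [Fintype Ξ] in
lemma npot_nonneg (e : Γ → (A → Fin m → Ξ) → U → Fin m → Ξ → ℝ) (ω : V → Fin m → Ξ) :
    0 ≤ npot e ω := div_nonneg (pot_nonneg e ω) (by positivity)

lemma sum_npot_le [Nonempty Ξ] [Nonempty V] [Nonempty Γ]
    (e : Γ → (A → Fin m → Ξ) → U → Fin m → Ξ → ℝ)
    (he : ∀ γ α u i, ∑ ξ, Real.exp (e γ α u i ξ) ≤ Fintype.card Ξ) :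
    ∑ ω : V → Fin m → Ξ, (Fintype.card V : ℝ) ^ 3 * npot e ω ≤
      Fintype.card V * (Fintype.card (Fin m → Ξ) : ℝ) ^ Fintype.card V := by
  have h := sum_pot_le (V := V) e he
  have hV : (0 : ℝ) < Fintype.card V := by exact_mod_cast Fintype.card_pos
  have hΓ : (0 : ℝ) < Fintype.card Γ := by exact_mod_cast Fintype.card_pos
  unfold npot
  rw [← mul_sum, ← sum_div, ← mul_div_assoc, div_le_iff₀ (by positivity)]
  refine le_trans (mul_le_mul_of_nonneg_left h (by positivity)) (le_of_eq ?_)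
  ring

omit [Fintype Ξ] in
lemma budget [Nonempty V] [Nonempty Γ] (e : Γ → (A → Fin m → Ξ) → U → Fin m → Ξ → ℝ)
    (ω : V → Fin m → Ξ) (h : npot e ω < 1) {x y : ℝ} (hx : (Fintype.card V : ℝ) ≤ Real.exp x)
    (hy : (Fintype.card Γ : ℝ) ≤ Real.exp y) (f : A ⊕ U → V) (hf : Function.Injective f) (γ : Γ) :
    ∑ u : U, ∑ i : Fin m, e γ (ω ∘ f ∘ Sum.inl) u i (ω (f (Sum.inr u)) i) <
      ((Fintype.card A : ℝ) + Fintype.card U + 2) * x + y := by
  have hV : (0 : ℝ) < Fintype.card V := by exact_mod_cast Fintype.card_pos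
  have hΓ : (0 : ℝ) < Fintype.card Γ := by exact_mod_cast Fintype.card_pos
  unfold npot at h
  rw [div_lt_one (by positivity)] at h
  have h1 := lt_of_le_of_lt (le_pot e ω f hf γ) h
  have h2 : (Fintype.card V : ℝ) ^ (Fintype.card A + Fintype.card U + 2) ≤
      Real.exp x ^ (Fintype.card A + Fintype.card U + 2) := pow_le_pow_left₀ hV.le hx _
  have h3 := mul_le_mul h2 hy hΓ.le (by positivity)
  rw [← Real.exp_nat_mul, ← Real.exp_add] at h3
  have h4 := Real.exp_lt_exp.1 (lt_of_lt_of_le h1 h3)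
  push_cast at h4
  exact h4

end

open Classical in
lemma count_ge {Ξ : Type} [Fintype Ξ] {m : ℕ} (p : Fin m → Ξ → Prop) (u v : ℝ)
    (hu : ∀ i, ∑ ξ, (if p i ξ then (1 : ℝ) else 0) = u)
    (hv : ∀ i, ∑ ξ, (if p i ξ then (0 : ℝ) else 1) = v) (j : ℕ) :
    (m.choose j : ℝ) * (u ^ j * v ^ (m - j)) ≤
      ∑ a : Fin m → Ξ, if (j : ℝ) ≤ ∑ i, (if p i (a i) then (1 : ℝ) else 0) then (1 : ℝ) else 0 := by
  have h1 : ∀ S ∈ powersetCard j (univ : Finset (Fin m)),
      ∑ a : Fin m → Ξ, ∏ i, (if (p i (a i) ↔ i ∈ S) then (1 : ℝ) else 0) = u ^ j * v ^ (m - j) := by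
    intro S hS
    rw [mem_powersetCard] at hS
    have h2 := Finset.prod_univ_sum (fun _ : Fin m => (univ : Finset Ξ))
      (fun i ξ => if (p i ξ ↔ i ∈ S) then (1 : ℝ) else 0)
    rw [Fintype.piFinset_univ] at h2
    rw [← h2]
    have h3 : ∀ i, ∑ ξ, (if (p i ξ ↔ i ∈ S) then (1 : ℝ) else 0) = if i ∈ S then u else v := by
      intro i
      by_cases hi : i ∈ S
      · rw [if_pos hi, ← hu i]
        refine sum_congr rfl (fun ξ _ => ?_)
        by_cases hp : p i ξ <;> simp [hi, hp]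
      · rw [if_neg hi, ← hv i]
        refine sum_congr rfl (fun ξ _ => ?_)
        by_cases hp : p i ξ <;> simp [hi, hp]
    simp only [h3]
    rw [prod_ite, prod_const, prod_const, filter_mem_eq_inter, univ_inter, hS.2]
    congr 2
    have := card_filter_add_card_filter_not (s := (univ : Finset (Fin m))) (fun i => i ∈ S)
    rw [filter_mem_eq_inter, univ_inter, hS.2, card_univ, Fintype.card_fin] at this
    omega
  have h4 := sum_congr rfl h1
  rw [sum_const, card_powersetCard, card_univ, Fintype.card_fin, nsmul_eq_mul, sum_comm] at h4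
  rw [← h4]
  refine sum_le_sum (fun a _ => ?_)
  set T := univ.filter (fun i => p i (a i)) with hT
  have h5 : ∀ S : Finset (Fin m),
      ∏ i, (if (p i (a i) ↔ i ∈ S) then (1 : ℝ) else 0) = if S = T then 1 else 0 := by
    intro S
    by_cases hS : S = T
    · rw [if_pos hS]
      refine prod_eq_one (fun i _ => ?_)
      rw [if_pos]
      simp [hS, hT]
    · rw [if_neg hS]
      obtain ⟨i, hi⟩ : ∃ i, ¬ (p i (a i) ↔ i ∈ S) := by
        by_contra hc
        apply hS
        ext i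
        have : p i (a i) ↔ i ∈ S := by
          by_contra h'
          exact hc ⟨i, h'⟩
        simp [hT, this]
      exact prod_eq_zero (mem_univ i) (if_neg hi)
  simp only [h5]
  rw [sum_ite_eq', sum_boole, ← hT]
  by_cases h : T ∈ powersetCard j (univ : Finset (Fin m))
  · rw [if_pos h, if_pos]
    rw [(mem_powersetCard.1 h).2]
  · rw [if_neg h]
    split_ifs <;> norm_num

end Pool.Agent.H347Z.Acy
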