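import Mathlib

set_option autoImplicit false

namespace Pool.Agent.H347Z.Cosets

open Finset

/-- The `t`-coset `T_{a,b}` of the permutations sending `a i` to `b i` for every `i`. -/
def coset {n t : ℕ} (a b : Fin t ↪ Fin n) : Finset (Equiv.Perm (Fin n)) :=
  univ.filter (fun σ => ∀ i, σ (a i) = b i)

/-- The characteristic function of a family of permutations, as a vector of the Euclidean space of
real functions on the symmetric group. -/
noncomputable def ind {n : ℕ} (A : Finset (Equiv.Perm (Fin n))) :
    EuclideanSpace ℝ (Equiv.Perm (Fin n)) :=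
  WithLp.toLp 2 (fun σ => if σ ∈ A then (1 : ℝ) else 0)

/-- The space `U_t`: the linear span of the characteristic functions of the `t`-cosets. -/
noncomputable def U (n t : ℕ) : Submodule ℝ (EuclideanSpace ℝ (Equiv.Perm (Fin n))) :=
  Submodule.span ℝ {f | ∃ a b : Fin t ↪ Fin n, f = ind (coset a b)}

/-- The expectation of a function on the symmetric group under the uniform measure. -/
noncomputable def expect {n : ℕ} (h : Equiv.Perm (Fin n) → ℝ) : ℝ :=
  (∑ σ, h σ) / (n.factorial : ℝ)

/-- `C` is a union of `t`-cosets (the empty union is allowed). -/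
def IsUnionOfCosets {n : ℕ} (t : ℕ) (C : Finset (Equiv.Perm (Fin n))) : Prop :=
  ∃ S : Set ((Fin t ↪ Fin n) × (Fin t ↪ Fin n)), ∀ σ, σ ∈ C ↔ ∃ p ∈ S, σ ∈ coset p.1 p.2

end Pool.Agent.H347Z.Cosets
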