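import Pool.Agent.H347Z.CosetDefs

set_option autoImplicit false

namespace Pool.Agent.H347Z.Cosets

open Finset Equiv

variable {n t : ℕ}

lemma mem_coset {a b : Fin t ↪ Fin n} {σ : Perm (Fin n)} :
    σ ∈ coset a b ↔ ∀ i, σ (a i) = b i := by simp [coset]

lemma mem_coset_iff_trans {a b : Fin t ↪ Fin n} {σ : Perm (Fin n)} :
    σ ∈ coset a b ↔ a.trans σ.toEmbedding = b := by
  rw [mem_coset]
  constructor
  · intro h; ext i; simp [h i]
  · intro h i; rw [← h]; simp

lemma card_coset_eq (a b b' : Fin t ↪ Fin n) : (coset a b).card = (coset a b').card := by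
  obtain ⟨τ, hτ⟩ := Equiv.Perm.exists_extending_pair (f := b) (g := b') b.injective b'.injective
  refine Finset.card_bij' (fun σ _ => τ * σ) (fun σ _ => τ⁻¹ * σ) ?_ ?_ ?_ ?_
  · intro σ hσ
    rw [mem_coset] at hσ ⊢
    intro i
    simp [hσ i, hτ i]
  · intro σ hσ
    rw [mem_coset] at hσ ⊢
    intro i
    simp only [Perm.coe_mul, Function.comp_apply, hσ i]
    rw [← hτ i]; simp
  · intro σ _; simp
  · intro σ _; simp

lemma card_coset (a b : Fin t ↪ Fin n) : n.descFactorial t * (coset a b).card = n.factorial := by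
  classical
  have h1 : (univ : Finset (Perm (Fin n))).card =
      ∑ b' ∈ (univ : Finset (Fin t ↪ Fin n)),
        (univ.filter (fun σ : Perm (Fin n) => a.trans σ.toEmbedding = b')).card :=
    Finset.card_eq_sum_card_fiberwise (fun σ _ => by simp)
  have h2 : ∀ b' : Fin t ↪ Fin n,
      (univ.filter (fun σ : Perm (Fin n) => a.trans σ.toEmbedding = b')).card = (coset a b).card := by
    intro b'
    rw [card_coset_eq a b b']
    congr 1
    ext σ
    simp [mem_coset_iff_trans]
  simp only [h2, Finset.sum_const, card_univ, smul_eq_mul, Fintype.card_perm, Fintype.card_fin,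
    Fintype.card_embedding_eq] at h1
  exact h1.symm

lemma mem_U (a : Fin t ↪ Fin n) (F : (Fin t ↪ Fin n) → ℝ) :
    (WithLp.toLp 2 (fun σ : Perm (Fin n) => F (a.trans σ.toEmbedding)) :
      EuclideanSpace ℝ (Perm (Fin n))) ∈ U n t := by
  classical
  have : (WithLp.toLp 2 (fun σ : Perm (Fin n) => F (a.trans σ.toEmbedding)) :
      EuclideanSpace ℝ (Perm (Fin n))) = ∑ b : Fin t ↪ Fin n, F b • ind (coset a b) := by
    ext σ
    simp only [WithLp.ofLp_sum, WithLp.ofLp_smul, Finset.sum_apply, Pi.smul_apply, ind,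
      smul_eq_mul, mul_ite, mul_one, mul_zero, mem_coset_iff_trans]
    simp
  rw [this]
  exact Submodule.sum_mem _ (fun b _ => Submodule.smul_mem _ _
    (Submodule.subset_span ⟨a, b, rfl⟩))

lemma card_coset' (a b : Fin t ↪ Fin n) : (coset a b).card = (n - t).factorial := by
  have htn : t ≤ n := by simpa using Fintype.card_le_of_embedding a
  have h1 := card_coset a b
  rw [← Nat.factorial_mul_descFactorial htn, mul_comm] at h1
  exact Nat.eq_of_mul_eq_mul_right (Nat.descFactorial_pos.2 htn) h1

/-- the fixed points below `k` -/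
def fixs (k : ℕ) (σ : Perm (Fin n)) : Finset (Fin n) :=
  univ.filter (fun i => i.val < k ∧ σ i = i)

/-- the family of the permutations fixing the points `p j` without fixed point below `k` -/
def fam {s : ℕ} (p : Fin s ↪ Fin n) (k : ℕ) : Finset (Perm (Fin n)) :=
  (coset p p).filter (fun σ => fixs k σ = ∅)

variable {s : ℕ} {p : Fin s ↪ Fin n}

lemma mem_fam {k : ℕ} {σ : Perm (Fin n)} :
    σ ∈ fam p k ↔ σ ∈ coset p p ∧ ∀ i : Fin n, i.val < k → σ i ≠ i := by
  simp [fam, fixs, Finset.filter_eq_empty_iff]

lemma notMem_range {k : ℕ} (hp : ∀ j, k ≤ (p j).val) {i : Fin n} (hi : i.val < k) :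
    i ∉ Set.range p := by
  rintro ⟨j, rfl⟩
  have := hp j
  omega

lemma mem_coset_cons {i : Fin n} (hi : i ∉ Set.range p) {σ : Perm (Fin n)} :
    σ ∈ coset (Fin.Embedding.cons p hi) (Fin.Embedding.cons p hi) ↔ σ ∈ coset p p ∧ σ i = i := by
  simp [mem_coset, Fin.forall_fin_succ, and_comm]

lemma g_mem {k : ℕ} (hp : ∀ j, k ≤ (p j).val) (hk : 1 ≤ k) (hkn : k ≤ n) :
    (WithLp.toLp 2 (fun σ : Perm (Fin n) =>
      if σ ∈ coset p p then 1 - ((fixs k σ).card : ℝ) else 0) :
      EuclideanSpace ℝ (Perm (Fin n))) ∈ U n (s + 1) := by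
  classical
  have h0 : (⟨0, by omega⟩ : Fin n) ∉ Set.range p := notMem_range hp (Nat.lt_of_lt_of_le Nat.zero_lt_one hk)
  have : (WithLp.toLp 2 (fun σ : Perm (Fin n) =>
      if σ ∈ coset p p then 1 - ((fixs k σ).card : ℝ) else 0) :
      EuclideanSpace ℝ (Perm (Fin n))) =
      WithLp.toLp 2 (fun σ : Perm (Fin n) =>
        (fun b : Fin (s + 1) ↪ Fin n => if ∀ j : Fin s, b j.succ = p j then (1 : ℝ) else 0)
          ((Fin.Embedding.cons p h0).trans σ.toEmbedding)) -
      ∑ i ∈ (univ.filter (fun i : Fin n => i.val < k)).attach,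
        ind (coset (Fin.Embedding.cons p (notMem_range hp (mem_filter.1 i.2).2))
          (Fin.Embedding.cons p (notMem_range hp (mem_filter.1 i.2).2))) := by
    ext σ
    simp only [WithLp.ofLp_sub, WithLp.ofLp_sum, Pi.sub_apply, Finset.sum_apply,
      Function.Embedding.trans_apply, Equiv.coe_toEmbedding, ind, mem_coset_cons,
      Fin.Embedding.coe_cons, Fin.cons_succ]
    rw [Finset.sum_attach (univ.filter (fun i : Fin n => i.val < k))
      (fun i => if σ ∈ coset p p ∧ σ i = i then (1 : ℝ) else 0)]
    by_cases h : σ ∈ coset p p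
    · simp only [h, if_true, true_and, mem_coset.1 h, implies_true]
      rw [Finset.sum_boole, fixs, Finset.filter_filter]
    · have h' : ¬ ∀ j, σ (p j) = p j := fun h' => h (mem_coset.2 h')
      simp [h, h']
  rw [this]
  exact Submodule.sub_mem _ (mem_U (Fin.Embedding.cons p h0)
    (fun b : Fin (s + 1) ↪ Fin n => if ∀ j : Fin s, b j.succ = p j then (1 : ℝ) else 0))
    (Submodule.sum_mem _ (fun i _ => Submodule.subset_span ⟨_, _, rfl⟩))

lemma card_lt (k : ℕ) : (univ.filter (fun i : Fin n => i.val < k)).card ≤ k := by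
  calc _ ≤ (range k).card := by
        refine Finset.card_le_card_of_injOn (fun i => i.val) ?_ ?_
        · intro i hi
          simpa using hi
        · intro i _ j _ h
          exact Fin.ext h
    _ = k := card_range k

lemma card_lt' (k : ℕ) (hk : k ≤ n) : k ≤ (univ.filter (fun i : Fin n => i.val < k)).card := by
  calc k = (univ : Finset (Fin k)).card := by simp
    _ ≤ _ := by
        refine Finset.card_le_card_of_injOn (fun i => Fin.castLE hk i) ?_ ?_
        · intro i _
          simp
        · intro i _ j _ h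
          exact Fin.castLE_injective hk h

lemma card_fix1 {i : Fin n} (hi : i ∉ Set.range p) :
    ((coset p p).filter (fun σ : Perm (Fin n) => σ i = i)).card = (n - (s + 1)).factorial := by
  rw [← card_coset' (Fin.Embedding.cons p hi) (Fin.Embedding.cons p hi)]
  congr 1
  ext σ
  simp [mem_coset_cons]

lemma card_fix2 {i j : Fin n} (hi : i ∉ Set.range p) (hj : j ∉ Set.range p) (hij : i ≠ j) :
    ((coset p p).filter (fun σ : Perm (Fin n) => σ i = i ∧ σ j = j)).card =
      (n - (s + 2)).factorial := by
  have h : j ∉ Set.range (Fin.Embedding.cons p hi) := by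
    rintro ⟨x, hx⟩
    refine Fin.cases ?_ (fun y => ?_) x hx
    · intro h
      exact hij (by simpa using h)
    · intro h
      exact hj ⟨y, by simpa using h⟩
  rw [← card_coset' (Fin.Embedding.cons _ h) (Fin.Embedding.cons _ h)]
  congr 1
  ext σ
  simp [mem_coset_cons, and_assoc]

lemma card_fam {k : ℕ} (hp : ∀ j, k ≤ (p j).val) :
    (n - s).factorial ≤ (fam p k).card + k * (n - (s + 1)).factorial := by
  classical
  have h1 : coset p p ⊆ fam p k ∪
      (univ.filter (fun i : Fin n => i.val < k)).biUnion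
        (fun i => (coset p p).filter (fun σ : Perm (Fin n) => σ i = i)) := by
    intro σ hσ
    by_cases h : σ ∈ fam p k
    · exact mem_union_left _ h
    · apply mem_union_right
      rw [mem_fam] at h
      push Not at h
      obtain ⟨i, hi, h⟩ := h hσ
      simp only [mem_biUnion, mem_filter, mem_univ, true_and]
      exact ⟨i, hi, hσ, h⟩
  have h2 := (card_le_card h1).trans ((card_union_le _ _).trans
    (Nat.add_le_add_left card_biUnion_le _))
  rw [card_coset'] at h2
  refine h2.trans (Nat.add_le_add_left ?_ _)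
  calc _ = ∑ i ∈ univ.filter (fun i : Fin n => i.val < k), (n - (s + 1)).factorial :=
        Finset.sum_congr rfl (fun i hi => card_fix1 (notMem_range hp (mem_filter.1 hi).2))
    _ ≤ _ := by
        rw [Finset.sum_const, smul_eq_mul]
        exact Nat.mul_le_mul_right _ (card_lt k)

lemma sum_off {k : ℕ} (hp : ∀ j, k ≤ (p j).val) :
    ∑ σ ∈ coset p p, (fixs k σ).offDiag.card ≤ k * k * (n - (s + 2)).factorial := by
  classical
  have h1 : ∀ σ : Perm (Fin n), (fixs k σ).offDiag.card =
      ∑ q ∈ (univ.filter (fun i : Fin n => i.val < k)).offDiag,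
        if σ q.1 = q.1 ∧ σ q.2 = q.2 then 1 else 0 := by
    intro σ
    rw [Finset.sum_boole]
    simp only [Nat.cast_id]
    congr 1
    ext q
    simp only [mem_offDiag, fixs, mem_filter, mem_univ, true_and]
    tauto
  simp only [h1]
  rw [Finset.sum_comm]
  calc _ = ∑ q ∈ (univ.filter (fun i : Fin n => i.val < k)).offDiag, (n - (s + 2)).factorial := by
        refine Finset.sum_congr rfl (fun q hq => ?_)
        rw [Finset.sum_boole]
        simp only [Nat.cast_id]
        obtain ⟨h2, h3, h4⟩ := mem_offDiag.1 hq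
        exact card_fix2 (notMem_range hp (mem_filter.1 h2).2)
          (notMem_range hp (mem_filter.1 h3).2) h4
    _ ≤ _ := by
        rw [Finset.sum_const, smul_eq_mul]
        refine Nat.mul_le_mul_right _ ?_
        rw [offDiag_card]
        exact (Nat.sub_le _ _).trans (Nat.mul_le_mul (card_lt k) (card_lt k))

lemma l2_bound {k : ℕ} (hp : ∀ j, k ≤ (p j).val) (hk : 1 ≤ k) (hkn : k ≤ n) :
    ∑ σ, (ind (fam p k) σ - (U n (s + 1)).starProjection (ind (fam p k)) σ) ^ 2 ≤
      ((∑ σ ∈ coset p p, (fixs k σ).offDiag.card : ℕ) : ℝ) := by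
  classical
  set g : EuclideanSpace ℝ (Perm (Fin n)) :=
    WithLp.toLp 2 (fun σ : Perm (Fin n) =>
      if σ ∈ coset p p then 1 - ((fixs k σ).card : ℝ) else 0) with hg
  have hgU : g ∈ U n (s + 1) := g_mem hp hk hkn
  have h1 : ‖ind (fam p k) - (U n (s + 1)).starProjection (ind (fam p k))‖ ≤
      ‖ind (fam p k) - g‖ := by
    rw [Submodule.starProjection_minimal]
    exact ciInf_le ⟨0, by rintro _ ⟨x, rfl⟩; exact norm_nonneg _⟩ (⟨g, hgU⟩ : U n (s + 1))
  have h2 := pow_le_pow_left₀ (norm_nonneg _) h1 2
  rw [EuclideanSpace.real_norm_sq_eq, EuclideanSpace.real_norm_sq_eq] at h2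
  refine le_trans (le_of_eq (by simp)) (h2.trans ?_)
  push_cast
  rw [← Finset.sum_subset (subset_univ (coset p p))]
  · refine Finset.sum_le_sum (fun σ hσ => ?_)
    have h3 : (fixs k σ).card ≤ (fixs k σ).card * (fixs k σ).card := Nat.le_mul_self _
    rw [offDiag_card, Nat.cast_sub h3]
    simp only [hg, ind, PiLp.sub_apply, fam, mem_filter, hσ, true_and, if_true]
    split_ifs with h
    · simp [h]
    · have h4 : 1 ≤ (fixs k σ).card := card_pos.2 (nonempty_iff_ne_empty.2 h)
      have h5 : (1 : ℝ) ≤ (fixs k σ).card := by exact_mod_cast h4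
      push_cast
      nlinarith
  · intro σ _ hσ
    simp [hg, ind, fam, hσ]

lemma expansion (k : ℕ) (hk : k ≤ n) (C : Finset (Perm (Fin n))) (hC : IsUnionOfCosets t C) :
    (k - 2 * t) * (C ∩ fam p k).card ≤ 2 * n * (C \ fam p k).card := by
  classical
  obtain ⟨S, hS⟩ := hC
  set P : Finset (Perm (Fin n) × Fin n) := univ.filter (fun x => x.1 ∈ C ∩ fam p k ∧ x.2.val < k ∧
    x.1 * swap x.2 (x.1⁻¹ x.2) ∈ C) with hP
  have h1 : (k - 2 * t) * (C ∩ fam p k).card ≤ P.card := by
    refine Finset.mul_card_image_le_card_of_maps_to (f := Prod.fst) ?_ _ ?_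
    · intro x hx
      exact (mem_filter.1 hx).2.1
    · intro σ hσ
      obtain ⟨⟨a, b⟩, hab, hσab⟩ := (hS σ).1 (mem_inter.1 hσ).1
      simp only at hσab
      have h2 : k - 2 * t ≤ ((univ.filter (fun i : Fin n => i.val < k)) \
          (univ.map a ∪ univ.map b)).card := by
        refine le_trans ?_ (le_card_sdiff _ _)
        have h3 : (univ.map a ∪ univ.map b).card ≤ 2 * t := by
          refine (card_union_le _ _).trans ?_
          simp; omega
        have h4 := card_lt' k hk
        omega
      refine h2.trans ?_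
      refine Finset.card_le_card_of_injOn (fun i => (σ, i)) ?_ ?_
      · intro i hi
        simp only [coe_sdiff, coe_filter, mem_univ, true_and, coe_union, coe_map, coe_univ,
          Set.image_univ, Set.mem_sdiff, Set.mem_ofPred_eq, Set.mem_union, Set.mem_range, not_or,
          not_exists] at hi
        simp only [hP, coe_filter, mem_filter, mem_univ, true_and, Set.mem_ofPred_eq, and_true]
        refine ⟨hσ, hi.1, (hS _).2 ⟨(a, b), hab, ?_⟩⟩
        rw [mem_coset] at hσab ⊢
        intro j
        have h5 : a j ≠ i := hi.2.1 j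
        have h6 : a j ≠ σ⁻¹ i := by
          intro h
          apply hi.2.2 j
          rw [← hσab j, h]; simp
        simp only [Perm.coe_mul, Function.comp_apply]
        rw [swap_apply_of_ne_of_ne h5 h6]
        exact hσab j
      · intro i _ j _ h
        exact (Prod.ext_iff.1 h).2
  have h2 : P.card ≤ 2 * n * (C \ fam p k).card := by
    refine Finset.card_le_mul_card_image_of_maps_to
      (f := fun x : Perm (Fin n) × Fin n => x.1 * swap x.2 (x.1⁻¹ x.2)) ?_ _ ?_
    · intro x hx
      obtain ⟨-, h3, h4, h5⟩ := mem_filter.1 hx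
      refine mem_sdiff.2 ⟨h5, ?_⟩
      rw [mem_fam]
      push Not
      exact fun _ => ⟨x.2, h4, by simp⟩
    · intro τ hτ
      by_cases h3 : ∃ i₀ : Fin n, i₀.val < k ∧ τ i₀ = i₀
      swap
      · rw [Finset.filter_eq_empty_iff.2]
        · simp
        · intro x hx h
          obtain ⟨-, h4, h5, h6⟩ := mem_filter.1 hx
          exact h3 ⟨x.2, h5, by rw [← h]; simp⟩
      obtain ⟨i₀, hi₀, hτi⟩ := h3
      calc _ ≤ ((({i₀} : Finset (Fin n)) ×ˢ (univ : Finset (Fin n))) ∪
            ((univ : Finset (Fin n)) ×ˢ ({i₀} : Finset (Fin n)))).card := by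
            refine Finset.card_le_card_of_injOn (fun x => (x.2, x.1⁻¹ x.2)) ?_ ?_
            · intro x hx
              simp only [hP, coe_filter, mem_filter, mem_univ, true_and, Set.mem_ofPred_eq] at hx
              obtain ⟨⟨h4, h5, h6⟩, h7⟩ := hx
              simp only [coe_union, coe_product, coe_singleton, coe_univ, Set.mem_union,
                Set.mem_prod, Set.mem_singleton_iff, Set.mem_univ, and_true, true_and]
              by_contra hcon
              push Not at hcon
              have h8 := (mem_fam.1 (mem_inter.1 h4).2).2 i₀ hi₀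
              apply h8
              rw [← h7] at hτi
              simp only [Perm.coe_mul, Function.comp_apply] at hτi
              rwa [swap_apply_of_ne_of_ne (Ne.symm hcon.1) (Ne.symm hcon.2)] at hτi
            · intro x hx y hy h
              simp only [hP, coe_filter, mem_filter, mem_univ, true_and, Set.mem_ofPred_eq] at hx hy
              have h4 : x.2 = y.2 := (Prod.ext_iff.1 h).1
              have h5 : x.1⁻¹ x.2 = y.1⁻¹ y.2 := (Prod.ext_iff.1 h).2
              have h6 := hx.2.trans hy.2.symm
              rw [h5, h4] at h6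
              exact Prod.ext (mul_right_cancel h6) h4
        _ ≤ 2 * n := by
            refine (card_union_le _ _).trans ?_
            simp; omega
  exact h1.trans h2

theorem main (t : ℕ) (ht : 1 ≤ t) (C₀ : ℝ) : ∃ N : ℕ, ∀ n : ℕ, N ≤ n →
    t ≤ n ∧ ∃ (ε : ℝ) (A : Finset (Equiv.Perm (Fin n))), 0 < ε ∧
      A.card ≤ (n - (t - 1)).factorial ∧
      expect (fun σ => (ind A σ - (U n t).starProjection (ind A) σ) ^ 2) ≤
        ε * expect (fun σ => ind A σ) ∧
      ∀ C : Finset (Equiv.Perm (Fin n)), IsUnionOfCosets t C →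
        C₀ * (ε + 1 / (n : ℝ)) * (A.card : ℝ) < ((symmDiff A C).card : ℝ) := by
  classical
  obtain ⟨s, rfl⟩ : ∃ s, t = s + 1 := ⟨t - 1, by omega⟩
  obtain ⟨m, hm⟩ := exists_nat_gt (4 * C₀)
  set k := 2 * (s + 1) + (m + 1) with hk
  refine ⟨4 * k * k + 2 * k + 2 * s + 2, fun n hn => ?_⟩
  obtain ⟨r, rfl⟩ : ∃ r, n = s + 2 + r := ⟨n - (s + 2), by omega⟩
  set n := s + 2 + r with hn'
  have hr : 4 * k * k + 2 * k + s ≤ r := by omega
  have hkr : 2 * k ≤ r := by omega
  let p : Fin s ↪ Fin n := ⟨fun j => ⟨k + j.val, by omega⟩, fun i j h => by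
    have := congrArg Fin.val h
    simp only at this
    exact Fin.ext (by omega)⟩
  have hp : ∀ j, k ≤ (p j).val := fun j => by simp [p]
  have hn1 : 1 ≤ n := by omega
  have hnpos : (0 : ℝ) < n := by exact_mod_cast hn1
  have hfac : (0 : ℝ) < n.factorial := by exact_mod_cast n.factorial_pos
  have e0 : n - s = r + 2 := by omega
  have e1 : n - (s + 1) = r + 1 := by omega
  have e2 : n - (s + 2) = r := by omega
  have hA : (r + 2) * (r + 1) * r.factorial ≤ 2 * (fam p k).card := by
    have h1 := card_fam hp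
    rw [e0, e1, Nat.factorial_succ (r + 1), Nat.factorial_succ r] at h1
    have h2 : 2 * k * ((r + 1) * r.factorial) ≤ (r + 2) * ((r + 1) * r.factorial) := by
      gcongr; omega
    nlinarith
  have hApos : 0 < (fam p k).card := by
    have : 0 < (r + 2) * (r + 1) * r.factorial := by positivity
    omega
  refine ⟨by omega, 1 / n, fam p k, by positivity, ?_, ?_, ?_⟩
  · rw [Nat.add_sub_cancel, ← card_coset' p p]
    exact card_filter_le _ _
  · unfold expect
    rw [← mul_div_assoc]
    refine div_le_div_of_nonneg_right ?_ hfac.le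
    refine (l2_bound hp (by omega) (by omega)).trans ?_
    have h1 : ∑ σ, ind (fam p k) σ = ((fam p k).card : ℝ) := by
      simp [ind]
    rw [h1]
    have h2 := sum_off hp
    rw [e2] at h2
    set S := ∑ σ ∈ coset p p, (fixs k σ).offDiag.card
    have h3 : 2 * (n * S) ≤ 2 * (fam p k).card := by
      refine le_trans ?_ hA
      calc 2 * (n * S) ≤ 2 * ((2 * (r + 2)) * (k * k * r.factorial)) := by
            gcongr; omega
        _ = (r + 2) * (4 * k * k) * r.factorial := by ring
        _ ≤ _ := by gcongr; omega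
    have h4 : n * S ≤ (fam p k).card := by omega
    have h6 : (n * S : ℝ) ≤ (fam p k).card := by exact_mod_cast h4
    rw [one_div, inv_mul_eq_div, le_div_iff₀ hnpos]
    linarith
  · intro C hC
    have h1 := expansion (p := p) k (by omega) C hC
    rw [show k - 2 * (s + 1) = m + 1 by omega] at h1
    have h2 : (symmDiff (fam p k) C).card = (fam p k \ C).card + (C \ fam p k).card := by
      rw [symmDiff_def, sup_eq_union, card_union_of_disjoint]
      exact disjoint_sdiff_sdiff
    have h3 : (fam p k).card = (fam p k \ C).card + (C ∩ fam p k).card := by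
      rw [inter_comm, card_sdiff_add_card_inter]
    have h4 : (m + 1) * (fam p k).card ≤ 2 * n * (symmDiff (fam p k) C).card := by
      rw [h2, h3]
      have h5 : m + 1 ≤ 2 * n := by omega
      nlinarith [Nat.mul_le_mul_right (fam p k \ C).card h5]
    have h5 : ((m : ℝ) + 1) * (fam p k).card ≤ 2 * n * (symmDiff (fam p k) C).card := by
      exact_mod_cast h4
    have h6 : (0 : ℝ) < (fam p k).card := by exact_mod_cast hApos
    have h7 : C₀ * (1 / (n : ℝ) + 1 / n) * (fam p k).card = 4 * C₀ * (fam p k).card / (2 * n) := by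
      field_simp; ring
    rw [h7, div_lt_iff₀ (by positivity)]
    nlinarith

end Pool.Agent.H347Z.Cosets
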