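import Mathlib

set_option autoImplicit false

namespace Pool.Agent.H347Z.Delta

/-- `Len A l x`: `x` is a sum of exactly `l` elements of `A`. -/
def Len (A : Set ℕ) : ℕ → ℕ → Prop
  | 0, x => x = 0
  | l + 1, x => ∃ a ∈ A, ∃ y, Len A l y ∧ x = y + a

/-- `d` is a gap between consecutive lengths of `n`. -/
def GapAt (A : Set ℕ) (d n : ℕ) : Prop :=
  0 < d ∧ ∃ k, Len A k n ∧ Len A (k + d) n ∧ ∀ j, k < j → j < k + d → ¬ Len A j n

def gaps (A : Set ℕ) : Set ℕ := {d | ∃ n, GapAt A d n}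

lemma len_zero {A : Set ℕ} {x : ℕ} : Len A 0 x ↔ x = 0 := Iff.rfl

lemma len_succ {A : Set ℕ} {l x : ℕ} :
    Len A (l + 1) x ↔ ∃ a ∈ A, ∃ y, Len A l y ∧ x = y + a := Iff.rfl

lemma len_one {A : Set ℕ} {x : ℕ} (h : x ∈ A) : Len A 1 x :=
  ⟨x, h, 0, rfl, by simp⟩

lemma len_bounds {A : Set ℕ} {r R : ℕ} (hA : ∀ a ∈ A, r ≤ a ∧ a ≤ R) :
    ∀ l x, Len A l x → l * r ≤ x ∧ x ≤ l * R := by
  intro l
  induction l with
  | zero => intro x hx; rw [len_zero] at hx; subst hx; simp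
  | succ l ih =>
    rintro x ⟨a, ha, y, hy, rfl⟩
    have h1 := ih y hy
    have h2 := hA a ha
    constructor <;> nlinarith [h1.1, h1.2, h2.1, h2.2]

lemma len_iff_multiset {A : Set ℕ} (l x : ℕ) :
    Len A l x ↔ ∃ m : Multiset ℕ, (∀ a ∈ m, a ∈ A) ∧ m.sum = x ∧ Multiset.card m = l := by
  induction l generalizing x with
  | zero =>
    rw [len_zero]
    constructor
    · rintro rfl; exact ⟨0, by simp, by simp, by simp⟩
    · rintro ⟨m, -, h2, h3⟩
      rw [Multiset.card_eq_zero] at h3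
      subst h3; simpa using h2.symm
  | succ l ih =>
    rw [len_succ]
    constructor
    · rintro ⟨a, ha, y, hy, rfl⟩
      obtain ⟨m, h1, h2, h3⟩ := (ih y).1 hy
      refine ⟨a ::ₘ m, ?_, ?_, ?_⟩
      · intro b hb
        rcases Multiset.mem_cons.1 hb with rfl | hb
        · exact ha
        · exact h1 b hb
      · simp [h2, add_comm]
      · simp [h3]
    · rintro ⟨m, h1, h2, h3⟩
      have hpos : 0 < Multiset.card m := by omega
      obtain ⟨a, ha⟩ := Multiset.card_pos_iff_exists_mem.1 hpos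
      obtain ⟨m', rfl⟩ := Multiset.exists_cons_of_mem ha
      refine ⟨a, h1 a ha, m'.sum, (ih _).2 ⟨m', fun b hb => h1 b (Multiset.mem_cons_of_mem hb), rfl, ?_⟩, ?_⟩
      · simpa using h3
      · rw [← h2]; simp [add_comm]

/-- choose an end point to split off -/
lemma split_end {r R l N : ℕ} (hrR : r ≤ R) (hl : 1 ≤ l) (h1 : (l + 1) * r ≤ N)
    (h2 : N ≤ (l + 1) * R) :
    ∃ s N', (s = r ∨ s = R) ∧ N = N' + s ∧ l * r ≤ N' ∧ N' ≤ l * R := by
  have e1 : (l + 1) * r = l * r + r := by ring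
  have e2 : (l + 1) * R = l * R + R := by ring
  by_cases h : N ≤ l * R + r
  · exact ⟨r, N - r, Or.inl rfl, by omega, by omega, by omega⟩
  · obtain ⟨l', rfl⟩ : ∃ l', l = l' + 1 := ⟨l - 1, by omega⟩
    have e3 : (l' + 1) * r = l' * r + r := by ring
    have e4 : (l' + 1) * R = l' * R + R := by ring
    have e5 : l' * r ≤ l' * R := Nat.mul_le_mul_left _ hrR
    exact ⟨R, N - R, Or.inr rfl, by omega, by omega, by omega⟩

/-! ### The gadget -/

def gadget (r R d : ℕ) : Set ℕ := {s | r ≤ s ∧ s ≤ R ∧ s ≡ 1 [MOD d]}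

lemma gadget_len_mod {r R d : ℕ} : ∀ l x, Len (gadget r R d) l x → x ≡ l [MOD d] := by
  intro l
  induction l with
  | zero => intro x hx; rw [len_zero] at hx; subst hx; rfl
  | succ l ih =>
    rintro x ⟨a, ha, y, hy, rfl⟩
    exact (ih y hy).add ha.2.2

lemma gadget_len_of {r R d : ℕ} (hrR : r ≤ R) (hr : r ≡ 1 [MOD d]) (hR : R ≡ 1 [MOD d]) :
    ∀ l x, l * r ≤ x → x ≤ l * R → x ≡ l [MOD d] → Len (gadget r R d) l x := by
  intro l
  induction l with
  | zero => intro x _ h2 _; rw [len_zero]; omega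
  | succ l ih =>
    intro x h1 h2 h3
    rcases Nat.eq_zero_or_pos l with rfl | hl
    · exact len_one ⟨by simpa using h1, by simpa using h2, by simpa using h3⟩
    · obtain ⟨s, N', hs, rfl, h4, h5⟩ := split_end hrR hl h1 h2
      have hs1 : s ≡ 1 [MOD d] := by rcases hs with rfl | rfl <;> assumption
      have hsm : s ∈ gadget r R d := by
        refine ⟨?_, ?_, hs1⟩ <;> rcases hs with rfl | rfl <;> omega
      refine ⟨s, hsm, N', ih N' h4 h5 ?_, rfl⟩
      exact Nat.ModEq.add_right_cancel hs1 h3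

lemma gadget_gaps {r R d : ℕ} (hd : 0 < d) (hrR : r < R) (hr : r ≡ 1 [MOD d])
    (hR : R ≡ 1 [MOD d]) : gaps (gadget r R d) = {d} := by
  have hb : ∀ a ∈ gadget r R d, r ≤ a ∧ a ≤ R := fun a ha => ⟨ha.1, ha.2.1⟩
  have hdiv : ∀ n k e, Len (gadget r R d) k n → Len (gadget r R d) (k + e) n → d ∣ e := by
    intro n k e h1 h2
    have h3 : k ≡ k + e [MOD d] := (gadget_len_mod _ _ h1).symm.trans (gadget_len_mod _ _ h2)
    have h4 : k + 0 ≡ k + e [MOD d] := by simpa using h3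
    exact (Nat.modEq_zero_iff_dvd).1 (Nat.ModEq.add_left_cancel' k h4).symm
  ext e
  constructor
  · rintro ⟨n, he, k, h1, h2, h3⟩
    have hde := hdiv n k e h1 h2
    have hle : d ≤ e := Nat.le_of_dvd he hde
    by_contra hne
    have hlt : d < e := lt_of_le_of_ne hle (fun h => hne (by simp [h]))
    refine h3 (k + d) (by omega) (by omega) ?_
    have b1 := len_bounds hb _ _ h1
    have b2 := len_bounds hb _ _ h2
    apply gadget_len_of hrR.le hr hR
    · exact le_trans (Nat.mul_le_mul_right _ (by omega)) b2.1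
    · exact le_trans b1.2 (Nat.mul_le_mul_right _ (by omega))
    · refine (gadget_len_mod _ _ h1).trans ?_
      simp [Nat.ModEq]
  · intro he
    rw [Set.mem_singleton_iff] at he
    subst he
    have hm : (e * r + e) * r ≡ e * r + e [MOD e] := by
      simpa using (Nat.ModEq.refl (e * r + e)).mul hr
    have key1 : Len (gadget r R e) (e * r) ((e * r + e) * r) := by
      apply gadget_len_of hrR.le hr hR
      · exact Nat.mul_le_mul_right _ (by omega)
      · have : (e * r + e) * r = e * r * (r + 1) := by ring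
        rw [this]; exact Nat.mul_le_mul_left _ hrR
      · refine hm.trans ?_
        simp [Nat.ModEq]
    have key2 : Len (gadget r R e) (e * r + e) ((e * r + e) * r) := by
      apply gadget_len_of hrR.le hr hR
      · exact le_rfl
      · exact Nat.mul_le_mul_left _ hrR.le
      · exact hm
    refine ⟨(e * r + e) * r, hd, e * r, key1, key2, ?_⟩
    intro j hj1 hj2 hj
    obtain ⟨t, rfl⟩ : ∃ t, j = e * r + t := ⟨j - e * r, by omega⟩
    have := Nat.le_of_dvd (by omega) (hdiv _ _ _ key1 hj)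
    omega

/-! ### The gluing step -/

def glue (A₀ A₁ : Set ℕ) (r R Q V : ℕ) : Set ℕ :=
  {a | ∃ s z, r ≤ s ∧ s ≤ R ∧ z ≤ s * Q ∧ (z = 0 → s ∈ A₀) ∧ (z = s * Q → s ∈ A₁) ∧
    a = s * V + z}

lemma glue_len_elim {A₀ A₁ : Set ℕ} {r R Q V : ℕ} :
    ∀ l x, Len (glue A₀ A₁ r R Q V) l x → ∃ N Z, x = N * V + Z ∧ Z ≤ N * Q ∧
      l * r ≤ N ∧ N ≤ l * R ∧ (Z = 0 → Len A₀ l N) ∧ (Z = N * Q → Len A₁ l N) := by
  intro l
  induction l with
  | zero =>
    intro x hx; rw [len_zero] at hx; subst hx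
    exact ⟨0, 0, by simp, by simp, by simp, by simp, fun _ => rfl, fun _ => rfl⟩
  | succ l ih =>
    rintro x ⟨a, ⟨s, z, h1, h2, h3, h4, h5, rfl⟩, y, hy, rfl⟩
    obtain ⟨N, Z, rfl, g2, g3, g4, g5, g6⟩ := ih y hy
    have e1 : (N + s) * Q = N * Q + s * Q := by ring
    have e2 : (l + 1) * r = l * r + r := by ring
    have e3 : (l + 1) * R = l * R + R := by ring
    refine ⟨N + s, Z + z, by ring, by omega, by omega, by omega, ?_, ?_⟩
    · intro h
      exact ⟨s, h4 (by omega), N, g5 (by omega), rfl⟩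
    · intro h
      exact ⟨s, h5 (by omega), N, g6 (by omega), rfl⟩

lemma glue_len_left {A₀ A₁ : Set ℕ} {r R Q V : ℕ} (hr : 0 < r) (hQ : 0 < Q)
    (hA : ∀ a ∈ A₀, r ≤ a ∧ a ≤ R) :
    ∀ l N, Len A₀ l N → Len (glue A₀ A₁ r R Q V) l (N * V) := by
  intro l
  induction l with
  | zero => intro N hN; rw [len_zero] at hN ⊢; simp [hN]
  | succ l ih =>
    rintro N ⟨s, hs, y, hy, rfl⟩
    have hb := hA s hs
    have hpos : 0 < s * Q := Nat.mul_pos (by omega) hQ
    refine ⟨s * V + 0, ⟨s, 0, hb.1, hb.2, by omega, fun _ => hs, fun h => by omega, rfl⟩,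
      y * V, ih y hy, by ring⟩

lemma glue_len_right {A₀ A₁ : Set ℕ} {r R Q V : ℕ} (hr : 0 < r) (hQ : 0 < Q)
    (hA : ∀ a ∈ A₁, r ≤ a ∧ a ≤ R) :
    ∀ l N, Len A₁ l N → Len (glue A₀ A₁ r R Q V) l (N * V + N * Q) := by
  intro l
  induction l with
  | zero => intro N hN; rw [len_zero] at hN ⊢; simp [hN]
  | succ l ih =>
    rintro N ⟨s, hs, y, hy, rfl⟩
    have hb := hA s hs
    have hpos : 0 < s * Q := Nat.mul_pos (by omega) hQ
    refine ⟨s * V + s * Q, ⟨s, s * Q, hb.1, hb.2, le_rfl, fun h => by omega, fun _ => hs, rfl⟩,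
      y * V + y * Q, ih y hy, by ring⟩

lemma glue_len_mid {A₀ A₁ : Set ℕ} {r R Q V : ℕ} (hr : 0 < r) (hQ : 2 ≤ Q) (hrR : r ≤ R)
    (hr0 : r ∈ A₀) (hR0 : R ∈ A₀) (hr1 : r ∈ A₁) (hR1 : R ∈ A₁) :
    ∀ l N Z, l * r ≤ N → N ≤ l * R → 0 < Z → Z < N * Q →
      Len (glue A₀ A₁ r R Q V) l (N * V + Z) := by
  intro l
  induction l with
  | zero =>
    intro N Z _ h2 h3 h4
    have : N = 0 := by omega
    subst this; omega
  | succ l ih =>
    intro N Z h1 h2 h3 h4
    rcases Nat.eq_zero_or_pos l with rfl | hl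
    · exact len_one ⟨N, Z, by simpa using h1, by simpa using h2, h4.le, fun h => by omega,
        fun h => by omega, rfl⟩
    · obtain ⟨s, N', hs, rfl, h5, h6⟩ := split_end hrR hl h1 h2
      have hs0 : s ∈ A₀ := by rcases hs with rfl | rfl <;> assumption
      have hs1 : s ∈ A₁ := by rcases hs with rfl | rfl <;> assumption
      have hsr : r ≤ s ∧ s ≤ R := by rcases hs with rfl | rfl <;> omega
      have hN' : 1 ≤ N' := le_trans (Nat.mul_pos hl hr) h5
      have hNQ : 2 ≤ N' * Q := by nlinarith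
      have e1 : (N' + s) * Q = N' * Q + s * Q := by ring
      obtain ⟨Z', z, hz1, hz2, hz3, hz4⟩ :
          ∃ Z' z, Z = Z' + z ∧ 0 < Z' ∧ Z' < N' * Q ∧ z ≤ s * Q := by
        by_cases h : Z < N' * Q
        · exact ⟨Z, 0, rfl, h3, h, by omega⟩
        · exact ⟨N' * Q - 1, Z - (N' * Q - 1), by omega, by omega, by omega, by omega⟩
      refine ⟨s * V + z, ⟨s, z, hsr.1, hsr.2, hz4, fun _ => hs0, fun _ => hs1, rfl⟩,
        N' * V + Z', ih N' Z' h5 h6 hz2 hz3, ?_⟩
      rw [hz1]; ring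

/-- two different admissible sizes give an interior size -/
lemma interior_of_two {Q V x a b : ℕ} (hQ : 2 ≤ Q) (hV : V ≡ 1 [MOD Q]) (hab : a < b)
    (ha : x ≤ a * V + a * Q) (hb : b * V ≤ x) :
    ∃ M, M * V < x ∧ x < M * V + M * Q := by
  have hV0 : 0 < V := by
    rcases Nat.eq_zero_or_pos V with rfl | h
    · have := (Nat.modEq_zero_iff_dvd).1 hV.symm
      have := Nat.le_of_dvd one_pos this
      omega
    · exact h
  have e1 : (a + 1) * V = a * V + V := by ring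
  have e2 : (a + 1) * Q = a * Q + Q := by ring
  have h1 : (a + 1) * V ≤ b * V := Nat.mul_le_mul_right _ hab
  by_cases h : (a + 1) * V < x
  · exact ⟨a + 1, h, by omega⟩
  · by_cases h' : x < a * V + a * Q
    · exact ⟨a, by omega, h'⟩
    · exfalso
      have hVa : V = a * Q := by omega
      rw [hVa] at hV
      have h0 : (0 : ℕ) ≡ 1 [MOD Q] := by
        refine Nat.ModEq.trans ?_ hV
        exact ((Nat.modEq_zero_iff_dvd).2 (Dvd.intro_left a rfl)).symm
      have := (Nat.modEq_zero_iff_dvd).1 h0.symm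
      have := Nat.le_of_dvd one_pos this
      omega

lemma glue_gaps_upper {A₀ A₁ : Set ℕ} {r R Q V : ℕ} (hr : 0 < r) (hQ : 2 ≤ Q) (hrR : r ≤ R)
    (hV : V ≡ 1 [MOD Q]) (hV0 : 0 < V)
    (hA0 : ∀ a ∈ A₀, r ≤ a ∧ a ≤ R) (hA1 : ∀ a ∈ A₁, r ≤ a ∧ a ≤ R)
    (hr0 : r ∈ A₀) (hR0 : R ∈ A₀) (hr1 : r ∈ A₁) (hR1 : R ∈ A₁) {d : ℕ}
    (hd : d ∈ gaps (glue A₀ A₁ r R Q V)) : d = 1 ∨ d ∈ gaps A₀ ∨ d ∈ gaps A₁ := by
  obtain ⟨x, hd0, l, h1, h2, h3⟩ := hd
  by_cases hd1 : d = 1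
  · exact Or.inl hd1
  right
  have hd2 : 2 ≤ d := by omega
  obtain ⟨N, Z, a1, a2, a3, a4, a5, a6⟩ := glue_len_elim _ _ h1
  obtain ⟨N', Z', b1, b2, b3, b4, b5, b6⟩ := glue_len_elim _ _ h2
  have hmid := glue_len_mid (V := V) hr hQ hrR hr0 hR0 hr1 hR1
  have hnot := h3 (l + 1) (by omega) (by omega)
  have hR : 0 < R := by omega
  -- there is no interior size
  have hno : ¬ ∃ M, M * V < x ∧ x < M * V + M * Q := by
    rintro ⟨M, m1, m2⟩
    have hfin : ∀ M', (l + 1) * r ≤ M' → M' ≤ (l + 1) * R → M' * V < x →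
        x < M' * V + M' * Q → False := by
      intro M' c1 c2 c3 c4
      apply hnot
      have := hmid (l + 1) M' (x - M' * V) c1 c2 (by omega) (by omega)
      rwa [show M' * V + (x - M' * V) = x by omega] at this
    have hle : (l + 1) * r ≤ (l + 1) * R := Nat.mul_le_mul_left _ hrR
    by_cases c1 : (l + 1) * r ≤ M
    · by_cases c2 : M ≤ (l + 1) * R
      · exact hfin M c1 c2 m1 m2
      · have hlt : N < (l + 1) * R := by
          have : (l + 1) * R = l * R + R := by ring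
          omega
        refine hfin ((l + 1) * R) hle le_rfl ?_ ?_
        · have : (l + 1) * R * V ≤ M * V := Nat.mul_le_mul_right _ (by omega)
          omega
        · have u1 : N * V < (l + 1) * R * V := Nat.mul_lt_mul_of_pos_right hlt hV0
          have u2 : N * Q ≤ (l + 1) * R * Q := Nat.mul_le_mul_right _ hlt.le
          omega
    · have hlt : (l + 1) * r < N' := by
        have u1 : (l + 2) * r ≤ (l + d) * r := Nat.mul_le_mul_right _ (by omega)
        have u2 : (l + 2) * r = (l + 1) * r + r := by ring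
        omega
      refine hfin ((l + 1) * r) le_rfl hle ?_ ?_
      · have : (l + 1) * r * V < N' * V := Nat.mul_lt_mul_of_pos_right hlt hV0
        omega
      · have u1 : M * V ≤ (l + 1) * r * V := Nat.mul_le_mul_right _ (by omega)
        have u2 : M * Q ≤ (l + 1) * r * Q := Nat.mul_le_mul_right _ (by omega)
        omega
  have hNN : N = N' := by
    rcases lt_trichotomy N N' with h | h | h
    · exact absurd (interior_of_two (x := x) hQ hV h (by omega) (by omega)) hno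
    · exact h
    · exact absurd (interior_of_two (x := x) hQ hV h (by omega) (by omega)) hno
  subst hNN
  have hZZ : Z = Z' := by omega
  subst hZZ
  have hcase : Z = 0 ∨ Z = N * Q := by
    by_contra hc
    exact hno ⟨N, by omega, by omega⟩
  rcases hcase with hz | hz
  · left
    refine ⟨N, hd0, l, a5 hz, b5 hz, ?_⟩
    intro j j1 j2 hj
    apply h3 j j1 j2
    have := glue_len_left (A₁ := A₁) (Q := Q) (V := V) hr (by omega) hA0 j N hj
    rwa [show N * V = x by omega] at this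
  · right
    refine ⟨N, hd0, l, a6 hz, b6 hz, ?_⟩
    intro j j1 j2 hj
    apply h3 j j1 j2
    have := glue_len_right (A₀ := A₀) (Q := Q) (V := V) hr (by omega) hA1 j N hj
    rwa [show N * V + N * Q = x by omega] at this

lemma glue_gap_left {A₀ A₁ : Set ℕ} {r R Q V : ℕ} (hr : 0 < r) (hQ : 0 < Q)
    (hA0 : ∀ a ∈ A₀, r ≤ a ∧ a ≤ R) {d n : ℕ} (hn : n * Q < V) (h : GapAt A₀ d n) :
    d ∈ gaps (glue A₀ A₁ r R Q V) := by
  obtain ⟨hd, k, h1, h2, h3⟩ := h
  refine ⟨n * V, hd, k, glue_len_left hr hQ hA0 _ _ h1, glue_len_left hr hQ hA0 _ _ h2, ?_⟩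
  intro j j1 j2 hj
  obtain ⟨N, Z, a1, a2, a3, a4, a5, a6⟩ := glue_len_elim _ _ hj
  have hV : 0 < V := by omega
  have hle : N ≤ n := by
    have : N * V ≤ n * V := by omega
    exact Nat.le_of_mul_le_mul_right this hV
  have hN : N = n := by
    by_contra hne
    have u1 : (N + 1) * V ≤ n * V := Nat.mul_le_mul_right _ (by omega)
    have u2 : (N + 1) * V = N * V + V := by ring
    have u3 : N * Q ≤ n * Q := Nat.mul_le_mul_right _ hle
    omega
  subst hN
  exact h3 j j1 j2 (a5 (by omega))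

lemma glue_gap_right {A₀ A₁ : Set ℕ} {r R Q V : ℕ} (hr : 0 < r) (hQ : 0 < Q)
    (hA1 : ∀ a ∈ A₁, r ≤ a ∧ a ≤ R) {d n : ℕ} (hn : n * Q < V) (h : GapAt A₁ d n) :
    d ∈ gaps (glue A₀ A₁ r R Q V) := by
  obtain ⟨hd, k, h1, h2, h3⟩ := h
  refine ⟨n * V + n * Q, hd, k, glue_len_right hr hQ hA1 _ _ h1,
    glue_len_right hr hQ hA1 _ _ h2, ?_⟩
  intro j j1 j2 hj
  obtain ⟨N, Z, a1, a2, a3, a4, a5, a6⟩ := glue_len_elim _ _ hj
  have hV : 0 < V := by omega
  have hN : N = n := by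
    rcases lt_trichotomy N n with hlt | heq | hlt
    · have u1 : N * V < n * V := Nat.mul_lt_mul_of_pos_right hlt hV
      have u3 : N * Q ≤ n * Q := Nat.mul_le_mul_right _ hlt.le
      omega
    · exact heq
    · have u1 : (n + 1) * V ≤ N * V := Nat.mul_le_mul_right _ hlt
      have u2 : (n + 1) * V = n * V + V := by ring
      omega
  subst hN
  exact h3 j j1 j2 (a6 (by omega))

/-! ### The induction -/

/-- The invariant carried along the construction. -/
def Good (m : ℕ) (D : Set ℕ) : Prop :=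
  ∃ (A : Set ℕ) (r R : ℕ), 0 < r ∧ r < R ∧ R < 2 * r ∧ r ≡ 1 [MOD m] ∧ R ≡ 1 [MOD m] ∧
    (∀ a ∈ A, r ≤ a ∧ a ≤ R) ∧ r ∈ A ∧ r + 1 ∈ A ∧ R ∈ A ∧ gaps A = D

lemma good_base {m : ℕ} (hm : 0 < m) : Good m {1} := by
  refine ⟨gadget (m + 1) (2 * m + 1) 1, m + 1, 2 * m + 1, by omega, by omega, by omega, ?_, ?_,
    fun a ha => ⟨ha.1, ha.2.1⟩, ⟨le_rfl, by omega, Nat.modEq_one⟩,
    ⟨by omega, by omega, Nat.modEq_one⟩, ⟨by omega, le_rfl, Nat.modEq_one⟩, ?_⟩
  · simp [Nat.ModEq]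
  · simp [Nat.ModEq]
  · exact gadget_gaps one_pos (by omega) Nat.modEq_one Nat.modEq_one

lemma bound_witness {P : ℕ → ℕ → Prop} {D : Set ℕ} (hD : D.Finite) (h : ∀ d ∈ D, ∃ n, P d n) :
    ∃ B, ∀ d ∈ D, ∃ n ≤ B, P d n := by
  choose! f hf using h
  obtain ⟨B, hB⟩ := (hD.image f).bddAbove
  exact ⟨B, fun d hd => ⟨f d, hB ⟨d, hd, rfl⟩, hf d hd⟩⟩

lemma good_step {m : ℕ} (hm : 0 < m) {D : Set ℕ} (hD : D.Finite) (h1 : 1 ∈ D) (h : Good m D)
    {d : ℕ} (hdm : d ∣ m) : Good m (insert d D) := by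
  obtain ⟨A, r, R, hr, hrR, hR2, hrm, hRm, hA, hrA, hr1A, hRA, hg⟩ := h
  have hd : 0 < d := Nat.pos_of_dvd_of_pos hdm hm
  have hrd : r ≡ 1 [MOD d] := hrm.of_dvd hdm
  have hRd : R ≡ 1 [MOD d] := hRm.of_dvd hdm
  have hG := gadget_gaps hd hrR hrd hRd
  have hGb : ∀ a ∈ gadget r R d, r ≤ a ∧ a ≤ R := fun a ha => ⟨ha.1, ha.2.1⟩
  have hrG : r ∈ gadget r R d := ⟨le_rfl, hrR.le, hrd⟩
  have hRG : R ∈ gadget r R d := ⟨hrR.le, le_rfl, hRd⟩
  obtain ⟨B, hB⟩ := bound_witness (P := GapAt A) hD (fun e he => by rw [← hg] at he; exact he)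
  obtain ⟨n₁, hn₁⟩ : d ∈ gaps (gadget r R d) := by rw [hG]; rfl
  set Q := 2 * m with hQdef
  set K := B + n₁ + R with hK
  set V := K * Q + 1 with hVdef
  have hQ : 2 ≤ Q := by omega
  have hVQ : V ≡ 1 [MOD Q] := by simp [hVdef, Nat.ModEq]
  have hmQ : m ∣ Q := Dvd.intro_left 2 rfl
  have hVm : V ≡ 1 [MOD m] := hVQ.of_dvd hmQ
  have hQm : Q ≡ 0 [MOD m] := (Nat.modEq_zero_iff_dvd).2 hmQ
  have hbig : ∀ n, n ≤ K → n * Q < V := fun n hn => by
    have := Nat.mul_le_mul_right Q hn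
    omega
  have hV0 : 0 < V := by omega
  have hrQ : 1 ≤ r * Q := Nat.mul_pos hr (by omega)
  refine ⟨glue A (gadget r R d) r R Q V, r * V, R * V + R * Q, Nat.mul_pos hr hV0, ?_, ?_, ?_, ?_,
    ?_, ?_, ?_, ?_, ?_⟩
  · have : r * V < R * V := Nat.mul_lt_mul_of_pos_right hrR hV0
    omega
  · have u1 : (R + 1) * V ≤ (2 * r) * V := Nat.mul_le_mul_right _ hR2
    have u2 : (R + 1) * V = R * V + V := by ring
    have u3 : 2 * r * V = 2 * (r * V) := by ring
    have u4 := hbig R (by omega)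
    omega
  · simpa using hrm.mul hVm
  · simpa using (hRm.mul hVm).add (hRm.mul hQm)
  · rintro a ⟨s, z, s1, s2, s3, -, -, rfl⟩
    have u1 : r * V ≤ s * V := Nat.mul_le_mul_right _ s1
    have u2 : s * V ≤ R * V := Nat.mul_le_mul_right _ s2
    have u3 : s * Q ≤ R * Q := Nat.mul_le_mul_right _ s2
    omega
  · exact ⟨r, 0, le_rfl, hrR.le, by omega, fun _ => hrA, fun _ => hrG, rfl⟩
  · exact ⟨r, 1, le_rfl, hrR.le, hrQ, fun _ => hrA, fun _ => hrG, rfl⟩
  · exact ⟨R, R * Q, hrR.le, le_rfl, le_rfl, fun _ => hRA, fun _ => hRG, rfl⟩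
  · ext e
    constructor
    · intro he
      rcases glue_gaps_upper hr hQ hrR.le hVQ hV0 hA hGb hrA hRA hrG hRG he with h | h | h
      · subst h; exact Set.mem_insert_of_mem _ h1
      · rw [hg] at h; exact Set.mem_insert_of_mem _ h
      · rw [hG, Set.mem_singleton_iff] at h; subst h; exact Set.mem_insert _ _
    · rintro (rfl | he)
      · exact glue_gap_right hr (by omega) hGb (hbig n₁ (by omega)) hn₁
      · obtain ⟨n, hn, hgap⟩ := hB e he
        exact glue_gap_left hr (by omega) hA (hbig n (by omega)) hgap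

lemma good_all {m : ℕ} (hm : 0 < m) (E : Finset ℕ) (hE : ∀ d ∈ E, d ∣ m) :
    Good m (insert 1 (E : Set ℕ)) := by
  induction E using Finset.induction_on with
  | empty => simpa using good_base hm
  | insert d E hd ih =>
    have h1 := ih (fun e he => hE e (Finset.mem_insert_of_mem he))
    have h2 := good_step hm (E.finite_toSet.insert 1) (Set.mem_insert _ _) h1
      (hE d (Finset.mem_insert_self _ _))
    rw [Finset.coe_insert, Set.insert_comm]
    exact h2

theorem exists_good (D : Finset ℕ) (hD : ∀ d ∈ D, 0 < d) (h1 : 1 ∈ D) :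
    ∃ m, Good m (D : Set ℕ) := by
  refine ⟨∏ d ∈ D, d, ?_⟩
  have := good_all (Finset.prod_pos hD) D (fun d hd => Finset.dvd_prod_of_mem _ hd)
  rwa [Set.insert_eq_of_mem (by simpa using h1)] at this

/-! ### From generating sets to numerical semigroups -/

lemma len_add {A : Set ℕ} {k x : ℕ} (hx : Len A k x) : ∀ l y, Len A l y → Len A (k + l) (x + y) := by
  intro l
  induction l with
  | zero => intro y hy; rw [len_zero] at hy; subst hy; simpa using hx
  | succ l ih =>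
    rintro y ⟨a, ha, z, hz, rfl⟩
    exact ⟨a, ha, x + z, ih z hz, by ring⟩

def gen (A : Set ℕ) : AddSubmonoid ℕ where
  carrier := {x | ∃ l, Len A l x}
  zero_mem' := ⟨0, rfl⟩
  add_mem' := fun ⟨k, hk⟩ ⟨l, hl⟩ => ⟨k + l, len_add hk l _ hl⟩

lemma mem_gen {A : Set ℕ} {x : ℕ} : x ∈ gen A ↔ ∃ l, Len A l x := Iff.rfl

lemma atom_iff {A : Set ℕ} {r R : ℕ} (hr : 0 < r) (hR : R < 2 * r)
    (hA : ∀ a ∈ A, r ≤ a ∧ a ≤ R) (a : ℕ) :
    (a ∈ gen A ∧ a ≠ 0 ∧ ∀ b ∈ gen A, ∀ c ∈ gen A, b + c = a → b = 0 ∨ c = 0) ↔ a ∈ A := by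
  have hge : ∀ b ∈ gen A, b ≠ 0 → r ≤ b := by
    rintro b ⟨l, hl⟩ hb
    rcases l with _ | l
    · exact absurd hl hb
    · have := (len_bounds hA _ _ hl).1
      nlinarith
  constructor
  · rintro ⟨⟨l, hl⟩, h0, hirr⟩
    rcases l with _ | l
    · exact absurd hl h0
    · obtain ⟨b, hb, y, hy, rfl⟩ := hl
      rcases hirr y ⟨l, hy⟩ b ⟨1, len_one hb⟩ rfl with h | h
      · subst h; simpa using hb
      · have := (hA b hb).1
        omega
  · intro ha
    have hb := hA a ha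
    refine ⟨⟨1, len_one ha⟩, by omega, ?_⟩
    intro b hb' c hc hbc
    by_contra hne
    have u1 := hge b hb' (by omega)
    have u2 := hge c hc (by omega)
    omega

lemma gen_cofinite {A : Set ℕ} {r : ℕ} (hr : 0 < r) (h0 : r ∈ A) (h1 : r + 1 ∈ A) :
    ((gen A : Set ℕ)ᶜ).Finite := by
  refine (Set.finite_lt_nat (r * r)).subset ?_
  intro n hn
  by_contra hlt
  have hge : r * r ≤ n := by simpa using hlt
  apply hn
  have hq : r ≤ n / r := (Nat.le_div_iff_mul_le hr).2 hge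
  have ht : n % r < r := Nat.mod_lt _ hr
  have hn' := Nat.div_add_mod n r
  obtain ⟨u, hu⟩ : ∃ u, n / r = u + n % r := ⟨n / r - n % r, by omega⟩
  have e : n = u • r + (n % r) • (r + 1) := by
    simp only [smul_eq_mul]
    rw [hu] at hn'
    nlinarith
  rw [e]
  exact (gen A).add_mem ((gen A).nsmul_mem ⟨1, len_one h0⟩ _) ((gen A).nsmul_mem ⟨1, len_one h1⟩ _)

end Pool.Agent.H347Z.Delta
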