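import Pool.Agent.H347Z.ExpProb

set_option autoImplicit false

namespace Pool.Agent.H347Z.Exp

open Finset

def sg (b : Bool) : ℝ := if b then 1 else -1

lemma sg_mul_self (b : Bool) : sg b * sg b = 1 := by cases b <;> simp [sg]

noncomputable def ip {m : ℕ} (x y : Cube m) : ℝ := ∑ i, sg (x i) * sg (y i)

lemma ip_comm {m : ℕ} (x y : Cube m) : ip x y = ip y x := by
  unfold ip; exact sum_congr rfl (fun i _ => mul_comm _ _)

def Near {m : ℕ} (x y : Cube m) : Prop := (m : ℝ) / 20 ≤ ip x y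

lemma Near.symm {m : ℕ} {x y : Cube m} (h : Near x y) : Near y x := by
  unfold Near at *; rwa [ip_comm]

noncomputable def grid (k : ℕ) (h : Fin (k + 1)) : ℝ := (2 * (h : ℝ) - k) / k

lemma exists_grid {ι : Type} [Fintype ι] {k : ℕ} (hk : Fintype.card ι = k) (y : ι → Bool) :
    ∃ h : Fin (k + 1), grid k h = (∑ j, sg (y j)) / k := by
  classical
  have hle : (univ.filter (fun j => y j = true)).card ≤ k := by
    rw [← hk]; exact card_le_univ _
  refine ⟨⟨_, Nat.lt_succ_of_le hle⟩, ?_⟩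
  unfold grid
  congr 1
  have h1 : ∀ j, sg (y j) = 2 * (if y j = true then (1 : ℝ) else 0) - 1 := by
    intro j; cases y j <;> norm_num [sg]
  simp only [h1, sum_sub_distrib, ← mul_sum, sum_boole, sum_const, card_univ, hk]
  simp

noncomputable def quad (l : ℝ) (b : Bool) : ℝ := l * sg b - l ^ 2 / 2

lemma quad_ok (l : ℝ) : Real.exp (quad l true) + Real.exp (quad l false) ≤ 2 := by
  have h := Real.cosh_le_exp_half_sq l
  rw [Real.cosh_eq] at h
  have e1 : Real.exp (quad l true) = Real.exp l * Real.exp (-(l ^ 2 / 2)) := by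
    rw [← Real.exp_add]; simp [quad, sg]; ring
  have e2 : Real.exp (quad l false) = Real.exp (-l) * Real.exp (-(l ^ 2 / 2)) := by
    rw [← Real.exp_add]; simp [quad, sg]; ring
  have e3 : Real.exp (l ^ 2 / 2) * Real.exp (-(l ^ 2 / 2)) = 1 := by
    rw [← Real.exp_add]; simp
  have hp := Real.exp_pos (-(l ^ 2 / 2))
  rw [e1, e2]
  nlinarith

noncomputable def quart (u : ℝ) (b : Bool) : ℝ := u / 20 * sg b - 0.004992 * (u ^ 2 / 4)

lemma exp_num : Real.exp (0.095008) + Real.exp (-0.104992) ≤ 2 := by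
  have h1 := Real.exp_bound (x := 0.095008) (by rw [abs_le]; constructor <;> norm_num)
    (n := 6) (by norm_num)
  have h2 := Real.exp_bound (x := -0.104992) (by rw [abs_le]; constructor <;> norm_num)
    (n := 6) (by norm_num)
  rw [abs_le] at h1 h2
  have a1 : |(0.095008 : ℝ)| = 0.095008 := abs_of_pos (by norm_num)
  have a2 : |(-0.104992 : ℝ)| = 0.104992 := by rw [abs_neg]; exact abs_of_pos (by norm_num)
  rw [a1] at h1
  rw [a2] at h2
  have h3 := h1.2
  have h4 := h2.2
  simp only [sum_range_succ, sum_range_zero, Nat.factorial] at h3 h4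
  norm_num at h3 h4 ⊢
  linarith

lemma quart_ok (a b : Bool) :
    Real.exp (quart (sg a + sg b) true) + Real.exp (quart (sg a + sg b) false) ≤ 2 := by
  have h := exp_num
  cases a <;> cases b
  · have e1 : quart (sg false + sg false) true = -0.104992 := by simp [quart, sg]; norm_num
    have e2 : quart (sg false + sg false) false = 0.095008 := by simp [quart, sg]; norm_num
    rw [e1, e2]; linarith
  · have e1 : quart (sg false + sg true) true = 0 := by simp [quart, sg]
    have e2 : quart (sg false + sg true) false = 0 := by simp [quart, sg]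
    rw [e1, e2]; norm_num
  · have e1 : quart (sg true + sg false) true = 0 := by simp [quart, sg]
    have e2 : quart (sg true + sg false) false = 0 := by simp [quart, sg]
    rw [e1, e2]; norm_num
  · have e1 : quart (sg true + sg true) true = 0.095008 := by simp [quart, sg]; norm_num
    have e2 : quart (sg true + sg true) false = -0.104992 := by simp [quart, sg]; norm_num
    rw [e1, e2]; linarith

/-- coordinatewise mean of a family of points of the cube -/
noncomputable def mean {ι : Type} [Fintype ι] {m : ℕ} (x : ι → Cube m) (i : Fin m) : ℝ :=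
  (∑ j, sg (x j i)) / Fintype.card ι

lemma sum_eq_mean {ι : Type} [Fintype ι] [Nonempty ι] {m : ℕ} (x : ι → Cube m) (i : Fin m) :
    ∑ j, sg (x j i) = Fintype.card ι * mean x i := by
  have : (Fintype.card ι : ℝ) ≠ 0 := by exact_mod_cast Fintype.card_ne_zero
  unfold mean; field_simp

lemma step0 {ι : Type} [Fintype ι] [Nonempty ι] {m : ℕ} (x : ι → Cube m) :
    ∑ j, ∑ i, quad (mean x i) (x j i) = Fintype.card ι / 2 * ∑ i, mean x i ^ 2 := by
  rw [sum_comm, mul_sum]
  refine sum_congr rfl (fun i _ => ?_)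
  simp only [quad, sum_sub_distrib, ← mul_sum, sum_eq_mean, sum_const, card_univ, nsmul_eq_mul]
  ring

lemma step1 {ι : Type} [Fintype ι] [Nonempty ι] {m : ℕ} (x y : ι → Cube m) (z : ι × ι → Cube m)
    (hx : ∀ c, Near (x c.1) (z c)) (hy : ∀ c, Near (y c.2) (z c)) :
    (Fintype.card ι : ℝ) ^ 2 * (m / 400 + (∑ i, mean z i ^ 2) / 4 -
      ((∑ i, mean x i ^ 2) + ∑ i, mean y i ^ 2) / 160) ≤
    ∑ c : ι × ι, ∑ i, quad ((sg (x c.1 i) + sg (y c.2 i)) / 20 + mean z i) (z c i) := by
  obtain ⟨k, hk⟩ : ∃ k : ℝ, (Fintype.card ι : ℝ) = k := ⟨_, rfl⟩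
  rw [hk]
  have hk2 : (Fintype.card (ι × ι) : ℝ) = k ^ 2 := by rw [Fintype.card_prod, ← hk]; push_cast; ring
  have split : ∑ c : ι × ι, ∑ i, quad ((sg (x c.1 i) + sg (y c.2 i)) / 20 + mean z i) (z c i) =
      ∑ c : ι × ι, (ip (x c.1) (z c) + ip (y c.2) (z c)) / 20 +
      ∑ i, ∑ c : ι × ι, (mean z i * sg (z c i) -
        ((sg (x c.1 i) + sg (y c.2 i)) / 20 + mean z i) ^ 2 / 2) := by
    rw [sum_comm (s := (univ : Finset (Fin m))), ← sum_add_distrib]
    refine sum_congr rfl (fun c _ => ?_)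
    unfold ip
    rw [← sum_add_distrib, sum_div, ← sum_add_distrib]
    refine sum_congr rfl (fun i _ => ?_)
    unfold quad; ring
  have h1 : k ^ 2 * (m / 200) ≤ ∑ c : ι × ι, (ip (x c.1) (z c) + ip (y c.2) (z c)) / 20 := by
    refine le_trans (le_of_eq ?_) (sum_le_sum (f := fun _ => (m : ℝ) / 200) (fun c _ => ?_))
    · rw [sum_const, card_univ, nsmul_eq_mul, hk2]
    · have a := hx c
      have b := hy c
      unfold Near at a b
      linarith
  have h2 : ∀ i, k ^ 2 * (-(1 / 400) + mean z i ^ 2 / 4 - (mean x i ^ 2 + mean y i ^ 2) / 160) ≤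
      ∑ c : ι × ι, (mean z i * sg (z c i) -
        ((sg (x c.1 i) + sg (y c.2 i)) / 20 + mean z i) ^ 2 / 2) := by
    intro i
    have e : ∀ c : ι × ι, (mean z i * sg (z c i) -
        ((sg (x c.1 i) + sg (y c.2 i)) / 20 + mean z i) ^ 2 / 2) =
        mean z i * sg (z c i) - (1 / 400 + mean z i ^ 2 / 2) -
          (1 / 400) * (sg (x c.1 i) * sg (y c.2 i)) - (mean z i / 20) * sg (x c.1 i) -
          (mean z i / 20) * sg (y c.2 i) := by
      intro c
      have a := sg_mul_self (x c.1 i)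
      have b := sg_mul_self (y c.2 i)
      linear_combination (-1 / 800) * a + (-1 / 800) * b
    have s1 : ∑ c : ι × ι, sg (z c i) = k ^ 2 * mean z i := by rw [sum_eq_mean, hk2]
    have s2 : ∑ c : ι × ι, sg (x c.1 i) * sg (y c.2 i) = k ^ 2 * (mean x i * mean y i) := by
      rw [Fintype.sum_prod_type]; dsimp only; rw [← sum_mul_sum, sum_eq_mean, sum_eq_mean, hk]; ring
    have s3 : ∑ c : ι × ι, sg (x c.1 i) = k ^ 2 * mean x i := by
      rw [Fintype.sum_prod_type]
      simp only [sum_const, card_univ, nsmul_eq_mul, ← mul_sum, sum_eq_mean, hk]; ring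
    have s4 : ∑ c : ι × ι, sg (y c.2 i) = k ^ 2 * mean y i := by
      rw [Fintype.sum_prod_type]
      simp only [sum_const, card_univ, nsmul_eq_mul, sum_eq_mean, hk]; ring
    simp only [e, sum_sub_distrib, ← mul_sum, s1, s2, s3, s4, sum_const, card_univ, nsmul_eq_mul,
      hk2]
    have q : 0 ≤ (mean x i - mean y i) ^ 2 / 800 + (mean x i / 5 - mean z i) ^ 2 / 8 +
        (mean y i / 5 - mean z i) ^ 2 / 8 := by positivity
    have q2 := mul_nonneg (sq_nonneg k) q
    nlinarith
  have h3 := sum_le_sum (s := (univ : Finset (Fin m))) (fun i _ => h2 i)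
  rw [← mul_sum] at h3
  simp only [sum_sub_distrib, sum_add_distrib, ← sum_div, sum_const, card_univ, Fintype.card_fin,
    nsmul_eq_mul] at h3
  rw [split]
  simp only [sum_sub_distrib, ← sum_div] at h1 ⊢
  linarith

lemma step2 {κ : Type} [Fintype κ] [Nonempty κ] {m : ℕ} (z : κ → Cube m) (d : κ × κ → Cube m)
    (h1 : ∀ c, Near (z c.1) (d c)) (h2 : ∀ c, Near (z c.2) (d c)) :
    (Fintype.card κ : ℝ) ^ 2 * (m / 200 - 0.002496 * (m + ∑ i, mean z i ^ 2)) ≤
    ∑ c : κ × κ, ∑ i, quart (sg (z c.1 i) + sg (z c.2 i)) (d c i) := by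
  obtain ⟨k, hk⟩ : ∃ k : ℝ, (Fintype.card κ : ℝ) = k := ⟨_, rfl⟩
  rw [hk]
  have hk2 : (Fintype.card (κ × κ) : ℝ) = k ^ 2 := by rw [Fintype.card_prod, ← hk]; push_cast; ring
  have split : ∑ c : κ × κ, ∑ i, quart (sg (z c.1 i) + sg (z c.2 i)) (d c i) =
      ∑ c : κ × κ, (ip (z c.1) (d c) + ip (z c.2) (d c)) / 20 -
      ∑ i, ∑ c : κ × κ, 0.002496 * (1 + sg (z c.1 i) * sg (z c.2 i)) := by
    rw [sum_comm (s := (univ : Finset (Fin m))), ← sum_sub_distrib]
    refine sum_congr rfl (fun c _ => ?_)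
    unfold ip
    rw [← sum_add_distrib, sum_div, ← sum_sub_distrib]
    refine sum_congr rfl (fun i _ => ?_)
    have a := sg_mul_self (z c.1 i)
    have b := sg_mul_self (z c.2 i)
    unfold quart
    linear_combination (-0.001248) * a + (-0.001248) * b
  have a1 : k ^ 2 * (m / 200) ≤ ∑ c : κ × κ, (ip (z c.1) (d c) + ip (z c.2) (d c)) / 20 := by
    refine le_trans (le_of_eq ?_) (sum_le_sum (f := fun _ => (m : ℝ) / 200) (fun c _ => ?_))
    · rw [sum_const, card_univ, nsmul_eq_mul, hk2]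
    · have a := h1 c
      have b := h2 c
      unfold Near at a b
      linarith
  have a2 : ∀ i, ∑ c : κ × κ, 0.002496 * (1 + sg (z c.1 i) * sg (z c.2 i)) =
      k ^ 2 * (0.002496 * (1 + mean z i ^ 2)) := by
    intro i
    have s2 : ∑ c : κ × κ, sg (z c.1 i) * sg (z c.2 i) = k ^ 2 * (mean z i * mean z i) := by
      rw [Fintype.sum_prod_type]; dsimp only; rw [← sum_mul_sum, sum_eq_mean, hk]; ring
    rw [← mul_sum, sum_add_distrib, s2, sum_const, card_univ, nsmul_eq_mul, hk2]; ring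
  rw [split]
  simp only [a2]
  rw [← mul_sum, ← mul_sum, sum_add_distrib, sum_const, card_univ, Fintype.card_fin, nsmul_eq_mul]
  linarith

end Pool.Agent.H347Z.Exp
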