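import Pool.Agent.H347Z.ExpMain

set_option autoImplicit false

namespace Pool.Agent.H347Z.Exp

open Finset

abbrev VG (k : ℕ) : Type :=
  Fin 3 × (Unit ⊕ Fin k ⊕ (Fin k × Fin k) ⊕ ((Fin k × Fin k) × (Fin k × Fin k)))

def vT {k : ℕ} (r : Fin 3) : VG k := (r, Sum.inl ())
def vP {k : ℕ} (r : Fin 3) (i : Fin k) : VG k := (r, Sum.inr (Sum.inl i))
def vQ {k : ℕ} (r : Fin 3) (c : Fin k × Fin k) : VG k := (r, Sum.inr (Sum.inr (Sum.inl c)))
def vD {k : ℕ} (r : Fin 3) (d : (Fin k × Fin k) × (Fin k × Fin k)) : VG k :=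
  (r, Sum.inr (Sum.inr (Sum.inr d)))

def par1 {k : ℕ} : VG k → VG k
  | (r, Sum.inl _) => vT (r + 1)
  | (r, Sum.inr (Sum.inl _)) => vT (r + 1)
  | (r, Sum.inr (Sum.inr (Sum.inl c))) => vP (r + 1) c.1
  | (r, Sum.inr (Sum.inr (Sum.inr d))) => vQ r d.1

def par2 {k : ℕ} : VG k → VG k
  | (r, Sum.inl _) => vT (r + 2)
  | (r, Sum.inr (Sum.inl _)) => vT (r + 2)
  | (r, Sum.inr (Sum.inr (Sum.inl c))) => vP (r + 2) c.2
  | (r, Sum.inr (Sum.inr (Sum.inr d))) => vQ r d.2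

def lvl {k : ℕ} : VG k → ℕ
  | (_, Sum.inl _) => 0
  | (_, Sum.inr (Sum.inl _)) => 1
  | (_, Sum.inr (Sum.inr (Sum.inl _))) => 2
  | (_, Sum.inr (Sum.inr (Sum.inr _))) => 3

def GG (k : ℕ) : SimpleGraph (VG k) := SimpleGraph.fromRel (fun u v => u = par1 v ∨ u = par2 v)

lemma back {k : ℕ} (w : VG k) :
    (lvl w ≤ lvl (par1 w) → w = par2 (par1 w)) ∧ (lvl w ≤ lvl (par2 w) → w = par1 (par2 w)) := by
  have e1 : ∀ r : Fin 3, r + 1 + 2 = r := by decide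
  have e2 : ∀ r : Fin 3, r + 2 + 1 = r := by decide
  obtain ⟨r, (_ | i | c | d)⟩ := w
  · simp [par1, par2, vT, e1, e2]
  · simp [par1, par2, vT, lvl]
  · simp [par1, par2, vP, lvl]
  · simp [par1, par2, vQ, lvl]

lemma degenerate (k : ℕ) (S : Set (VG k)) (hS : S.Nonempty) :
    ∃ v ∈ S, ({w : VG k | w ∈ S ∧ (GG k).Adj v w} : Set (VG k)).ncard ≤ 2 := by
  obtain ⟨v, hv, hmax⟩ := Set.exists_max_image S lvl (Set.toFinite S) hS
  refine ⟨v, hv, ?_⟩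
  have hsub : ({w : VG k | w ∈ S ∧ (GG k).Adj v w} : Set (VG k)) ⊆ {par1 v, par2 v} := by
    rintro w ⟨hw, hadj⟩
    rw [GG, SimpleGraph.fromRel_adj] at hadj
    have hl := hmax w hw
    rcases hadj.2 with (h | h) | (h | h)
    · subst h; exact Or.inr ((back w).1 hl)
    · subst h; exact Or.inl ((back w).2 hl)
    · exact Or.inl h
    · exact Or.inr h
  refine le_trans (Set.ncard_le_ncard hsub (Set.toFinite _)) ?_
  refine le_trans (Set.ncard_insert_le _ _) ?_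
  simp

lemma adj_par1 {k : ℕ} (v : VG k) : (GG k).Adj (par1 v) v := by
  have e1 : ∀ r : Fin 3, r + 1 ≠ r := by decide
  rw [GG, SimpleGraph.fromRel_adj]
  refine ⟨?_, Or.inl (Or.inl rfl)⟩
  obtain ⟨r, (_ | i | c | d)⟩ := v <;> simp [par1, vT, vP, vQ, e1]

lemma adj_par2 {k : ℕ} (v : VG k) : (GG k).Adj (par2 v) v := by
  have e1 : ∀ r : Fin 3, r + 2 ≠ r := by decide
  rw [GG, SimpleGraph.fromRel_adj]
  refine ⟨?_, Or.inl (Or.inr rfl)⟩
  obtain ⟨r, (_ | i | c | d)⟩ := v <;> simp [par2, vT, vP, vQ, e1]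

/-- no injective image of the graph in the tripartite host graph -/
lemma noCopy {k : ℕ} (hk : k = 1000000) {N m : ℕ} (hm : 0 < m) (ω : Fin 3 × Fin N → Cube m)
    (hV : (Fintype.card (Fin 3 × Fin N) : ℝ) ≤ Real.exp (0.002502 * m)) (hω : Good k ω)
    (F : VG k → Fin 3 × Fin N) (hF : Function.Injective F)
    (hE : ∀ u v, (GG k).Adj u v →
      (F u).1 ≠ (F v).1 ∧ ((F u).1 = 2 → Near (ω (F u)) (ω (F v)))) : False := by
  have third : ∀ x y z w : Fin 3, x ≠ y → x ≠ z → y ≠ z → x ≠ w → y ≠ w → z = w := by decide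
  have c1 : ∀ v, (F (par1 v)).1 ≠ (F v).1 := fun v => (hE _ _ (adj_par1 v)).1
  have c2 : ∀ v, (F (par2 v)).1 ≠ (F v).1 := fun v => (hE _ _ (adj_par2 v)).1
  have e1 : ∀ r : Fin 3, r + 1 + 1 = r + 2 := by decide
  have t1 : ∀ r, (F (vT (r + 1))).1 ≠ (F (vT r)).1 := fun r => c1 (vT r)
  have t2 : ∀ r, (F (vT (r + 2))).1 ≠ (F (vT r)).1 := fun r => c2 (vT r)
  have t3 : ∀ r, (F (vT (r + 1))).1 ≠ (F (vT (r + 2))).1 := fun r => by
    have := t1 (r + 1); rw [e1] at this; exact this.symm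
  have hP : ∀ r i, (F (vP r i)).1 = (F (vT r)).1 := fun r i =>
    third _ _ _ _ (t3 r) (c1 (vP r i)) (c2 (vP r i)) (t1 r) (t2 r)
  have hQ : ∀ r c, (F (vQ r c)).1 = (F (vT r)).1 := fun r c => by
    have a := c1 (vQ r c)
    have b := c2 (vQ r c)
    change (F (vP (r + 1) c.1)).1 ≠ _ at a
    change (F (vP (r + 2) c.2)).1 ≠ _ at b
    rw [hP] at a b
    exact third _ _ _ _ (t3 r) a b (t1 r) (t2 r)
  obtain ⟨r, hr⟩ : ∃ r, (F (vT r)).1 = 2 := by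
    have h : ∀ x y z : Fin 3, x ≠ z → y ≠ z → x ≠ y → x = 2 ∨ y = 2 ∨ z = 2 := by decide
    rcases h _ _ _ (t1 0) (t2 0) (t3 0) with h | h | h
    · exact ⟨_, h⟩
    · exact ⟨_, h⟩
    · exact ⟨_, h⟩
  have e2 : ∀ r : Fin 3, r + 1 ≠ r + 2 := by decide
  refine noGadget hk hm ω hV hω (fun i => F (vP (r + 1) i)) (fun i => F (vP (r + 2) i))
    (fun c => F (vQ r c)) (fun d => F (vD r d)) ?_ ?_ ?_ ?_ ?_ ?_
  · rintro ((a | a) | a) ((b | b) | b) h <;> have h' := hF h <;>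
      simp [vP, vQ, e2, (e2 r).symm] at h' ⊢ <;> exact h'
  · rintro (a | a) (b | b) h <;> have h' := hF h <;> simp [vQ, vD] at h' ⊢ <;> exact h'
  · intro c
    exact ((hE _ _ (adj_par1 (vQ r c)).symm).2 ((hQ r c).trans hr)).symm
  · intro c
    exact ((hE _ _ (adj_par2 (vQ r c)).symm).2 ((hQ r c).trans hr)).symm
  · intro d
    exact (hE _ _ (adj_par1 (vD r d))).2 ((hQ r d.1).trans hr)
  · intro d
    exact (hE _ _ (adj_par2 (vD r d))).2 ((hQ r d.2).trans hr)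

/-- the hypergraph -/
noncomputable def hyp {N m : ℕ} (ω : Fin 3 × Fin N → Cube m) : Finset (Finset (Fin (3 * N))) :=
  (tri ω).image (fun τ => {finProdFinEquiv ((0 : Fin 3), τ.1), finProdFinEquiv ((1 : Fin 3), τ.2.1),
    finProdFinEquiv ((2 : Fin 3), τ.2.2)})

lemma hyp_card3 {N m : ℕ} (ω : Fin 3 × Fin N → Cube m) : ∀ e ∈ hyp ω, e.card = 3 := by
  intro e he
  obtain ⟨τ, -, rfl⟩ := mem_image.1 he
  rw [card_eq_three]
  refine ⟨_, _, _, ?_, ?_, ?_, rfl⟩ <;> simp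

lemma hyp_card {N m : ℕ} (ω : Fin 3 × Fin N → Cube m) : (hyp ω).card = (tri ω).card := by
  refine card_image_of_injective _ ?_
  rintro ⟨a, b, c⟩ ⟨a', b', c'⟩ h
  have h0 := (Finset.ext_iff.1 h (finProdFinEquiv ((0 : Fin 3), a))).1 (by simp)
  have h1 := (Finset.ext_iff.1 h (finProdFinEquiv ((1 : Fin 3), b))).1 (by simp)
  have h2 := (Finset.ext_iff.1 h (finProdFinEquiv ((2 : Fin 3), c))).1 (by simp)
  simp at h0 h1 h2
  simp [h0, h1, h2]

lemma hyp_edge {N m : ℕ} (ω : Fin 3 × Fin N → Cube m) (x y z : Fin (3 * N)) (hxy : x ≠ y)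
    (h : ({x, y, z} : Finset (Fin (3 * N))) ∈ hyp ω) :
    (finProdFinEquiv.symm x).1 ≠ (finProdFinEquiv.symm y).1 ∧
      ((finProdFinEquiv.symm x).1 = 2 →
        Near (ω (finProdFinEquiv.symm x)) (ω (finProdFinEquiv.symm y))) := by
  obtain ⟨τ, hτ, he⟩ := mem_image.1 h
  have hτ' : Near (ω (0, τ.1)) (ω (2, τ.2.2)) ∧ Near (ω (1, τ.2.1)) (ω (2, τ.2.2)) := by
    classical
    unfold tri at hτ
    simpa using hτ
  have hx := (Finset.ext_iff.1 he x).2 (by simp)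
  have hy := (Finset.ext_iff.1 he y).2 (by simp)
  simp only [mem_insert, mem_singleton] at hx hy
  rcases hx with rfl | rfl | rfl <;> rcases hy with rfl | rfl | rfl <;>
    simp only [Equiv.symm_apply_apply] <;>
    first
    | exact absurd rfl hxy
    | exact ⟨by decide, fun h => absurd h (by decide)⟩
    | exact ⟨by decide, fun _ => hτ'.1.symm⟩
    | exact ⟨by decide, fun _ => hτ'.2.symm⟩

end Pool.Agent.H347Z.Exp
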