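import Mathlib

set_option autoImplicit false

namespace Pool.Agent.H347Z.Exp

open Finset

abbrev Cube (m : ℕ) : Type := Fin m → Bool

lemma sum_split {A B K : Type} [Fintype A] [Fintype B] [Fintype K] [DecidableEq A] [DecidableEq B]
    (F : (A → K) → (B → K) → ℝ) :
    ∑ η : A ⊕ B → K, F (η ∘ Sum.inl) (η ∘ Sum.inr) = ∑ ξ : A → K, ∑ ρ : B → K, F ξ ρ := by
  rw [← Fintype.sum_prod_type']
  exact Fintype.sum_equiv (Equiv.sumArrowEquivProdArrow A B K) _ _ (fun η => rfl)

lemma unif {W V K : Type} [Fintype W] [Fintype V] [Fintype K] [DecidableEq W] [DecidableEq V]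
    (f : W → V) (hf : Function.Injective f) (Φ : (W → K) → ℝ) :
    (∑ ω : V → K, Φ (ω ∘ f)) * (Fintype.card K : ℝ) ^ Fintype.card W =
      (Fintype.card K : ℝ) ^ Fintype.card V * ∑ ξ : W → K, Φ ξ := by
  classical
  let R := {v : V // v ∉ Set.range f}
  let e : W ⊕ R ≃ V := (Equiv.sumCongr (Equiv.ofInjective f hf) (Equiv.refl R)).trans
    (Equiv.sumCompl (fun v => v ∈ Set.range f))
  have he : ∀ w, e (Sum.inl w) = f w := fun w => rfl
  have hcard : Fintype.card V = Fintype.card W + Fintype.card R := by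
    rw [← Fintype.card_sum]; exact (Fintype.card_congr e).symm
  have h1 : ∑ ω : V → K, Φ (ω ∘ f) = ∑ η : W ⊕ R → K, Φ (η ∘ Sum.inl) := by
    refine Fintype.sum_equiv (Equiv.arrowCongr e.symm (Equiv.refl K)) _ _ (fun ω => ?_)
    congr 1
  have h2 := sum_split (A := W) (B := R) (K := K) (fun ξ _ => Φ ξ)
  rw [h1, h2, hcard]
  simp only [sum_const, card_univ, Fintype.card_fun, nsmul_eq_mul, Nat.cast_pow]
  rw [← mul_sum]
  ring

/-- the exponential potential of a family of tests -/
noncomputable def pot {V A U Γ : Type} [Fintype V] [Fintype A] [Fintype U] [Fintype Γ]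
    [DecidableEq V] [DecidableEq A] [DecidableEq U] {m : ℕ}
    (e : Γ → (A → Cube m) → U → Fin m → Bool → ℝ) (ω : V → Cube m) : ℝ := by
  classical
  exact ∑ f : A ⊕ U → V, if Function.Injective f then
    ∑ γ : Γ, Real.exp (∑ u : U, ∑ i : Fin m, e γ (ω ∘ f ∘ Sum.inl) u i (ω (f (Sum.inr u)) i))
    else 0

section
variable {V A U Γ : Type} [Fintype V] [Fintype A] [Fintype U] [Fintype Γ]
    [DecidableEq V] [DecidableEq A] [DecidableEq U] {m : ℕ}

lemma pot_nonneg (e : Γ → (A → Cube m) → U → Fin m → Bool → ℝ) (ω : V → Cube m) :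
    0 ≤ pot e ω := by
  unfold pot
  refine sum_nonneg (fun f _ => ?_)
  split_ifs
  · exact sum_nonneg (fun γ _ => (Real.exp_pos _).le)
  · exact le_rfl

lemma le_pot (e : Γ → (A → Cube m) → U → Fin m → Bool → ℝ) (ω : V → Cube m)
    (f : A ⊕ U → V) (hf : Function.Injective f) (γ : Γ) :
    Real.exp (∑ u : U, ∑ i : Fin m, e γ (ω ∘ f ∘ Sum.inl) u i (ω (f (Sum.inr u)) i)) ≤
      pot e ω := by
  classical
  unfold pot
  refine le_trans ?_ (single_le_sum (f := fun f : A ⊕ U → V => if Function.Injective f then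
    ∑ γ : Γ, Real.exp (∑ u : U, ∑ i : Fin m, e γ (ω ∘ f ∘ Sum.inl) u i (ω (f (Sum.inr u)) i))
    else 0) (fun g _ => ?_) (mem_univ f))
  · simp only [hf, if_true]
    exact single_le_sum (f := fun γ : Γ => Real.exp (∑ u : U, ∑ i : Fin m,
      e γ (ω ∘ f ∘ Sum.inl) u i (ω (f (Sum.inr u)) i))) (fun _ _ => (Real.exp_pos _).le)
      (mem_univ γ)
  · split_ifs
    · exact sum_nonneg (fun γ _ => (Real.exp_pos _).le)
    · exact le_rfl

lemma inner_le (g : U → Fin m → Bool → ℝ)
    (hg : ∀ u i, Real.exp (g u i true) + Real.exp (g u i false) ≤ 2) :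
    ∑ ρ : U → Cube m, Real.exp (∑ u : U, ∑ i : Fin m, g u i (ρ u i)) ≤
      (Fintype.card (Cube m) : ℝ) ^ Fintype.card U := by
  have h1 : ∀ u, ∑ x : Cube m, ∏ i : Fin m, Real.exp (g u i (x i)) ≤
      (Fintype.card (Cube m) : ℝ) := by
    intro u
    have := Finset.prod_univ_sum (fun _ : Fin m => (univ : Finset Bool))
      (fun i b => Real.exp (g u i b))
    rw [Fintype.piFinset_univ] at this
    rw [← this]
    have h2 : ∏ i : Fin m, ∑ b : Bool, Real.exp (g u i b) ≤ ∏ _i : Fin m, (2 : ℝ) := by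
      refine prod_le_prod (fun i _ => sum_nonneg (fun _ _ => (Real.exp_pos _).le)) (fun i _ => ?_)
      rw [Fintype.sum_bool]; exact hg u i
    refine h2.trans (le_of_eq ?_)
    simp
  have h3 := Finset.prod_univ_sum (fun _ : U => (univ : Finset (Cube m)))
      (fun u x => ∏ i : Fin m, Real.exp (g u i (x i)))
  rw [Fintype.piFinset_univ] at h3
  simp only [Real.exp_sum]
  rw [← h3]
  refine le_trans (prod_le_prod (fun u _ => sum_nonneg (fun _ _ =>
    prod_nonneg (fun _ _ => (Real.exp_pos _).le))) (fun u _ => h1 u)) (le_of_eq ?_)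
  simp

lemma sum_pot_le (e : Γ → (A → Cube m) → U → Fin m → Bool → ℝ)
    (he : ∀ γ α u i, Real.exp (e γ α u i true) + Real.exp (e γ α u i false) ≤ 2) :
    ∑ ω : V → Cube m, pot e ω ≤
      (Fintype.card V : ℝ) ^ (Fintype.card A + Fintype.card U) * Fintype.card Γ *
        (Fintype.card (Cube m) : ℝ) ^ Fintype.card V := by
  classical
  have hK : (0 : ℝ) < Fintype.card (Cube m) := by exact_mod_cast Fintype.card_pos
  have key : ∀ f : A ⊕ U → V, Function.Injective f → ∀ γ : Γ,
      ∑ ω : V → Cube m, Real.exp (∑ u : U, ∑ i : Fin m,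
        e γ (ω ∘ f ∘ Sum.inl) u i (ω (f (Sum.inr u)) i)) ≤
        (Fintype.card (Cube m) : ℝ) ^ Fintype.card V := by
    intro f hf γ
    have h1 := unif f hf (fun ξ : A ⊕ U → Cube m => Real.exp (∑ u : U, ∑ i : Fin m,
        e γ (ξ ∘ Sum.inl) u i ((ξ ∘ Sum.inr) u i)))
    have h2 := sum_split (A := A) (B := U) (K := Cube m) (fun α ρ => Real.exp (∑ u : U,
      ∑ i : Fin m, e γ α u i (ρ u i)))
    rw [h2] at h1
    have h3 : ∑ α : A → Cube m, ∑ ρ : U → Cube m, Real.exp (∑ u : U,
        ∑ i : Fin m, e γ α u i (ρ u i)) ≤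
        (Fintype.card (Cube m) : ℝ) ^ Fintype.card (A ⊕ U) := by
      refine le_trans (sum_le_sum (fun α _ => inner_le (e γ α) (he γ α))) (le_of_eq ?_)
      rw [sum_const, card_univ, Fintype.card_fun, nsmul_eq_mul, Fintype.card_sum, pow_add]
      push_cast
      ring
    have h4 := mul_le_mul_of_nonneg_left h3 (pow_pos hK (Fintype.card V)).le
    rw [← h1] at h4
    exact le_of_mul_le_mul_right h4 (pow_pos hK _)
  unfold pot
  rw [sum_comm]
  refine le_trans (sum_le_sum (g := fun _ => (Fintype.card Γ : ℝ) *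
    (Fintype.card (Cube m) : ℝ) ^ Fintype.card V) (fun f _ => ?_)) (le_of_eq ?_)
  · by_cases hf : Function.Injective f
    · simp only [hf, if_true]
      rw [sum_comm]
      refine le_trans (sum_le_sum (fun γ _ => key f hf γ)) (le_of_eq ?_)
      rw [sum_const, card_univ, nsmul_eq_mul]
    · simp only [hf, if_false, sum_const_zero]
      positivity
  · rw [sum_const, card_univ, Fintype.card_fun, nsmul_eq_mul, Fintype.card_sum]
    push_cast
    ring

end

/-! ### the binomial lower bound -/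

lemma mode_le (s : ℕ) (i : ℕ) (hi : i ≤ 40 * s) :
    ((40 * s).choose i : ℝ) * 21 ^ i * 19 ^ (40 * s - i) ≤
      ((40 * s).choose (21 * s) : ℝ) * 21 ^ (21 * s) * 19 ^ (19 * s) := by
  set b : ℕ → ℝ := fun i => ((40 * s).choose i : ℝ) * 21 ^ i * 19 ^ (40 * s - i) with hb
  have hrec : ∀ i, i < 40 * s → b (i + 1) * (19 * (i + 1)) = b i * (21 * ((40 * s : ℝ) - i)) := by
    intro i hi
    have h1 := Nat.choose_succ_right_eq (40 * s) i
    have h2 : ((40 * s).choose (i + 1) : ℝ) * (i + 1) =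
        ((40 * s).choose i : ℝ) * ((40 * s : ℝ) - i) := by
      have := congrArg (Nat.cast : ℕ → ℝ) h1
      push_cast [Nat.cast_sub hi.le] at this
      exact this
    obtain ⟨d, hd⟩ : ∃ d, 40 * s - i = d + 1 := ⟨40 * s - i - 1, by omega⟩
    have hd' : 40 * s - (i + 1) = d := by omega
    simp only [hb, hd, hd']
    have : ((40 * s).choose (i + 1) : ℝ) * 21 ^ (i + 1) * 19 ^ d * (19 * (i + 1)) =
        (((40 * s).choose (i + 1) : ℝ) * (i + 1)) * (21 ^ (i + 1) * 19 ^ (d + 1)) := by ring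
    rw [this, h2]; ring
  have hpos : ∀ i, 0 ≤ b i := fun i => by simp only [hb]; positivity
  have hup : ∀ i, i < 21 * s → b i ≤ b (i + 1) := by
    intro i hi
    have h1 := hrec i (by omega)
    have h2 : (i : ℝ) + 1 ≤ 21 * s := by exact_mod_cast hi
    have h3 : (0 : ℝ) < 19 * (i + 1) := by positivity
    have h4 : 19 * ((i : ℝ) + 1) ≤ 21 * ((40 * s : ℝ) - i) := by linarith
    have := mul_le_mul_of_nonneg_left h4 (hpos i)
    rw [← h1] at this
    exact le_of_mul_le_mul_right this h3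
  have hdown : ∀ i, 21 * s ≤ i → i < 40 * s → b (i + 1) ≤ b i := by
    intro i hi hi'
    have h1 := hrec i hi'
    have h2 : (21 * s : ℝ) ≤ i := by exact_mod_cast hi
    have h3 : (0 : ℝ) < 19 * (i + 1) := by positivity
    have h4 : 21 * ((40 * s : ℝ) - i) ≤ 19 * ((i : ℝ) + 1) := by linarith
    have := mul_le_mul_of_nonneg_left h4 (hpos i)
    rw [← h1] at this
    exact le_of_mul_le_mul_right this h3
  have hfin : b (21 * s) = ((40 * s).choose (21 * s) : ℝ) * 21 ^ (21 * s) * 19 ^ (19 * s) := by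
    simp only [hb]; rw [show 40 * s - 21 * s = 19 * s by omega]
  rw [← hfin]
  change b i ≤ b (21 * s)
  rcases le_total i (21 * s) with h | h
  · have : ∀ d, i + d ≤ 21 * s → b i ≤ b (i + d) := by
      intro d
      induction d with
      | zero => intro _; exact le_rfl
      | succ d ih => intro hd; exact (ih (by omega)).trans (hup (i + d) (by omega))
    have h5 := this (21 * s - i) (by omega)
    rwa [show i + (21 * s - i) = 21 * s by omega] at h5
  · have : ∀ d, 21 * s + d ≤ 40 * s → b (21 * s + d) ≤ b (21 * s) := by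
      intro d
      induction d with
      | zero => intro _; exact le_rfl
      | succ d ih =>
        intro hd; exact (hdown (21 * s + d) (by omega) (by omega)).trans (ih (by omega))
    have h5 := this (i - 21 * s) (by omega)
    rwa [show 21 * s + (i - 21 * s) = i by omega] at h5

lemma choose_lower (s : ℕ) :
    (40 : ℝ) ^ (40 * s) ≤
      (40 * s + 1) * (((40 * s).choose (21 * s) : ℝ) * 21 ^ (21 * s) * 19 ^ (19 * s)) := by
  have h1 := add_pow (21 : ℝ) 19 (40 * s)
  rw [show (21 : ℝ) + 19 = 40 by norm_num] at h1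
  rw [h1]
  refine le_trans (sum_le_sum (g := fun _ => ((40 * s).choose (21 * s) : ℝ) * 21 ^ (21 * s) *
    19 ^ (19 * s)) (fun i hi => ?_)) (le_of_eq ?_)
  · have := mode_le s i (by rw [mem_range] at hi; omega)
    linarith
  · rw [sum_const, card_range, nsmul_eq_mul]; push_cast; ring

end Pool.Agent.H347Z.Exp
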