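import Pool.Agent.H347Z.CosetProof

set_option autoImplicit false

namespace Pool.Agent.H347Z.Iso

open Finset Equiv Pool.Agent.H347Z.Cosets

variable {n : ℕ}

lemma c1 (i j : Fin n) :
    (univ.filter (fun σ : Perm (Fin n) => σ i = j)).card = (n - 1).factorial := by
  let a : Fin 1 ↪ Fin n := ⟨fun _ => i, fun x y _ => Subsingleton.elim x y⟩
  let b : Fin 1 ↪ Fin n := ⟨fun _ => j, fun x y _ => Subsingleton.elim x y⟩
  rw [← card_coset' a b]
  congr 1
  ext σ
  simp [mem_coset, a, b]

lemma c2 (i j k l : Fin n) (hij : i ≠ j) (hkl : k ≠ l) :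
    (univ.filter (fun σ : Perm (Fin n) => σ i = k ∧ σ j = l)).card = (n - 2).factorial := by
  let a : Fin 2 ↪ Fin n := ⟨![i, j], by
    intro x y h
    fin_cases x <;> fin_cases y <;> simp_all [eq_comm]⟩
  let b : Fin 2 ↪ Fin n := ⟨![k, l], by
    intro x y h
    fin_cases x <;> fin_cases y <;> simp_all [eq_comm]⟩
  rw [← card_coset' a b]
  congr 1
  ext σ
  simp [mem_coset, a, b, Fin.forall_fin_two]

/-- the example -/
def fam (x y : Fin n) : Finset (Perm (Fin n)) :=
  univ.filter (fun σ => σ x ≠ x ∧ σ y ≠ y ∧ ¬ (σ x = y ∧ σ y = x))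

lemma card_fam {x y : Fin n} (hxy : x ≠ y) :
    (fam x y).card + 2 * (n - 1).factorial = n.factorial := by
  classical
  have h1 : (fam x y)ᶜ = (univ.filter (fun σ : Perm (Fin n) => σ x = x) ∪
      univ.filter (fun σ : Perm (Fin n) => σ y = y)) ∪
      univ.filter (fun σ : Perm (Fin n) => σ x = y ∧ σ y = x) := by
    ext σ
    simp only [fam, mem_compl, mem_filter, mem_univ, true_and, mem_union]
    tauto
  have h2 : Disjoint (univ.filter (fun σ : Perm (Fin n) => σ x = x) ∪
      univ.filter (fun σ : Perm (Fin n) => σ y = y))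
      (univ.filter (fun σ : Perm (Fin n) => σ x = y ∧ σ y = x)) := by
    rw [Finset.disjoint_left]
    intro σ h h'
    simp only [mem_filter, mem_univ, true_and, mem_union] at h h'
    rcases h with h | h
    · exact hxy (h.symm.trans h'.1)
    · exact hxy (h'.2.symm.trans h)
  have h3 := card_union_add_card_inter (univ.filter (fun σ : Perm (Fin n) => σ x = x))
    (univ.filter (fun σ : Perm (Fin n) => σ y = y))
  rw [← filter_and, c2 x y x y hxy hxy, c1, c1] at h3
  have h4 := card_add_card_compl (fam x y)
  rw [h1, card_union_of_disjoint h2, c2 x y y x hxy hxy.symm, Fintype.card_perm,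
    Fintype.card_fin] at h4
  omega

lemma card_pairs (x : Fin n) :
    (univ.filter (fun p : Fin n × Fin n => p.1 < p.2 ∧ (p.1 = x ∨ p.2 = x))).card ≤ n := by
  calc _ ≤ (univ : Finset (Fin n)).card := by
        refine Finset.card_le_card_of_injOn (fun p => if p.1 = x then p.2 else p.1)
          (fun _ _ => by simp) ?_
        rintro ⟨a, b⟩ h ⟨c, d⟩ h' e
        simp only [coe_filter, mem_univ, true_and, Set.mem_ofPred_eq] at h h' e
        split_ifs at e with e1 e2 e2
        · rw [e1, e2, e]
        · have h1 : d = x := h'.2.resolve_left e2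
          have h2 := h.1
          have h3 := h'.1
          rw [e1, e] at h2
          rw [h1] at h3
          exact absurd h2 (not_lt.2 h3.le)
        · have h1 : b = x := h.2.resolve_left e1
          have h2 := h.1
          have h3 := h'.1
          rw [h1, e] at h2
          rw [e2] at h3
          exact absurd h2 (not_lt.2 h3.le)
        · rw [e, h.2.resolve_left e1, h'.2.resolve_left e2]
    _ = n := by simp

lemma bdry {x y : Fin n} (hxy : x ≠ y) :
    (((fam x y) ×ˢ (Finset.univ.filter (fun p : Fin n × Fin n => p.1 < p.2))).filter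
      (fun z => z.1 * Equiv.swap z.2.1 z.2.2 ∉ fam x y)).card ≤
      2 * n * (n - 1).factorial + 2 * n * (n - 2).factorial := by
  classical
  set Px := univ.filter (fun p : Fin n × Fin n => p.1 < p.2 ∧ (p.1 = x ∨ p.2 = x)) with hPx
  set Py := univ.filter (fun p : Fin n × Fin n => p.1 < p.2 ∧ (p.1 = y ∨ p.2 = y)) with hPy
  have hx : Px.card ≤ n := card_pairs x
  have hy : Py.card ≤ n := card_pairs y
  calc _ ≤ ((univ.filter (fun σ : Perm (Fin n) => σ x = x) ×ˢ Px ∪
        univ.filter (fun σ : Perm (Fin n) => σ y = y) ×ˢ Py) ∪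
        univ.filter (fun σ : Perm (Fin n) => σ x = y ∧ σ y = x) ×ˢ (Px ∪ Py)).card := by
        refine Finset.card_le_card_of_injOn (fun z => (z.1 * swap z.2.1 z.2.2, z.2)) ?_ ?_
        · rintro ⟨σ, a, b⟩ h
          simp only [fam, coe_filter, mem_product, mem_filter, mem_univ, true_and,
            Set.mem_ofPred_eq, Perm.coe_mul, Function.comp_apply] at h
          obtain ⟨⟨⟨h1, h2, h3⟩, hab⟩, h4⟩ := h
          simp only [hPx, hPy, coe_union, coe_product, coe_filter, mem_univ, true_and,
            Set.mem_union, Set.mem_prod, Set.mem_ofPred_eq, Perm.coe_mul, Function.comp_apply, hab]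
          have kx : ¬ (a = x ∨ b = x) → swap a b x = x := fun h =>
            swap_apply_of_ne_of_ne (fun e => h (Or.inl e.symm)) (fun e => h (Or.inr e.symm))
          have ky : ¬ (a = y ∨ b = y) → swap a b y = y := fun h =>
            swap_apply_of_ne_of_ne (fun e => h (Or.inl e.symm)) (fun e => h (Or.inr e.symm))
          by_cases e1 : σ (swap a b x) = x
          · left; left
            refine ⟨e1, ?_⟩
            by_contra hc
            rw [kx hc] at e1
            exact h1 e1
          by_cases e2 : σ (swap a b y) = y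
          · left; right
            refine ⟨e2, ?_⟩
            by_contra hc
            rw [ky hc] at e2
            exact h2 e2
          have e3 : σ (swap a b x) = y ∧ σ (swap a b y) = x := by
            by_contra hc
            exact h4 ⟨e1, e2, hc⟩
          right
          refine ⟨e3, ?_⟩
          by_contra hc
          rw [not_or] at hc
          rw [kx hc.1, ky hc.2] at e3
          exact h3 e3
        · rintro ⟨σ, p⟩ _ ⟨τ, q⟩ _ h
          have h1 : p = q := (Prod.ext_iff.1 h).2
          have h2 : σ * swap p.1 p.2 = τ * swap q.1 q.2 := (Prod.ext_iff.1 h).1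
          rw [h1] at h2
          rw [h1, mul_right_cancel h2]
    _ ≤ (n - 1).factorial * n + (n - 1).factorial * n + (n - 2).factorial * (n + n) := by
        refine (card_union_le _ _).trans (Nat.add_le_add ((card_union_le _ _).trans
          (Nat.add_le_add ?_ ?_)) ?_)
        · rw [card_product, c1]; gcongr
        · rw [card_product, c1]; gcongr
        · rw [card_product, c2 x y y x hxy hxy.symm]
          gcongr
          exact (card_union_le _ _).trans (Nat.add_le_add hx hy)
    _ = _ := by ring

lemma dist {x y : Fin n} (hxy : x ≠ y) (P : Finset (Fin n × Fin n)) :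
    (fam x y).card ≤ 2 * n * (symmDiff (fam x y)
      (Finset.univ.filter (fun σ : Equiv.Perm (Fin n) => ∃ p ∈ P, σ p.1 = p.2))).card +
      2 * (n - 1).factorial := by
  classical
  set B := Finset.univ.filter (fun σ : Equiv.Perm (Fin n) => ∃ p ∈ P, σ p.1 = p.2) with hB
  set G := (fam x y ∩ B).filter (fun σ => σ x ≠ y ∧ σ y ≠ x) with hG
  have h1 : ∀ σ : Perm (Fin n), ∃ i : Fin n, σ ∈ G → (i = x ∨ i = y) ∧
      σ * swap i (σ⁻¹ i) ∈ B := by
    intro σ
    by_cases hσ : σ ∈ G
    swap
    · exact ⟨x, fun h => absurd h hσ⟩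
    simp only [hG, hB, mem_filter, mem_inter, mem_univ, true_and] at hσ
    obtain ⟨⟨-, ⟨a, b⟩, hP, hab⟩, h1, h2⟩ := hσ
    simp only at hab
    have key : ∀ i : Fin n, a ≠ i → b ≠ i → σ * swap i (σ⁻¹ i) ∈ B := by
      intro i h3 h4
      simp only [hB, mem_filter, mem_univ, true_and]
      refine ⟨(a, b), hP, ?_⟩
      have h6 : a ≠ σ⁻¹ i := by
        intro h
        apply h4
        rw [← hab, h]; simp
      simp only [Perm.coe_mul, Function.comp_apply]
      rw [swap_apply_of_ne_of_ne h3 h6]
      exact hab
    by_cases e : a ≠ x ∧ b ≠ x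
    · exact ⟨x, fun _ => ⟨Or.inl rfl, key x e.1 e.2⟩⟩
    · refine ⟨y, fun _ => ⟨Or.inr rfl, key y ?_ ?_⟩⟩
      · rintro rfl
        apply e
        exact ⟨hxy.symm, fun h => h2 (hab.trans h)⟩
      · rintro rfl
        apply e
        exact ⟨fun h => h1 (h ▸ hab), hxy.symm⟩
  choose I hI using h1
  have h2 : G.card ≤ 2 * n * (B \ fam x y).card := by
    calc _ ≤ ((({x, y} : Finset (Fin n)) ×ˢ (univ : Finset (Fin n))) ×ˢ (B \ fam x y)).card := by
          refine Finset.card_le_card_of_injOn
            (fun σ => ((I σ, σ⁻¹ (I σ)), σ * swap (I σ) (σ⁻¹ (I σ)))) ?_ ?_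
          · intro σ hσ
            obtain ⟨h3, h4⟩ := hI σ hσ
            simp only [coe_product, coe_insert, coe_singleton, coe_univ, coe_sdiff, Set.mem_prod,
              Set.mem_insert_iff, Set.mem_singleton_iff, Set.mem_univ, and_true, Set.mem_sdiff,
              mem_coe]
            refine ⟨h3, h4, ?_⟩
            have h5 : (σ * swap (I σ) (σ⁻¹ (I σ))) (I σ) = I σ := by simp
            simp only [fam, mem_filter, mem_univ, true_and, not_and]
            intro h6 h7
            rcases h3 with h3 | h3
            · rw [h3] at h5 h6; exact absurd h5 h6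
            · rw [h3] at h5 h7; exact absurd h5 h7
          · intro σ _ τ _ h
            have h3 := (Prod.ext_iff.1 h).1
            have h4 : I σ = I τ := (Prod.ext_iff.1 h3).1
            have h5 : σ⁻¹ (I σ) = τ⁻¹ (I τ) := (Prod.ext_iff.1 h3).2
            have h6 : σ * swap (I σ) (σ⁻¹ (I σ)) = τ * swap (I τ) (τ⁻¹ (I τ)) :=
              (Prod.ext_iff.1 h).2
            rw [h5, h4] at h6
            exact mul_right_cancel h6
      _ = _ := by
          rw [card_product, card_product, card_pair hxy]; simp
  have h3 : fam x y ⊆ ((fam x y \ B) ∪ G) ∪ (univ.filter (fun σ : Perm (Fin n) => σ x = y) ∪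
      univ.filter (fun σ : Perm (Fin n) => σ y = x)) := by
    intro σ hσ
    simp only [hG, mem_union, mem_sdiff, mem_filter, mem_inter, mem_univ, true_and, hσ]
    tauto
  have h4 := (card_le_card h3).trans ((card_union_le _ _).trans
    (Nat.add_le_add (card_union_le _ _) (card_union_le _ _)))
  rw [c1, c1] at h4
  have h5 : (symmDiff (fam x y) B).card = (fam x y \ B).card + (B \ fam x y).card := by
    rw [symmDiff_def, sup_eq_union, card_union_of_disjoint]
    exact disjoint_sdiff_sdiff
  have h6 : 1 ≤ n := x.pos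
  rw [h5]
  nlinarith [Nat.mul_le_mul_right (fam x y \ B).card h6]

end Pool.Agent.H347Z.Iso
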