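import Mathlib

set_option autoImplicit false

namespace Pool.Agent.H347Z.MS

universe u

/-- Formulas of the monadic second-order language `MS₀` of matroids. Set variables are named by
natural numbers. -/
inductive Formula : Type
  | sub (i j : ℕ) : Formula
  | ind (i : ℕ) : Formula
  | not (φ : Formula) : Formula
  | and (φ ψ : Formula) : Formula
  | or (φ ψ : Formula) : Formula
  | imp (φ ψ : Formula) : Formula
  | ex (i : ℕ) (φ : Formula) : Formula
  | all (i : ℕ) (φ : Formula) : Formula

namespace Formula

/-- The free variables of a formula. -/
def free : Formula → Finset ℕ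
  | sub i j => {i, j}
  | ind i => {i}
  | not φ => φ.free
  | and φ ψ => φ.free ∪ ψ.free
  | or φ ψ => φ.free ∪ ψ.free
  | imp φ ψ => φ.free ∪ ψ.free
  | ex i φ => φ.free.erase i
  | all i φ => φ.free.erase i

/-- A sentence is a formula without free variables. -/
def IsSentence (φ : Formula) : Prop := φ.free = ∅

/-- Satisfaction of a formula in the matroid `M` when the variable `i` has the value `v i`.
Quantifiers range over the subsets of the ground set. -/
def Sat {α : Type} (M : Matroid α) : Formula → (ℕ → Set α) → Prop
  | sub i j, v => v i ⊆ v j
  | ind i, v => M.Indep (v i)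
  | not φ, v => ¬ Sat M φ v
  | and φ ψ, v => Sat M φ v ∧ Sat M ψ v
  | or φ ψ, v => Sat M φ v ∨ Sat M ψ v
  | imp φ ψ, v => Sat M φ v → Sat M ψ v
  | ex i φ, v => ∃ X, X ⊆ M.E ∧ Sat M φ (Function.update v i X)
  | all i φ, v => ∀ X, X ⊆ M.E → Sat M φ (Function.update v i X)

/-- The Goedel number of a formula, built with the pairing function of the natural numbers. -/
def code : Formula → ℕ
  | sub i j => Nat.pair 0 (Nat.pair i j)
  | ind i => Nat.pair 1 i
  | not φ => Nat.pair 2 φ.code
  | and φ ψ => Nat.pair 3 (Nat.pair φ.code ψ.code)
  | or φ ψ => Nat.pair 4 (Nat.pair φ.code ψ.code)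
  | imp φ ψ => Nat.pair 5 (Nat.pair φ.code ψ.code)
  | ex i φ => Nat.pair 6 (Nat.pair i φ.code)
  | all i φ => Nat.pair 7 (Nat.pair i φ.code)

/-- The Goedel numbering is injective. -/
theorem code_injective : Function.Injective code := by
  intro φ
  induction φ with
  | sub i j => intro ψ h; cases ψ <;> simp_all [code]
  | ind i => intro ψ h; cases ψ <;> simp_all [code]
  | not φ ih => intro ψ h; cases ψ <;> simp [code] at h; rw [ih h]
  | and φ χ ih ih' => intro ψ h; cases ψ <;> simp [code] at h; rw [ih h.1, ih' h.2]
  | or φ χ ih ih' => intro ψ h; cases ψ <;> simp [code] at h; rw [ih h.1, ih' h.2]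
  | imp φ χ ih ih' => intro ψ h; cases ψ <;> simp [code] at h; rw [ih h.1, ih' h.2]
  | ex i φ ih => intro ψ h; cases ψ <;> simp [code] at h; rw [h.1, ih h.2]
  | all i φ ih => intro ψ h; cases ψ <;> simp [code] at h; rw [h.1, ih h.2]

end Formula

/-- A sentence holds in a matroid (the values given to the variables do not matter). -/
def Models {α : Type} (M : Matroid α) (φ : Formula) : Prop := φ.Sat M (fun _ => ∅)

/-- An `H`-gain graph with vertices in `V` and edges in `α`: every edge `e` has a reference
orientation from `src e` to `tgt e`, with gain `gain e`. Loops and parallel edges are allowed. -/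
structure GainGraph (H : Type u) (V α : Type) where
  src : α → V
  tgt : α → V
  gain : α → H

namespace GainGraph

variable {H : Type u} {V α : Type} [Group H] (G : GainGraph H V α)

/-- An oriented edge is a pair `(e, b)`: the edge `e` traversed along its reference orientation if
`b = true` and against it otherwise. This is the vertex where it starts. -/
def start (d : α × Bool) : V := if d.2 then G.src d.1 else G.tgt d.1

/-- The vertex where an oriented edge ends. -/
def finish (d : α × Bool) : V := if d.2 then G.tgt d.1 else G.src d.1

/-- The gain of an oriented edge; reversing the orientation inverts the gain. -/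
def dartGain (d : α × Bool) : H := if d.2 then G.gain d.1 else (G.gain d.1)⁻¹

/-- `l` is a cycle, traversed in one direction: a nonempty list of oriented edges with distinct
edges and distinct starting vertices, each ending where the next one (cyclically) starts. -/
def IsCycle (l : List (α × Bool)) : Prop :=
  l ≠ [] ∧ (l.map Prod.fst).Nodup ∧ (l.map G.start).Nodup ∧
    l.map G.finish = (l.map G.start).rotate 1

/-- The product of the gains along the cycle is the identity. -/
def Balanced (l : List (α × Bool)) : Prop := (l.map G.dartGain).prod = 1

/-- The vertices `z` and `w` lie in the same connected component of the subgraph `(V, X)`. -/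
def Reach (X : Set α) (z w : V) : Prop :=
  Relation.ReflTransGen (fun a b => ∃ d : α × Bool, d.1 ∈ X ∧ G.start d = a ∧ G.finish d = b) z w

/-- `l` is a cycle of the connected component of the vertex `w` in the subgraph `(V, X)`. -/
def CycleIn (X : Set α) (w : V) (l : List (α × Bool)) : Prop :=
  G.IsCycle l ∧ ∀ d ∈ l, d.1 ∈ X ∧ G.Reach X w (G.start d)

/-- Independence in the frame matroid: every connected component of `(V, X)` has no cycle (it is a
tree), or it has exactly one cycle (cycles with the same edges are the same) and that cycle is
unbalanced. -/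
def FrameIndep (X : Set α) : Prop :=
  ∀ w : V, (∀ l, ¬ G.CycleIn X w l) ∨
    ∃ l, G.CycleIn X w l ∧ ¬ G.Balanced l ∧
      ∀ l', G.CycleIn X w l' → ∀ e, e ∈ l'.map Prod.fst ↔ e ∈ l.map Prod.fst

end GainGraph

/-- `M` is a finite matroid that is the frame matroid of an `H`-gain graph with finitely many
vertices whose edge set is the ground set of `M`. -/
def IsGainGraphic (H : Type u) [Group H] {α : Type} (M : Matroid α) : Prop :=
  M.E.Finite ∧ ∃ (V : Type) (_ : Finite V) (G : GainGraph H V α),
    ∀ X, M.Indep X ↔ X ⊆ M.E ∧ G.FrameIndep X

/-- The `MS₀` theory of the class of rank-3 `H`-gain-graphic matroids. -/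
def theory (H : Type u) [Group H] : Set Formula :=
  {φ | φ.IsSentence ∧
    ∀ (α : Type) (M : Matroid α), IsGainGraphic H M → M.eRank = 3 → Models M φ}

end Pool.Agent.H347Z.MS
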