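import Pool.Agent.H347Z.MSDefs

set_option autoImplicit false

namespace Pool.Agent.H347Z.MS

open Formula

/-- predicates of a matroid and of a family of sets -/
abbrev Pr (ι : Type) : Type 1 := ∀ α : Type, Matroid α → (ι → Set α) → Prop

/-- definable predicates -/
def Def (ι : Type) (Q : Pr ι) : Prop :=
  ∀ name : ι → ℕ, ∃ φ : Formula, (∀ k ∈ φ.free, k ∈ Set.range name) ∧
    ∀ (α : Type) (M : Matroid α) (v : ℕ → Set α), (∀ i, v (name i) ⊆ M.E) →
      (φ.Sat M v ↔ Q α M (fun i => v (name i)))

namespace Def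

variable {ι κ : Type}

lemma congr {P Q : Pr ι} (h : Def ι P)
    (e : ∀ α (M : Matroid α) (v : ι → Set α), (∀ i, v i ⊆ M.E) → (P α M v ↔ Q α M v)) :
    Def ι Q := by
  intro name
  obtain ⟨φ, h1, h2⟩ := h name
  exact ⟨φ, h1, fun α M v hv => (h2 α M v hv).trans (e α M _ hv)⟩

lemma rename {P : Pr ι} (h : Def ι P) (f : ι → κ) :
    Def κ (fun α M v => P α M (fun i => v (f i))) := by
  intro name
  obtain ⟨φ, h1, h2⟩ := h (fun i => name (f i))
  refine ⟨φ, fun k hk => ?_, fun α M v hv => h2 α M v (fun i => hv (f i))⟩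
  obtain ⟨i, rfl⟩ := h1 k hk
  exact ⟨f i, rfl⟩

lemma sub (i j : ι) : Def ι (fun _ _ v => v i ⊆ v j) := by
  intro name
  refine ⟨.sub (name i) (name j), ?_, fun α M v _ => Iff.rfl⟩
  intro k hk
  simp only [free, Finset.mem_insert, Finset.mem_singleton] at hk
  rcases hk with rfl | rfl <;> simp

lemma ind (i : ι) : Def ι (fun _ M v => M.Indep (v i)) := by
  intro name
  refine ⟨.ind (name i), ?_, fun α M v _ => Iff.rfl⟩
  intro k hk
  simp only [free, Finset.mem_singleton] at hk
  subst hk; simp

lemma not {P : Pr ι} (h : Def ι P) : Def ι (fun α M v => ¬ P α M v) := by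
  intro name
  obtain ⟨φ, h1, h2⟩ := h name
  exact ⟨.not φ, h1, fun α M v hv => not_congr (h2 α M v hv)⟩

lemma and {P Q : Pr ι} (h : Def ι P) (h' : Def ι Q) : Def ι (fun α M v => P α M v ∧ Q α M v) := by
  intro name
  obtain ⟨φ, h1, h2⟩ := h name
  obtain ⟨ψ, h3, h4⟩ := h' name
  refine ⟨.and φ ψ, fun k hk => ?_, fun α M v hv => and_congr (h2 α M v hv) (h4 α M v hv)⟩
  rcases Finset.mem_union.1 hk with h | h
  · exact h1 k h
  · exact h3 k h

lemma or {P Q : Pr ι} (h : Def ι P) (h' : Def ι Q) : Def ι (fun α M v => P α M v ∨ Q α M v) :=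
  (h.not.and h'.not).not.congr (fun _ _ _ _ => by tauto)

lemma imp {P Q : Pr ι} (h : Def ι P) (h' : Def ι Q) : Def ι (fun α M v => P α M v → Q α M v) :=
  (h.and h'.not).not.congr (fun _ _ _ _ => by tauto)

lemma ex [Finite ι] {P : Pr (Option ι)} (h : Def (Option ι) P) :
    Def ι (fun α M v => ∃ X, X ⊆ M.E ∧ P α M (fun o => o.elim X v)) := by
  intro name
  obtain ⟨j, hj⟩ := (Set.finite_range name).exists_notMem
  obtain ⟨φ, h1, h2⟩ := h (fun o => o.elim j name)
  refine ⟨.ex j φ, fun k hk => ?_, fun α M v hv => ?_⟩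
  · obtain ⟨hk1, hk2⟩ := Finset.mem_erase.1 hk
    obtain ⟨o, ho⟩ := h1 k hk2
    cases o with
    | none => exact absurd ho.symm hk1
    | some i => exact ⟨i, ho⟩
  · have key : ∀ X : Set α, (fun o : Option ι => Function.update v j X (o.elim j name)) =
        fun o : Option ι => o.elim X (fun i => v (name i)) := by
      intro X
      funext o
      cases o with
      | none => simp
      | some i =>
        have : name i ≠ j := fun e => hj ⟨i, e⟩
        simp [Function.update_of_ne this]
    simp only [Sat]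
    refine exists_congr (fun X => and_congr_right (fun hX => ?_))
    rw [h2 α M (Function.update v j X), key]
    intro o
    rw [congrFun (key X) o]
    cases o with
    | none => exact hX
    | some i => exact hv i

lemma all [Finite ι] {P : Pr (Option ι)} (h : Def (Option ι) P) :
    Def ι (fun α M v => ∀ X, X ⊆ M.E → P α M (fun o => o.elim X v)) :=
  h.not.ex.not.congr (fun _ _ _ _ => by simp)

lemma tru [Finite ι] : Def ι (fun _ _ _ => True) :=
  (sub (none : Option ι) none).all.congr (fun _ _ _ _ => by simp)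

lemma allFin {n : ℕ} [Finite ι] {P : Fin n → Pr ι} (h : ∀ i, Def ι (P i)) :
    Def ι (fun α M v => ∀ i, P i α M v) := by
  induction n with
  | zero => exact tru.congr (fun _ _ _ _ => by simp)
  | succ n ih =>
    exact ((h 0).and (ih (fun i => h i.succ))).congr (fun _ _ _ _ => by simp [Fin.forall_fin_succ])

lemma exFin {n : ℕ} [Finite ι] {P : Pr (ι ⊕ Fin n)} (h : Def (ι ⊕ Fin n) P) :
    Def ι (fun α M v => ∃ W : Fin n → Set α, (∀ i, W i ⊆ M.E) ∧ P α M (Sum.elim v W)) := by
  induction n generalizing ι with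
  | zero =>
    refine (h.rename (Sum.elim id Fin.elim0 : ι ⊕ Fin 0 → ι)).congr (fun α M v _ => ?_)
    have : ∀ W : Fin 0 → Set α, Sum.elim v W =
        fun i => v ((Sum.elim id Fin.elim0 : ι ⊕ Fin 0 → ι) i) := by
      intro W
      funext i
      rcases i with i | i
      · rfl
      · exact i.elim0
    constructor
    · intro h
      exact ⟨Fin.elim0, fun i => i.elim0, by rw [this]; exact h⟩
    · rintro ⟨W, -, h⟩
      rwa [this] at h
  | succ n ih =>
    let f : ι ⊕ Fin (n + 1) → Option ι ⊕ Fin n :=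
      Sum.elim (fun i => Sum.inl (some i)) (Fin.cons (Sum.inl none) Sum.inr)
    refine (ih (h.rename f)).ex.congr (fun α M v _ => ?_)
    have key : ∀ (X : Set α) (W : Fin n → Set α),
        (fun i => Sum.elim (fun o : Option ι => o.elim X v) W (f i)) =
          Sum.elim v (Fin.cons X W) := by
      intro X W
      funext i
      rcases i with i | i
      · rfl
      · refine Fin.cases ?_ (fun j => ?_) i <;> simp [f]
    constructor
    · rintro ⟨X, hX, W, hW, h⟩
      rw [key] at h
      exact ⟨Fin.cons X W, fun i => Fin.cases hX hW i, h⟩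
    · rintro ⟨W, hW, h⟩
      refine ⟨W 0, hW 0, Fin.tail W, fun i => hW i.succ, ?_⟩
      rw [key, Fin.cons_self_tail]
      exact h

variable [Finite ι]

lemma eq (i j : ι) : Def ι (fun _ _ v => v i = v j) :=
  ((sub i j).and (sub j i)).congr (fun _ _ _ _ => Set.Subset.antisymm_iff.symm)

lemma empty (i : ι) : Def ι (fun _ _ v => v i = ∅) :=
  (sub (some i) none).all.congr (fun _ _ v _ => by
    simp only [Option.elim_some, Option.elim_none]
    constructor
    · intro h
      exact Set.subset_empty_iff.1 (h ∅ (Set.empty_subset _))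
    · intro h X _
      rw [h]; exact Set.empty_subset _)

lemma sing (i : ι) : Def ι (fun _ _ v => ∃ x, v i = {x}) :=
  ((empty i).not.and ((sub none (some i)).imp ((empty none).or (eq none (some i)))).all).congr
    (fun _ M v hv => by
      simp only [Option.elim_some, Option.elim_none]
      constructor
      · rintro ⟨h1, h2⟩
        obtain ⟨x, hx⟩ := Set.nonempty_iff_ne_empty.2 h1
        have h3 : ({x} : Set _) ⊆ v i := Set.singleton_subset_iff.2 hx
        rcases h2 {x} (h3.trans (hv i)) h3 with h | h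
        · simp at h
        · exact ⟨x, h.symm⟩
      · rintro ⟨x, hx⟩
        rw [hx]
        exact ⟨by simp, fun X _ hX => Set.subset_singleton_iff_eq.1 hX⟩)

lemma ind3 (i j k : ι) : Def ι (fun _ M v => M.Indep (v i ∪ v j ∪ v k)) :=
  ((ind none).and ((sub (some i) none).and ((sub (some j) none).and (sub (some k) none)))).ex.congr
    (fun _ M v _ => by
      simp only [Option.elim_some, Option.elim_none]
      constructor
      · rintro ⟨X, -, h1, h2, h3, h4⟩
        exact h1.subset (Set.union_subset (Set.union_subset h2 h3) h4)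
      · intro h
        exact ⟨_, h.subset_ground, h, Set.subset_union_left.trans Set.subset_union_left,
          Set.subset_union_right.trans Set.subset_union_left, Set.subset_union_right⟩)

end Def

/-- the binary relation coded by the set `R` -/
def Rel {α : Type} (M : Matroid α) (B D R X Y : Set α) : Prop :=
  (∃ x, X = {x}) ∧ (∃ y, Y = {y}) ∧ ∃ b c d : α, b ∈ B ∧ c ∈ R ∧ d ∈ D ∧
    ¬ M.Indep (X ∪ {b} ∪ {c}) ∧ ¬ M.Indep (Y ∪ {b} ∪ {d})

lemma def_rel {ι : Type} [Finite ι] (b d r x y : ι) :
    Def ι (fun _ M v => Rel M (v b) (v d) (v r) (v x) (v y)) :=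
  ((Def.sing x).and ((Def.sing y).and
    (((Def.sing (some (some none))).and ((Def.sing (some none)).and ((Def.sing none).and
      ((Def.sub (some (some none)) (some (some (some b)))).and
      ((Def.sub (some none) (some (some (some r)))).and
      ((Def.sub none (some (some (some d)))).and
      ((Def.ind3 (some (some (some x))) (some (some none)) (some none)).not.and
      (Def.ind3 (some (some (some y))) (some (some none)) none).not))))))).ex.ex.ex))).congr
    (fun _ M v hv => by
      simp only [Option.elim_some, Option.elim_none, Rel]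
      refine and_congr_right (fun _ => and_congr_right (fun _ => ?_))
      constructor
      · rintro ⟨_, -, _, -, _, -, ⟨b', rfl⟩, ⟨c', rfl⟩, ⟨d', rfl⟩, h1, h2, h3, h4, h5⟩
        exact ⟨b', c', d', h1 rfl, h2 rfl, h3 rfl, h4, h5⟩
      · rintro ⟨b', c', d', h1, h2, h3, h4, h5⟩
        exact ⟨{b'}, by simpa using hv b h1, {c'}, by simpa using hv r h2, {d'},
          by simpa using hv d h3, ⟨_, rfl⟩, ⟨_, rfl⟩, ⟨_, rfl⟩, by simpa using h1,
          by simpa using h2, by simpa using h3, h4, h5⟩)

/-- `X` represents the number `n` -/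
def Num {α : Type} (M : Matroid α) (B D S Z : Set α) : ℕ → Set α → Prop
  | 0, X => X = Z
  | n + 1, Y => ∃ X, X ⊆ M.E ∧ Num M B D S Z n X ∧ Rel M B D S X Y

/-- standard models of size `N` -/
structure Std {α : Type} (M : Matroid α) (B D S Z : Set α) (N : ℕ) (a : ℕ → α) : Prop where
  mem : ∀ i, i < N → a i ∈ M.E
  inj : ∀ i j, i < N → j < N → a i = a j → i = j
  zero : Z = {a 0}
  succ : ∀ X Y, Rel M B D S X Y ↔ ∃ i, i + 1 < N ∧ X = {a i} ∧ Y = {a (i + 1)}
  code : ∀ r : ℕ → ℕ → Prop, ∃ R, R ⊆ M.E ∧
    ∀ X Y, Rel M B D R X Y ↔ ∃ i j, i < N ∧ j < N ∧ r i j ∧ X = {a i} ∧ Y = {a j}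

/-- representable functions -/
def Repr {n : ℕ} (f : List.Vector ℕ n → ℕ) : Prop :=
  ∃ Ev : ∀ α : Type, Matroid α → Set α → Set α → Set α → Set α → (Fin n → Set α) → Set α → Prop,
    (∀ (ι : Type) [Finite ι] (b d s z : ι) (x : Fin n → ι) (o : ι),
      Def ι (fun α M v => Ev α M (v b) (v d) (v s) (v z) (fun i => v (x i)) (v o))) ∧
    (∀ α (M : Matroid α) B D S Z (X : Fin n → Set α) (O : Set α) (u : List.Vector ℕ n),
      (∀ i, Num M B D S Z (u.get i) (X i)) → Ev α M B D S Z X O → Num M B D S Z (f u) O) ∧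
    (∀ u : List.Vector ℕ n, ∀ᶠ N in Filter.atTop, f u < N ∧
      ∀ α (M : Matroid α) B D S Z (a : ℕ → α), Std M B D S Z N a →
        Ev α M B D S Z (fun i => {a (u.get i)}) {a (f u)})

lemma repr_zero : Repr (n := 0) (fun _ => 0) := by
  refine ⟨fun α M B D S Z X O => O = Z, fun ι _ b d s z x o => Def.eq o z, ?_, ?_⟩
  · intro α M B D S Z X O u _ h
    exact h
  · intro u
    filter_upwards [Filter.eventually_gt_atTop 0] with N hN
    exact ⟨hN, fun α M B D S Z a h => h.zero.symm⟩

lemma repr_succ : Repr (n := 1) (fun v => Nat.succ v.head) := by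
  refine ⟨fun α M B D S Z X O => X 0 ⊆ M.E ∧ Rel M B D S (X 0) O,
    fun ι _ b d s z x o => (def_rel b d s (x 0) o).congr (fun _ _ v hv => by simp [hv]), ?_, ?_⟩
  · intro α M B D S Z X O u hu h
    refine ⟨X 0, h.1, ?_, h.2⟩
    simpa using hu 0
  · intro u
    filter_upwards [Filter.eventually_gt_atTop (u.head + 1)] with N hN
    refine ⟨hN, fun α M B D S Z a h => ⟨?_, (h.succ _ _).2 ⟨u.head, hN, by simp, rfl⟩⟩⟩
    simpa using h.mem _ (by omega)

lemma repr_get {n : ℕ} (i : Fin n) : Repr (n := n) (fun v => v.get i) := by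
  refine ⟨fun α M B D S Z X O => O = X i, fun ι _ b d s z x o => Def.eq o (x i), ?_, ?_⟩
  · intro α M B D S Z X O u hu h
    rw [h]; exact hu i
  · intro u
    filter_upwards [Filter.eventually_gt_atTop (u.get i)] with N hN
    exact ⟨hN, fun α M B D S Z a h => rfl⟩

lemma repr_comp {m n : ℕ} {f : List.Vector ℕ n → ℕ} (g : Fin n → List.Vector ℕ m → ℕ)
    (hf : Repr f) (hg : ∀ i, Repr (g i)) :
    Repr (fun a => f (List.Vector.ofFn fun i => g i a)) := by
  obtain ⟨F, F1, F2, F3⟩ := hf
  choose G G1 G2 G3 using hg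
  refine ⟨fun α M B D S Z X O => ∃ W : Fin n → Set α, (∀ i, W i ⊆ M.E) ∧
    ((∀ i, G i α M B D S Z X (W i)) ∧ F α M B D S Z W O), fun ι _ b d s z x o => ?_, ?_, ?_⟩
  · exact ((Def.allFin (fun i => G1 i (ι ⊕ Fin n) (.inl b) (.inl d) (.inl s) (.inl z)
      (fun j => .inl (x j)) (.inr i))).and
      (F1 (ι ⊕ Fin n) (.inl b) (.inl d) (.inl s) (.inl z) .inr (.inl o))).exFin
  · rintro α M B D S Z X O u hu ⟨W, -, h1, h2⟩
    refine F2 α M B D S Z W O _ (fun i => ?_) h2
    rw [List.Vector.get_ofFn]
    exact G2 i α M B D S Z X (W i) u hu (h1 i)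
  · intro u
    filter_upwards [F3 (List.Vector.ofFn fun i => g i u),
      Filter.eventually_all.2 (fun i => G3 i u)] with N h1 h2
    refine ⟨h1.1, fun α M B D S Z a h => ⟨fun i => {a (g i u)}, fun i => ?_, fun i => ?_, ?_⟩⟩
    · simpa using h.mem _ (h2 i).1
    · exact (h2 i).2 α M B D S Z a h
    · simpa using h1.2 α M B D S Z a h

lemma repr_prec {n : ℕ} {f : List.Vector ℕ n → ℕ} {g : List.Vector ℕ (n + 2) → ℕ}
    (hf : Repr f) (hg : Repr g) :
    Repr (fun v : List.Vector ℕ (n + 1) =>
      v.head.rec (f v.tail) fun y IH => g (y ::ᵥ IH ::ᵥ v.tail)) := by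
  obtain ⟨F, F1, F2, F3⟩ := hf
  obtain ⟨G, G1, G2, G3⟩ := hg
  refine ⟨fun α M B D S Z X O => ∃ R, R ⊆ M.E ∧
    ((∀ W, W ⊆ M.E → Rel M B D R Z W → F α M B D S Z (fun i => X i.succ) W) ∧
    ((∀ K, K ⊆ M.E → ∀ K', K' ⊆ M.E → ∀ W', W' ⊆ M.E → Rel M B D S K K' → Rel M B D R K' W' →
      ∃ W, W ⊆ M.E ∧ (Rel M B D R K W ∧
        G α M B D S Z (Fin.cons K (Fin.cons W (fun i => X i.succ))) W')) ∧
    (X 0 ⊆ M.E ∧ O ⊆ M.E ∧ Rel M B D R (X 0) O))), fun ι _ b d s z x o => ?_, ?_, ?_⟩
  · have h1 := ((def_rel (some (some b)) (some (some d)) (some none) (some (some z)) none).imp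
      (F1 (Option (Option ι)) (some (some b)) (some (some d)) (some (some s)) (some (some z))
        (fun i => some (some (x i.succ))) none)).all
    have h2 := ((def_rel (some (some (some (some (some b))))) (some (some (some (some (some d)))))
        (some (some (some (some none)))) (some (some (some none))) none).and
      (G1 (Option (Option (Option (Option (Option ι))))) (some (some (some (some (some b)))))
        (some (some (some (some (some d))))) (some (some (some (some (some s)))))
        (some (some (some (some (some z)))))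
        (Fin.cons (some (some (some none))) (Fin.cons none
          (fun i => some (some (some (some (some (x i.succ)))))))) (some none))).ex
    have h3 := ((def_rel (some (some (some (some b)))) (some (some (some (some d))))
        (some (some (some (some s)))) (some (some none)) (some none)).imp
      ((def_rel (some (some (some (some b)))) (some (some (some (some d))))
        (some (some (some none))) (some none) none).imp h2)).all.all.all
    have h4 := def_rel (some b) (some d) none (some (x 0)) (some o)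
    refine (h1.and (h3.and h4)).ex.congr (fun α M v hv => ?_)
    simp only [Option.elim_some, Option.elim_none, hv, true_and]
    refine exists_congr (fun R => and_congr_right (fun _ => and_congr Iff.rfl
      (and_congr ?_ Iff.rfl)))
    refine forall_congr' (fun K => forall_congr' (fun _ => forall_congr' (fun K' =>
      forall_congr' (fun _ => forall_congr' (fun W' => forall_congr' (fun _ =>
      forall_congr' (fun _ => forall_congr' (fun _ => exists_congr (fun W =>
      and_congr_right (fun _ => and_congr_right (fun _ => ?_)))))))))))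
    refine iff_of_eq (congrArg (fun t => G α M (v b) (v d) (v s) (v z) t W') ?_)
    funext i
    refine Fin.cases rfl (fun j => Fin.cases rfl (fun k => rfl) j) i
  · rintro α M B D S Z X O u hu ⟨R, -, h1, h2, h3, h4, h5⟩
    have hu' : ∀ i : Fin n, Num M B D S Z (u.tail.get i) (X i.succ) := by
      intro i
      rw [List.Vector.get_tail_succ]
      exact hu i.succ
    have key : ∀ (k : ℕ) (Y W : Set α), Y ⊆ M.E → W ⊆ M.E → Num M B D S Z k Y → Rel M B D R Y W →
        Num M B D S Z (k.rec (f u.tail) fun y IH => g (y ::ᵥ IH ::ᵥ u.tail)) W := by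
      intro k
      induction k with
      | zero =>
        intro Y W _ hW hY hR
        rw [show Y = Z from hY] at hR
        exact F2 α M B D S Z _ W u.tail hu' (h1 W hW hR)
      | succ k ih =>
        rintro Y W' hYE hW' ⟨K, hK, hK1, hK2⟩ hR
        obtain ⟨W, hW, h6, h7⟩ := h2 K hK Y hYE W' hW' hK2 hR
        refine G2 α M B D S Z _ W' _ (fun i => ?_) h7
        refine Fin.cases ?_ (fun j => Fin.cases ?_ (fun l => ?_) j) i
        · simpa using hK1
        · rw [List.Vector.get_cons_succ, List.Vector.get_cons_zero]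
          simpa using ih K W hK hW hK1 h6
        · simpa using hu' l
    refine key u.head (X 0) O h3 h4 ?_ h5
    simpa using hu 0
  · intro u
    set P : ℕ → ℕ := fun k => k.rec (f u.tail) fun y IH => g (y ::ᵥ IH ::ᵥ u.tail) with hP
    have hall := (Filter.eventually_all_finite (Set.finite_Iio u.head)).2
      (fun k _ => G3 (k ::ᵥ P k ::ᵥ u.tail))
    filter_upwards [F3 u.tail, hall, Filter.eventually_gt_atTop u.head] with N h1 h2 h3
    have hlt : ∀ k, k ≤ u.head → P k < N := by
      intro k hk
      cases k with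
      | zero => exact h1.1
      | succ k => exact (h2 k hk).1
    refine ⟨hlt _ le_rfl, fun α M B D S Z a h => ?_⟩
    obtain ⟨R, hR, hR'⟩ := h.code (fun i j => i ≤ u.head ∧ j = P i)
    refine ⟨R, hR, ?_, ?_, ?_, ?_, ?_⟩
    · intro W _ hW
      obtain ⟨i, j, hi, hj, ⟨-, rfl⟩, h4, rfl⟩ := (hR' _ _).1 hW
      rw [h.zero] at h4
      have h5 := h.inj 0 i (by omega) hi (Set.singleton_injective h4)
      subst h5
      have := h1.2 α M B D S Z a h
      simp only [List.Vector.get_tail_succ] at this
      exact this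
    · intro K _ K' _ W' _ h4 h5
      obtain ⟨i, hi, rfl, rfl⟩ := (h.succ _ _).1 h4
      obtain ⟨i', j, hi', hj, ⟨h6, rfl⟩, h7, rfl⟩ := (hR' _ _).1 h5
      have h8 := h.inj (i + 1) i' hi hi' (Set.singleton_injective h7)
      subst h8
      refine ⟨{a (P i)}, by simpa using h.mem _ (hlt i (by omega)),
        (hR' _ _).2 ⟨i, P i, by omega, hlt i (by omega), ⟨by omega, rfl⟩, rfl, rfl⟩, ?_⟩
      have := (h2 i (show i < u.head by omega)).2 α M B D S Z a h
      convert this using 1
      funext t
      refine Fin.cases ?_ (fun j => Fin.cases ?_ (fun l => ?_) j) t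
      · simp
      · rw [List.Vector.get_cons_succ, List.Vector.get_cons_zero]
        simp
      · simp [List.Vector.get_tail_succ]
    · simpa using h.mem _ h3
    · simpa using h.mem _ (hlt _ le_rfl)
    · exact (hR' _ _).2 ⟨u.head, P u.head, h3, hlt _ le_rfl, ⟨le_rfl, rfl⟩, by simp, rfl⟩

lemma repr_of_prim {n : ℕ} {f : List.Vector ℕ n → ℕ} (hf : Nat.Primrec' f) : Repr f := by
  induction hf with
  | zero => exact repr_zero
  | succ => exact repr_succ
  | get i => exact repr_get i
  | comp g _ _ ih1 ih2 => exact repr_comp g ih1 ih2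
  | prec _ _ ih1 ih2 => exact repr_prec ih1 ih2

end Pool.Agent.H347Z.MS
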