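import Pool.Agent.H347Z.MSModel

set_option autoImplicit false

namespace Pool.Agent.H347Z.MS

universe u

open Formula

lemma exists_generic (H : Type u) [Group H] [Infinite H] (N : ℕ) (p : Fin N → H)
    (hp : Function.Injective p) (m : ℕ) :
    ∃ q : Fin m → H, ∀ i j k l, p i * q j = p k * q l → i = k ∧ j = l := by
  induction m with
  | zero => exact ⟨Fin.elim0, fun _ j => j.elim0⟩
  | succ m ih =>
    obtain ⟨q, hq⟩ := ih
    obtain ⟨t, ht⟩ := (Set.finite_range
      (fun z : Fin N × Fin N × Fin m => (p z.1)⁻¹ * (p z.2.1 * q z.2.2))).exists_notMem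
    refine ⟨Fin.cons t q, fun i j k l => ?_⟩
    refine Fin.cases ?_ (fun j' => ?_) j <;> refine Fin.cases ?_ (fun l' => ?_) l
    · intro h
      simp only [Fin.cons_zero, mul_left_inj] at h
      exact ⟨hp h, rfl⟩
    · intro h
      simp only [Fin.cons_zero, Fin.cons_succ] at h
      exact absurd ⟨(i, k, l'), by simp [← h]⟩ ht
    · intro h
      simp only [Fin.cons_zero, Fin.cons_succ] at h
      exact absurd ⟨(k, i, j'), by simp [h]⟩ ht
    · intro h
      simp only [Fin.cons_succ] at h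
      obtain ⟨h1, h2⟩ := hq _ _ _ _ h
      exact ⟨h1, by rw [h2]⟩

lemma exists_std (H : Type u) [Group H] [Infinite H] (N : ℕ) (hN : 2 ≤ N) :
    ∃ (α : Type) (M : Matroid α), IsGainGraphic H M ∧ M.eRank = 3 ∧
      ∃ (B D S Z : Set α) (a : ℕ → α), B ⊆ M.E ∧ D ⊆ M.E ∧ S ⊆ M.E ∧ Z ⊆ M.E ∧
        Std M B D S Z N a := by
  let p : Fin N → H := fun i => Infinite.natEmbedding H i.val
  have hp : Function.Injective p := fun i j h =>
    Fin.ext ((Infinite.natEmbedding H).injective h)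
  obtain ⟨q, hq⟩ := exists_generic H N p hp N
  let α := Fin N ⊕ Fin N ⊕ (Fin N × Fin N)
  let cls : α → Fin 3 := Sum.elim (fun _ => 0) (Sum.elim (fun _ => 1) (fun _ => 2))
  let g : α → H := Sum.elim p (Sum.elim q (fun z => (p z.1 * q z.2)⁻¹))
  let i0 : Fin N := ⟨0, by omega⟩
  let i1 : Fin N := ⟨1, by omega⟩
  have hg : ∀ x y, cls x = cls y → g x = g y → x = y := by
    rintro (x | x | x) (y | y | y) h1 h2 <;> simp [cls, g] at h1 h2
    · rw [hp h2]
    · rw [(hq i0 x i0 y (by rw [h2])).2]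
    · have h3 : p x.1 * q x.2 = p y.1 * q y.2 := by
        apply inv_injective
        simpa using h2
      obtain ⟨h4, h5⟩ := hq _ _ _ _ h3
      rw [Prod.ext h4 h5]
  have dep : ∀ (x : α) (j k l : Fin N),
      ¬ (mat hg).Indep ({x} ∪ {Sum.inr (Sum.inl j)} ∪ {Sum.inr (Sum.inr (k, l))}) ↔
        x = Sum.inl k ∧ j = l := by
    intro x j k l
    have e : ({x} ∪ {Sum.inr (Sum.inl j)} ∪ {Sum.inr (Sum.inr (k, l))} : Set α) =
        {x, Sum.inr (Sum.inl j), Sum.inr (Sum.inr (k, l))} := by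
      ext w; simp only [Set.mem_union, Set.mem_singleton_iff, Set.mem_insert_iff]; tauto
    rw [e, mat_indep]
    constructor
    · intro h
      have h1 : HasTri cls g {x, Sum.inr (Sum.inl j), Sum.inr (Sum.inr (k, l))} := by
        by_contra hcon
        refine h ⟨?_, fun h' => ?_, hcon⟩
        · refine (Set.ncard_insert_le _ _).trans ?_
          have := Set.ncard_insert_le (Sum.inr (Sum.inl j) : α) {Sum.inr (Sum.inr (k, l))}
          simp only [Set.ncard_singleton] at this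
          omega
        · have := (par_triple h').2
          simp [cls] at this
      rcases tri_triple h1 with h | h | h | h | h | h <;> obtain ⟨h2, h3, h4, h5⟩ := h <;>
        simp [cls] at h2 h3 h4
      rcases x with x | x | x <;> simp at h2
      have h6 : p x * q j = p k * q l := by
        simp only [g, Sum.elim_inl, Sum.elim_inr] at h5
        exact mul_inv_eq_one.1 h5
      obtain ⟨h7, h8⟩ := hq _ _ _ _ h6
      exact ⟨by rw [h7], h8⟩
    · rintro ⟨rfl, rfl⟩ h
      exact h.2.2 ⟨Sum.inl k, by simp, Sum.inr (Sum.inl j), by simp, Sum.inr (Sum.inr (k, j)),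
        by simp, rfl, rfl, rfl, by simp [g]⟩
  let a : ℕ → α := fun i => if h : i < N then Sum.inl ⟨i, h⟩ else Sum.inl i0
  let B : Set α := Set.range (fun j => Sum.inr (Sum.inl j))
  let D : Set α := Set.range (fun j => Sum.inr (Sum.inr (j, j)))
  let R : (ℕ → ℕ → Prop) → Set α := fun r =>
    {c | ∃ k l : Fin N, r k l ∧ c = Sum.inr (Sum.inr (k, l))}
  have ha : ∀ i : Fin N, a i = Sum.inl i := fun i => by simp [a]
  have hR : ∀ r X Y, Rel (mat hg) B D (R r) X Y ↔
      ∃ i j, i < N ∧ j < N ∧ r i j ∧ X = {a i} ∧ Y = {a j} := by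
    intro r X Y
    constructor
    · rintro ⟨⟨x, rfl⟩, ⟨y, rfl⟩, _, _, _, ⟨j, rfl⟩, ⟨k, l, hr, rfl⟩, ⟨m, rfl⟩, h1, h2⟩
      obtain ⟨rfl, rfl⟩ := (dep _ _ _ _).1 h1
      obtain ⟨rfl, rfl⟩ := (dep _ _ _ _).1 h2
      exact ⟨k, j, k.2, j.2, hr, by rw [ha], by rw [ha]⟩
    · rintro ⟨i, j, hi, hj, hr, rfl, rfl⟩
      refine ⟨⟨_, rfl⟩, ⟨_, rfl⟩, _, _, _, ⟨⟨j, hj⟩, rfl⟩, ⟨⟨i, hi⟩, ⟨j, hj⟩, hr, rfl⟩,
        ⟨⟨j, hj⟩, rfl⟩, (dep _ _ _ _).2 ⟨ha ⟨i, hi⟩, rfl⟩, (dep _ _ _ _).2 ⟨ha ⟨j, hj⟩, rfl⟩⟩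
  refine ⟨α, mat hg, mat_gg hg, ?_, B, D, R (fun i j => j = i + 1), {a 0}, a, Set.subset_univ _,
    Set.subset_univ _, Set.subset_univ _, Set.subset_univ _, ⟨fun _ _ => Set.mem_univ _, ?_, rfl,
      ?_, fun r => ⟨R r, Set.subset_univ _, hR r⟩⟩⟩
  · apply le_antisymm
    · obtain ⟨B₀, hB₀⟩ := (mat hg).exists_isBase
      rw [← hB₀.encard_eq_eRank, ← (Set.toFinite B₀).cast_ncard_eq]
      exact_mod_cast ((mat_indep hg B₀).1 hB₀.indep).1
    · have h01 : i0 ≠ i1 := by simp [i0, i1]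
      have h1 : ({Sum.inl i0, Sum.inl i1, Sum.inr (Sum.inl i0)} : Set α).ncard = 3 :=
        Set.ncard_eq_three.2 ⟨_, _, _, fun h => h01 (Sum.inl_injective h), Sum.inl_ne_inr, Sum.inl_ne_inr, rfl⟩
      have h2 : (mat hg).Indep {Sum.inl i0, Sum.inl i1, Sum.inr (Sum.inl i0)} := by
        refine (mat_indep hg _).2 ⟨h1.le, fun h => ?_, fun h => ?_⟩
        · have := (par_triple h).2
          simp [cls] at this
        · rcases tri_triple h with h | h | h | h | h | h <;> obtain ⟨h2, h3, h4, h5⟩ := h <;>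
            simp [cls] at h2 h3 h4
      have h3 := h2.encard_le_eRank
      rw [← (Set.toFinite _).cast_ncard_eq, h1] at h3
      exact h3
  · intro i j hi hj h
    have := (ha ⟨i, hi⟩).symm.trans (h.trans (ha ⟨j, hj⟩))
    exact congrArg Fin.val (Sum.inl_injective this)
  · intro X Y
    refine (hR (fun i j => j = i + 1) X Y).trans ?_
    constructor
    · rintro ⟨i, j, hi, hj, rfl, h1, h2⟩
      exact ⟨i, hj, h1, h2⟩
    · rintro ⟨i, hi, h1, h2⟩
      exact ⟨i, i + 1, by omega, hi, rfl, h1, h2⟩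

/-- `T` represents some number -/
def IsNum {α : Type} (M : Matroid α) (B D S Z T : Set α) : Prop :=
  (∃ t, T = {t}) ∧ ∀ W, W ⊆ M.E → Z ⊆ W →
    (∀ K, K ⊆ M.E → ∀ K', K' ⊆ M.E → K ⊆ W → Rel M B D S K K' → K' ⊆ W) → T ⊆ W

lemma def_isNum {ι : Type} [Finite ι] (b d s z t : ι) :
    Def ι (fun _ M v => IsNum M (v b) (v d) (v s) (v z) (v t)) :=
  (Def.sing t).and ((Def.sub (some z) none).imp
    ((((Def.sub (some none) (some (some none))).imp
      ((def_rel (some (some (some b))) (some (some (some d))) (some (some (some s)))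
        (some none) none).imp (Def.sub none (some (some none))))).all.all).imp
      (Def.sub (some t) none))).all

lemma IsNum.exists {α : Type} {M : Matroid α} {B D S Z T : Set α} (h : IsNum M B D S Z T)
    (hZ : Z ⊆ M.E) (hZ' : ∃ z, Z = {z}) : ∃ m, Num M B D S Z m T := by
  obtain ⟨⟨t, rfl⟩, h⟩ := h
  obtain ⟨z, rfl⟩ := hZ'
  have := h {e | e ∈ M.E ∧ ∃ m, Num M B D S {z} m {e}} (fun e he => he.1)
    (by rintro _ rfl; exact ⟨hZ rfl, 0, rfl⟩) (by
      intro K hK K' hK' h1 h2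
      obtain ⟨k, rfl⟩ := h2.1
      obtain ⟨k', rfl⟩ := h2.2.1
      obtain ⟨-, m, hm⟩ := h1 rfl
      rintro _ rfl
      exact ⟨hK' rfl, m + 1, {k}, hK, hm, h2⟩)
  exact (this rfl).2

lemma Std.isNum {α : Type} {M : Matroid α} {B D S Z : Set α} {N : ℕ} {a : ℕ → α}
    (h : Std M B D S Z N a) (m : ℕ) (hm : m < N) : IsNum M B D S Z {a m} := by
  refine ⟨⟨_, rfl⟩, fun W _ h1 h2 => ?_⟩
  induction m with
  | zero => rw [← h.zero]; exact h1
  | succ m ih =>
    exact h2 {a m} (by simpa using h.mem m (by omega)) _ (by simpa using h.mem _ hm)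
      (ih (by omega)) ((h.succ _ _).2 ⟨m, hm, rfl, rfl⟩)

/-- move `n` steps along the successor relation -/
def Chain {α : Type} (M : Matroid α) (B D S : Set α) (Q : Set α → Prop) : ℕ → Set α → Prop
  | 0, X => Q X
  | n + 1, X => ∃ Y, Y ⊆ M.E ∧ Rel M B D S X Y ∧ Chain M B D S Q n Y

lemma chain_sound {α : Type} {M : Matroid α} {B D S Z : Set α} {Q : Set α → Prop} (n : ℕ) :
    ∀ (m : ℕ) (X : Set α), X ⊆ M.E → Num M B D S Z m X → Chain M B D S Q n X →
      ∃ Y, Num M B D S Z (m + n) Y ∧ Q Y := by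
  induction n with
  | zero => intro m X _ h1 h2; exact ⟨X, h1, h2⟩
  | succ n ih =>
    rintro m X hX h1 ⟨Y, hY, h2, h3⟩
    obtain ⟨W, h4, h5⟩ := ih (m + 1) Y hY ⟨X, hX, h1, h2⟩ h3
    exact ⟨W, by rwa [show m + (n + 1) = m + 1 + n by ring], h5⟩

lemma chain_complete {α : Type} {M : Matroid α} {B D S Z : Set α} {N : ℕ} {a : ℕ → α}
    (h : Std M B D S Z N a) {Q : Set α → Prop} (n : ℕ) :
    ∀ m : ℕ, m + n < N → Q {a (m + n)} → Chain M B D S Q n {a m} := by
  induction n with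
  | zero => intro m _ h1; exact h1
  | succ n ih =>
    intro m hm h1
    exact ⟨{a (m + 1)}, by simpa using h.mem _ (by omega),
      (h.succ _ _).2 ⟨m, by omega, rfl, rfl⟩,
      ih (m + 1) (by omega) (by rwa [show m + 1 + n = m + (n + 1) by ring])⟩

/-- the iterated formula -/
def xi (χ σ : Formula) : ℕ → Formula
  | 0 => χ
  | n + 1 => .ex 5 (.and σ (.ex 4 (.and (.and (.sub 4 5) (.sub 5 4)) (xi χ σ n))))

/-- the sentence -/
def psi (χ σ : Formula) (n : ℕ) : Formula :=
  .not (.ex 0 (.ex 1 (.ex 2 (.ex 3 (.ex 4 (.and (.and (.sub 4 3) (.sub 3 4)) (xi χ σ n)))))))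

lemma primrec_xi (χ σ : Formula) : Primrec (fun n => (xi χ σ n).code) := by
  have h : Primrec (fun c : ℕ => Nat.pair 6 (Nat.pair 5 (Nat.pair 3 (Nat.pair σ.code
      (Nat.pair 6 (Nat.pair 4 (Nat.pair 3 (Nat.pair
        (Formula.and (.sub 4 5) (.sub 5 4)).code c)))))))) := by
    repeat refine Primrec₂.natPair.comp (Primrec.const _) ?_
    exact Primrec.id
  refine (Primrec.nat_iterate Primrec.id (Primrec.const χ.code)
    (h.comp Primrec.snd).to₂).of_eq (fun n => ?_)
  induction n with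
  | zero => rfl
  | succ n ih =>
    simp only [id] at ih ⊢
    rw [Function.iterate_succ_apply', ih]
    rfl

lemma primrec_psi (χ σ : Formula) : Primrec (fun n => (psi χ σ n).code) := by
  simp only [psi, code]
  repeat refine Primrec₂.natPair.comp (Primrec.const _) ?_
  exact primrec_xi χ σ

lemma xi_free {χ σ : Formula} (h1 : ∀ k ∈ χ.free, k ≤ 4) (h2 : ∀ k ∈ σ.free, k ≤ 5) (n : ℕ) :
    ∀ k ∈ (xi χ σ n).free, k ≤ 4 := by
  induction n with
  | zero => exact h1
  | succ n ih =>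
    intro k hk
    simp only [xi, free, Finset.mem_erase, Finset.mem_union, Finset.mem_insert,
      Finset.mem_singleton] at hk
    obtain ⟨h3, h4 | ⟨h4, h5 | h5⟩⟩ := hk
    · have := h2 k h4; omega
    · omega
    · exact ih k h5

lemma exists_family (H : Type u) [Group H] [Infinite H] (f : ℕ → ℕ → ℕ) (hf : Primrec₂ f) :
    ∃ ψ : ℕ → Formula, Primrec (fun n => (ψ n).code) ∧ (∀ n, (ψ n).IsSentence) ∧
      ∀ n, ψ n ∈ theory H ↔ ¬ ∃ s, f n s = 0 := by
  obtain ⟨Ev, E1, E2, E3⟩ := repr_of_prim (Nat.Primrec'.prim_iff₂.2 hf)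
  let Q : ∀ α : Type, Matroid α → Set α → Set α → Set α → Set α → Set α → Prop :=
    fun α M B D S Z X => (∃ z, Z = {z}) ∧ (∀ K, K ⊆ M.E → ¬ Rel M B D S K Z) ∧
      ∃ T, T ⊆ M.E ∧ (IsNum M B D S Z T ∧ Ev α M B D S Z ![X, T] Z)
  have hQ : Def (Fin 5) (fun α M v => Q α M (v 0) (v 1) (v 2) (v 3) (v 4)) := by
    refine ((Def.sing 3).and (((def_rel (some 0) (some 1) (some 2) none (some 3)).not.all).and
      ((def_isNum (some 0) (some 1) (some 2) (some 3) none).and
        (E1 (Option (Fin 5)) (some 0) (some 1) (some 2) (some 3) ![some 4, none]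
          (some 3))).ex)).congr (fun α M v _ => ?_)
    simp only [Option.elim_some, Option.elim_none, Q]
    refine and_congr Iff.rfl (and_congr Iff.rfl (exists_congr (fun T => and_congr Iff.rfl
      (and_congr Iff.rfl ?_))))
    refine iff_of_eq (congrArg (fun t => Ev α M (v 0) (v 1) (v 2) (v 3) t (v 3)) ?_)
    funext i
    fin_cases i <;> rfl
  obtain ⟨χ, χ1, χ2⟩ := hQ (fun i => i.val)
  obtain ⟨σ, σ1, σ2⟩ := def_rel (ι := Fin 6) 0 1 2 4 5 (fun i => i.val)
  have χ3 : ∀ k ∈ χ.free, k ≤ 4 := by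
    intro k hk
    obtain ⟨i, rfl⟩ := χ1 k hk
    have := i.2
    simp only
    omega
  have σ3 : ∀ k ∈ σ.free, k ≤ 5 := by
    intro k hk
    obtain ⟨i, rfl⟩ := σ1 k hk
    have := i.2
    simp only
    omega
  have hxi : ∀ (α : Type) (M : Matroid α) (n : ℕ) (v : ℕ → Set α), (∀ i, v i ⊆ M.E) →
      ((xi χ σ n).Sat M v ↔
        Chain M (v 0) (v 1) (v 2) (Q α M (v 0) (v 1) (v 2) (v 3)) n (v 4)) := by
    intro α M n
    induction n with
    | zero => intro v hv; exact χ2 α M v (fun i => hv i)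
    | succ n ih =>
      intro v hv
      have up : ∀ (w : ℕ → Set α) (i : ℕ) (X : Set α), (∀ j, w j ⊆ M.E) → X ⊆ M.E →
          ∀ j, Function.update w i X j ⊆ M.E := by
        intro w i X hw hX j
        by_cases h : j = i
        · subst h; simpa using hX
        · rw [Function.update_of_ne h]; exact hw j
      simp only [xi, Sat, Chain]
      refine exists_congr (fun Y => and_congr_right (fun hY => and_congr ?_ ?_))
      · rw [σ2 α M _ (fun i => up v 5 Y hv hY i)]
        simp [Function.update]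
      · constructor
        · rintro ⟨X, hX, ⟨h1, h2⟩, h3⟩
          rw [ih _ (up _ 4 X (up v 5 Y hv hY) hX)] at h3
          simp [Function.update] at h1 h2 h3
          rwa [Set.Subset.antisymm h1 h2] at h3
        · intro h
          refine ⟨Y, hY, by simp [Function.update], ?_⟩
          rw [ih _ (up _ 4 Y (up v 5 Y hv hY) hY)]
          simpa [Function.update] using h
  have hpsi : ∀ (α : Type) (M : Matroid α) (n : ℕ), Models M (psi χ σ n) ↔
      ¬ ∃ B D S Z : Set α, B ⊆ M.E ∧ D ⊆ M.E ∧ S ⊆ M.E ∧ Z ⊆ M.E ∧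
        Chain M B D S (Q α M B D S Z) n Z := by
    intro α M n
    have up : ∀ B D S Z X : Set α, B ⊆ M.E → D ⊆ M.E → S ⊆ M.E → Z ⊆ M.E → X ⊆ M.E →
        ∀ j, Function.update (Function.update (Function.update (Function.update
          (Function.update (fun _ : ℕ => (∅ : Set α)) 0 B) 1 D) 2 S) 3 Z) 4 X j ⊆ M.E := by
      intro B D S Z X h0 h1 h2 h3 h4 j
      simp only [Function.update_apply]
      split_ifs <;> first | assumption | exact Set.empty_subset _
    simp only [Models, psi, Sat]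
    refine not_congr ⟨?_, ?_⟩
    · rintro ⟨B, hB, D, hD, S, hS, Z, hZ, X, hX, ⟨h1, h2⟩, h3⟩
      rw [hxi α M n _ (up B D S Z X hB hD hS hZ hX)] at h3
      simp [Function.update] at h1 h2 h3
      rw [Set.Subset.antisymm h1 h2] at h3
      exact ⟨B, D, S, Z, hB, hD, hS, hZ, h3⟩
    · rintro ⟨B, D, S, Z, hB, hD, hS, hZ, h⟩
      refine ⟨B, hB, D, hD, S, hS, Z, hZ, Z, hZ, by simp [Function.update], ?_⟩
      rw [hxi α M n _ (up B D S Z Z hB hD hS hZ hZ)]
      simpa [Function.update] using h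
  have hsent : ∀ n, (psi χ σ n).IsSentence := by
    intro n
    rw [IsSentence, Finset.eq_empty_iff_forall_notMem]
    intro k hk
    simp only [psi, free, Finset.mem_erase, Finset.mem_union, Finset.mem_insert,
      Finset.mem_singleton] at hk
    obtain ⟨h0, h1, h2, h3, h4, h5 | h5⟩ := hk
    · omega
    · have := xi_free χ3 σ3 n k h5
      omega
  refine ⟨psi χ σ, primrec_psi χ σ, hsent, fun n => ⟨?_, ?_⟩⟩
  · rintro ⟨-, h⟩ ⟨s, hs⟩
    obtain ⟨N, hN1, hN2, hN3, hN4⟩ := ((E3 (n ::ᵥ s ::ᵥ List.Vector.nil)).and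
      ((Filter.eventually_gt_atTop n).and ((Filter.eventually_gt_atTop s).and
        (Filter.eventually_ge_atTop 2)))).exists
    obtain ⟨α, M, h1, h2, B, D, S, Z, a, hB, hD, hS, hZ, hstd⟩ := exists_std H N hN4
    refine (hpsi α M n).1 (h α M h1 h2) ⟨B, D, S, Z, hB, hD, hS, hZ, ?_⟩
    have h3 := hN1.2 α M B D S Z a hstd
    simp only [List.Vector.head_cons, List.Vector.tail_cons, hs] at h3
    have h4 : Q α M B D S Z {a (0 + n)} := by
      refine ⟨⟨_, hstd.zero⟩, ?_, {a s}, by simpa using hstd.mem s hN3, hstd.isNum s hN3, ?_⟩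
      · intro K _ hK
        obtain ⟨i, hi, -, h5⟩ := (hstd.succ _ _).1 hK
        rw [hstd.zero] at h5
        have := hstd.inj 0 (i + 1) (by omega) hi (Set.singleton_injective h5)
        omega
      · rw [← hstd.zero] at h3
        convert h3 using 1
        funext i
        fin_cases i
        · simp
        · rfl
    have h5 := chain_complete hstd n 0 (by omega) h4
    rwa [← hstd.zero] at h5
  · intro h
    refine ⟨hsent n, fun α M _ _ => (hpsi α M n).2 ?_⟩
    rintro ⟨B, D, S, Z, hB, hD, hS, hZ, h1⟩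
    obtain ⟨Y, h2, h3, h4, T, hT, h5, h6⟩ := chain_sound (Z := Z) n 0 Z hZ rfl h1
    obtain ⟨s, hs⟩ := h5.exists hZ h3
    have h7 := E2 α M B D S Z ![Y, T] Z (n ::ᵥ s ::ᵥ List.Vector.nil) (by
      intro i
      fin_cases i
      · simpa using h2
      · exact hs) h6
    simp only [List.Vector.head_cons, List.Vector.tail_cons] at h7
    apply h
    refine ⟨s, ?_⟩
    cases e : f n s with
    | zero => rfl
    | succ k =>
      rw [e] at h7
      obtain ⟨K, hK, -, h8⟩ := h7
      exact absurd h8 (h4 K hK)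

theorem main (H : Type u) [Group H] [Infinite H] :
    ¬ ∃ f : ℕ →. Bool, Partrec f ∧ ∀ φ : Formula, φ.IsSentence →
      ∃ b ∈ f φ.code, (b = true ↔ φ ∈ theory H) := by
  rintro ⟨F, hF, h⟩
  have hf : Primrec₂ (fun n s : ℕ =>
      (Nat.Partrec.Code.evaln s (Denumerable.ofNat Nat.Partrec.Code n) 0).casesOn 1
        (fun _ => 0) : ℕ → ℕ → ℕ) :=
    Primrec.option_casesOn (Nat.Partrec.Code.primrec_evaln.comp
      ((Primrec.snd.pair ((Primrec.ofNat _).comp Primrec.fst)).pair (Primrec.const 0)))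
      (Primrec.const 1) (Primrec.const 0).to₂
  obtain ⟨ψ, h1, h2, h3⟩ := exists_family H _ hf
  choose b hb1 hb2 using fun n => h (ψ n) (h2 n)
  have h4 : Computable b := Partrec.of_eq_tot (hF.comp h1.to_comp) hb1
  apply ComputablePred.halting_problem 0
  rw [ComputablePred.computable_iff]
  refine ⟨fun c => !b (Encodable.encode c),
    Primrec.not.to_comp.comp (h4.comp Computable.encode), ?_⟩
  funext c
  have h5 := (hb2 (Encodable.encode c)).trans (h3 (Encodable.encode c))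
  simp only [Denumerable.ofNat_encode] at h5
  have h6 : (∃ s, ((Nat.Partrec.Code.evaln s c 0).casesOn 1 (fun _ => 0) : ℕ) = 0) ↔
      (c.eval 0).Dom := by
    constructor
    · rintro ⟨s, hs⟩
      cases e : Nat.Partrec.Code.evaln s c 0 with
      | none => rw [e] at hs; simp at hs
      | some x => exact Part.dom_iff_mem.2 ⟨x, Nat.Partrec.Code.evaln_sound e⟩
    · intro hd
      obtain ⟨x, hx⟩ := Part.dom_iff_mem.1 hd
      obtain ⟨s, hs⟩ := Nat.Partrec.Code.evaln_complete.1 hx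
      exact ⟨s, by rw [show Nat.Partrec.Code.evaln s c 0 = some x from hs]⟩
  rw [h6] at h5
  apply propext
  cases e : b (Encodable.encode c) <;> simp_all

end Pool.Agent.H347Z.MS
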