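import Pool.Agent.H347Z.MSLogic

set_option autoImplicit false
set_option linter.unusedSectionVars false

namespace Pool.Agent.H347Z.MS

universe u

variable {H : Type u} [Group H] {α : Type}

/-- the gain graph on three vertices -/
def tg (cls : α → Fin 3) (g : α → H) : GainGraph H (Fin 3) α where
  src := cls
  tgt := fun e => cls e + 1
  gain := g

/-- balanced triangles -/
def Tri (cls : α → Fin 3) (g : α → H) (x y z : α) : Prop :=
  cls x = 0 ∧ cls y = 1 ∧ cls z = 2 ∧ g x * g y * g z = 1

/-- three parallel edges -/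
def Par (cls : α → Fin 3) (X : Set α) : Prop :=
  ∃ x ∈ X, ∃ y ∈ X, ∃ z ∈ X, x ≠ y ∧ x ≠ z ∧ y ≠ z ∧ cls x = cls y ∧ cls y = cls z

/-- the set contains a balanced triangle -/
def HasTri (cls : α → Fin 3) (g : α → H) (X : Set α) : Prop :=
  ∃ x ∈ X, ∃ y ∈ X, ∃ z ∈ X, Tri cls g x y z

/-- independent sets -/
def Ind (cls : α → Fin 3) (g : α → H) (X : Set α) : Prop :=
  X.ncard ≤ 3 ∧ ¬ Par cls X ∧ ¬ HasTri cls g X

variable {cls : α → Fin 3} {g : α → H}

lemma Par.mono {X Y : Set α} (h : Par cls X) (hXY : X ⊆ Y) : Par cls Y := by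
  obtain ⟨x, hx, y, hy, z, hz, h⟩ := h
  exact ⟨x, hXY hx, y, hXY hy, z, hXY hz, h⟩

lemma HasTri.mono {X Y : Set α} (h : HasTri cls g X) (hXY : X ⊆ Y) : HasTri cls g Y := by
  obtain ⟨x, hx, y, hy, z, hz, h⟩ := h
  exact ⟨x, hXY hx, y, hXY hy, z, hXY hz, h⟩

lemma par_triple {x y z : α} (h : Par cls {x, y, z}) : cls x = cls y ∧ cls y = cls z := by
  obtain ⟨a, ha, b, hb, c, hc, h1, h2, h3, h4, h5⟩ := h
  simp only [Set.mem_insert_iff, Set.mem_singleton_iff] at ha hb hc
  rcases ha with rfl | rfl | rfl <;> rcases hb with rfl | rfl | rfl <;>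
    rcases hc with rfl | rfl | rfl <;> simp_all

lemma tri_triple {x y z : α} (h : HasTri cls g {x, y, z}) :
    Tri cls g x y z ∨ Tri cls g x z y ∨ Tri cls g y x z ∨ Tri cls g y z x ∨ Tri cls g z x y ∨
      Tri cls g z y x := by
  obtain ⟨a, ha, b, hb, c, hc, h⟩ := h
  simp only [Set.mem_insert_iff, Set.mem_singleton_iff] at ha hb hc
  have h1 : a ≠ b := by rintro rfl; have := h.1.symm.trans h.2.1; simp at this
  have h2 : a ≠ c := by rintro rfl; have := h.1.symm.trans h.2.2.1; simp at this
  have h3 : b ≠ c := by rintro rfl; have := h.2.1.symm.trans h.2.2.1; simp at this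
  rcases ha with rfl | rfl | rfl <;> rcases hb with rfl | rfl | rfl <;>
    rcases hc with rfl | rfl | rfl <;> simp_all

lemma ind_of_le_two [Finite α] {X : Set α} (h : X.ncard ≤ 2) : Ind cls g X := by
  have key : ∀ x ∈ X, ∀ y ∈ X, ∀ z ∈ X, x ≠ y → x ≠ z → y ≠ z → False := by
    intro x hx y hy z hz h1 h2 h3
    have h4 : ({x, y, z} : Set α).ncard = 3 := Set.ncard_eq_three.2 ⟨x, y, z, h1, h2, h3, rfl⟩
    have h5 : ({x, y, z} : Set α).ncard ≤ X.ncard :=
      Set.ncard_le_ncard (by intro w hw; rcases hw with rfl | rfl | rfl <;> assumption)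
    omega
  refine ⟨by omega, ?_, ?_⟩
  · rintro ⟨x, hx, y, hy, z, hz, h1, h2, h3, -⟩
    exact key x hx y hy z hz h1 h2 h3
  · rintro ⟨x, hx, y, hy, z, hz, h⟩
    refine key x hx y hy z hz ?_ ?_ ?_
    · rintro rfl; have := h.1.symm.trans h.2.1; simp at this
    · rintro rfl; have := h.1.symm.trans h.2.2.1; simp at this
    · rintro rfl; have := h.2.1.symm.trans h.2.2.1; simp at this

lemma tri_unique (hg : ∀ x y, cls x = cls y → g x = g y → x = y) {e e' x y : α}
    (h : HasTri cls g {e, x, y}) (h' : HasTri cls g {e', x, y}) : e = e' := by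
  rcases tri_triple h with h | h | h | h | h | h <;>
    rcases tri_triple h' with h' | h' | h' | h' | h' | h' <;>
    obtain ⟨h1, h2, h3, h4⟩ := h <;> obtain ⟨h5, h6, h7, h8⟩ := h' <;>
    first
      | (exfalso; omega)
      | (refine hg _ _ (by omega) ?_
         have h9 := h4.trans h8.symm
         simpa using h9)

lemma aug [Finite α] (hg : ∀ x y, cls x = cls y → g x = g y → x = y) ⦃I J : Set α⦄
    (_ : Ind cls g I) (hJ : Ind cls g J) (hIJ : I.ncard < J.ncard) :
    ∃ e ∈ J, e ∉ I ∧ Ind cls g (insert e I) := by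
  obtain ⟨e₀, he₀, he₀'⟩ := Set.exists_mem_notMem_of_ncard_lt_ncard hIJ
  by_cases h1 : I.ncard ≤ 1
  · exact ⟨e₀, he₀, he₀', ind_of_le_two (by rw [Set.ncard_insert_of_notMem he₀']; omega)⟩
  have h2 : I.ncard = 2 := by have := hJ.1; omega
  have h3 : J.ncard = 3 := by have := hJ.1; omega
  obtain ⟨x, y, hxy, rfl⟩ := Set.ncard_eq_two.1 h2
  by_contra hcon
  push Not at hcon
  have h4 : ∀ e ∈ J, e ∉ ({x, y} : Set α) → Par cls {e, x, y} ∨ HasTri cls g {e, x, y} := by
    intro e he he'
    by_contra h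
    rw [not_or] at h
    exact hcon e he he' ⟨by rw [Set.ncard_insert_of_notMem he']; omega, h.1, h.2⟩
  by_cases h5 : cls x = cls y
  · have h6 : ∀ e ∈ J, cls e = cls x := by
      intro e he
      by_cases he' : e ∈ ({x, y} : Set α)
      · rcases he' with rfl | rfl
        · rfl
        · exact h5.symm
      · rcases h4 e he he' with h | h
        · exact (par_triple h).1
        · exfalso
          rcases tri_triple h with h | h | h | h | h | h <;> obtain ⟨h1, h2, h3, -⟩ := h <;> omega
    obtain ⟨p, q, r, h7, h8, h9, rfl⟩ := Set.ncard_eq_three.1 h3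
    apply hJ.2.1
    exact ⟨p, by simp, q, by simp, r, by simp, h7, h8, h9,
      (h6 p (by simp)).trans (h6 q (by simp)).symm, (h6 q (by simp)).trans (h6 r (by simp)).symm⟩
  · have h6 : ∀ e ∈ J, e ∉ ({x, y} : Set α) → HasTri cls g {e, x, y} := fun e he he' =>
      (h4 e he he').resolve_left (fun h => h5 (par_triple h).2)
    have h7 : J ⊆ {e₀, x, y} := by
      intro e he
      by_cases he' : e ∈ ({x, y} : Set α)
      · exact Or.inr he'
      · exact Or.inl (tri_unique hg (h6 e he he') (h6 e₀ he₀ he₀'))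
    have h8 : J = {e₀, x, y} := Set.eq_of_subset_of_ncard_le h7
      (by rw [Set.ncard_insert_of_notMem he₀']; omega)
    exact hJ.2.2 (h8 ▸ h6 e₀ he₀ he₀')

/-- the matroid -/
noncomputable def mat [Finite α] (hg : ∀ x y, cls x = cls y → g x = g y → x = y) : Matroid α :=
  (IndepMatroid.ofFinite (E := Set.univ) Set.finite_univ (Ind cls g)
    (ind_of_le_two (by simp))
    (fun _ _ hJ hIJ => ⟨(Set.ncard_le_ncard hIJ).trans hJ.1, fun h => hJ.2.1 (h.mono hIJ),
      fun h => hJ.2.2 (h.mono hIJ)⟩)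
    (aug hg) (fun _ _ => Set.subset_univ _)).matroid

lemma mat_E [Finite α] (hg : ∀ x y, cls x = cls y → g x = g y → x = y) :
    (mat hg).E = Set.univ := rfl

lemma mat_indep [Finite α] (hg : ∀ x y, cls x = cls y → g x = g y → x = y) (X : Set α) :
    (mat hg).Indep X ↔ Ind cls g X := Iff.rfl

lemma cycle_cases {l : List (α × Bool)} (h : (tg cls g).IsCycle l) :
    (∃ x y b, x ≠ y ∧ cls x = cls y ∧ l = [(x, b), (y, !b)]) ∨
    (∃ x y z, cls y = cls x + 1 ∧ cls z = cls y + 1 ∧ l = [(x, true), (y, true), (z, true)]) ∨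
    (∃ x y z, cls y = cls x + 1 ∧ cls z = cls y + 1 ∧ l = [(z, false), (y, false), (x, false)]) := by
  obtain ⟨h1, h2, h3, h4⟩ := h
  have h5 : l.length ≤ 3 := by simpa using h3.length_le_card
  rcases l with _ | ⟨⟨x, b⟩, _ | ⟨⟨y, c⟩, _ | ⟨⟨z, d⟩, _ | ⟨w, l⟩⟩⟩⟩
  · exact absurd rfl h1
  · exfalso
    cases b <;> simp [tg, GainGraph.start, GainGraph.finish] at h4
  · left
    cases b <;> cases c <;> simp [tg, GainGraph.start, GainGraph.finish] at h2 h3 h4
    · exfalso; omega
    · exact ⟨x, y, false, h2, h4.1, rfl⟩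
    · exact ⟨x, y, true, h2, h4.2.symm, rfl⟩
    · exfalso; omega
  · right
    cases b <;> cases c <;> cases d <;>
      simp [tg, GainGraph.start, GainGraph.finish, List.rotate_cons_succ] at h2 h3 h4
    · right; exact ⟨z, y, x, h4.2.1, h4.1, rfl⟩
    all_goals first
      | (left; exact ⟨x, y, z, h4.1.symm, h4.2.1.symm, rfl⟩)
      | (exfalso; omega)
  · simp at h5; omega

lemma tri_of_cyc {x y z : α} (h1 : cls y = cls x + 1) (h2 : cls z = cls y + 1)
    (h : g x * g y * g z = 1) : HasTri cls g {x, y, z} := by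
  have h3 : g y * g z * g x = 1 := by
    have : g y * g z * g x = (g x)⁻¹ * (g x * g y * g z) * g x := by group
    rw [this, h]; simp
  have h4 : g z * g x * g y = 1 := by
    have : g z * g x * g y = g z * (g x * g y * g z) * (g z)⁻¹ := by group
    rw [this, h]; simp
  have h5 : cls x = 0 ∨ cls x = 1 ∨ cls x = 2 := by omega
  rcases h5 with h5 | h5 | h5
  · exact ⟨x, by simp, y, by simp, z, by simp, h5, by omega, by omega, h⟩
  · exact ⟨z, by simp, x, by simp, y, by simp, by omega, h5, by omega, h4⟩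
  · exact ⟨y, by simp, z, by simp, x, by simp, by omega, by omega, h5, h3⟩

lemma cyc_of_tri {x y z : α} (h1 : cls y = cls x + 1) (h2 : cls z = cls y + 1)
    (h : HasTri cls g {x, y, z}) : g x * g y * g z = 1 := by
  rcases tri_triple h with h | h | h | h | h | h <;> obtain ⟨h3, h4, h5, h6⟩ := h
  · exact h6
  · exfalso; omega
  · exfalso; omega
  · have : g x * g y * g z = g x * (g y * g z * g x) * (g x)⁻¹ := by group
    rw [this, h6]; simp
  · have : g x * g y * g z = (g z)⁻¹ * (g z * g x * g y) * g z := by group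
    rw [this, h6]; simp
  · exfalso; omega

lemma reach_src {X : Set α} {x : α} (hx : x ∈ X) :
    (tg cls g).Reach X (cls x) (cls x + 1) :=
  Relation.ReflTransGen.single ⟨(x, true), hx, rfl, rfl⟩

lemma reach_tgt {X : Set α} {x : α} (hx : x ∈ X) :
    (tg cls g).Reach X (cls x + 1) (cls x) :=
  Relation.ReflTransGen.single ⟨(x, false), hx, rfl, rfl⟩

lemma reach_all {X : Set α} {x y : α} (hx : x ∈ X) (hy : y ∈ X) (hxy : cls x ≠ cls y)
    (w : Fin 3) : (tg cls g).Reach X (cls x) w := by
  have h1 := reach_src (cls := cls) (g := g) hx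
  have h2 := reach_src (cls := cls) (g := g) hy
  have h3 := reach_tgt (cls := cls) (g := g) hy
  have h0 : (tg cls g).Reach X (cls x) (cls x) := Relation.ReflTransGen.refl
  have h4 : cls y = cls x + 1 ∨ cls y + 1 = cls x := by omega
  have h5 : w = cls x ∨ w = cls x + 1 ∨ w = cls x + 1 + 1 := by omega
  rcases h5 with rfl | rfl | rfl
  · exact h0
  · exact h1
  · rcases h4 with h4 | h4
    · rw [h4] at h2
      exact h1.trans h2
    · rw [h4] at h3
      rw [show cls x + 1 + 1 = cls y by omega]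
      exact h3

lemma cyc2 {X : Set α} {x y : α} (hx : x ∈ X) (hy : y ∈ X) (hxy : x ≠ y) (h : cls x = cls y)
    {w : Fin 3} (h1 : (tg cls g).Reach X w (cls x)) :
    (tg cls g).CycleIn X w [(x, true), (y, false)] := by
  refine ⟨⟨by simp, by simpa using hxy, ?_, ?_⟩, ?_⟩
  · simp [tg, GainGraph.start, h]
  · simp [tg, GainGraph.start, GainGraph.finish, h]
  · intro d hd
    simp only [List.mem_cons, List.not_mem_nil, or_false] at hd
    rcases hd with rfl | rfl
    · exact ⟨hx, h1⟩
    · refine ⟨hy, ?_⟩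
      have := h1.trans (reach_src hx)
      rw [h] at this
      exact this

lemma cyc3 {X : Set α} {x y z : α} (hx : x ∈ X) (hy : y ∈ X) (hz : z ∈ X)
    (h1 : cls y = cls x + 1) (h2 : cls z = cls y + 1) {w : Fin 3}
    (h3 : ∀ w', (tg cls g).Reach X w w') :
    (tg cls g).CycleIn X w [(x, true), (y, true), (z, true)] := by
  have e1 : x ≠ y := by rintro rfl; omega
  have e2 : x ≠ z := by rintro rfl; omega
  have e3 : y ≠ z := by rintro rfl; omega
  refine ⟨⟨by simp, by simp [e1, e2, e3], ?_, ?_⟩, ?_⟩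
  · simp [tg, GainGraph.start]; omega
  · simp [tg, GainGraph.start, GainGraph.finish, List.rotate_cons_succ]; omega
  · intro d hd
    simp only [List.mem_cons, List.not_mem_nil, or_false] at hd
    rcases hd with rfl | rfl | rfl
    · exact ⟨hx, h3 _⟩
    · exact ⟨hy, h3 _⟩
    · exact ⟨hz, h3 _⟩

lemma two_cycles {X : Set α} (h : (tg cls g).FrameIndep X) {w : Fin 3} {l l' : List (α × Bool)}
    (hl : (tg cls g).CycleIn X w l) (hl' : (tg cls g).CycleIn X w l') (e : α) :
    e ∈ l.map Prod.fst ↔ e ∈ l'.map Prod.fst := by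
  rcases h w with h | ⟨l₀, -, -, h⟩
  · exact absurd hl (h l)
  · exact (h l hl e).trans (h l' hl' e).symm

lemma ind_of_frame [Finite α] {X : Set α} (h : (tg cls g).FrameIndep X) : Ind cls g X := by
  have hpar : ¬ Par cls X := by
    rintro ⟨x, hx, y, hy, z, hz, h1, h2, h3, h4, h5⟩
    have := two_cycles h (cyc2 hx hy h1 h4 Relation.ReflTransGen.refl)
      (cyc2 hx hz h2 (h4.trans h5) Relation.ReflTransGen.refl) y
    simp [h1.symm, h3] at this
  refine ⟨?_, hpar, ?_⟩
  · by_contra hcon
    push Not at hcon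
    obtain ⟨x, hx, y, hy, hxy, hc⟩ : ∃ x ∈ X, ∃ y ∈ X, x ≠ y ∧ cls x = cls y := by
      have : (Set.univ : Set (Fin 3)).ncard < X.ncard := by simpa [Set.ncard_univ] using hcon
      exact Set.exists_ne_map_eq_of_ncard_lt_of_maps_to this (fun _ _ => Set.mem_univ _)
    have h1 : 1 < (X \ {x, y}).ncard := by
      have h2 := Set.ncard_sdiff_add_ncard_of_subset
        (show ({x, y} : Set α) ⊆ X by intro w hw; rcases hw with rfl | rfl <;> assumption)
      rw [Set.ncard_pair hxy] at h2
      omega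
    obtain ⟨z, hz, w, hw, hzw⟩ := (Set.one_lt_ncard (Set.toFinite _)).1 h1
    simp only [Set.mem_sdiff, Set.mem_insert_iff, Set.mem_singleton_iff, not_or] at hz hw
    have h2 : cls x ≠ cls z := fun e => hpar ⟨x, hx, y, hy, z, hz.1, hxy, Ne.symm hz.2.1,
      Ne.symm hz.2.2, hc, hc.symm.trans e⟩
    have h3 : cls x ≠ cls w := fun e => hpar ⟨x, hx, y, hy, w, hw.1, hxy, Ne.symm hw.2.1,
      Ne.symm hw.2.2, hc, hc.symm.trans e⟩
    have h4 := reach_all (g := g) hx hz.1 h2
    have h5 := cyc2 (g := g) hx hy hxy hc (h4 _)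
    by_cases h6 : cls z = cls w
    · have := two_cycles h h5 (cyc2 hz.1 hw.1 hzw h6 (h4 _)) z
      simp [hz.2.1, hz.2.2] at this
    · have h7 : (cls z = cls x + 1 ∧ cls w = cls z + 1) ∨ (cls w = cls x + 1 ∧ cls z = cls w + 1) := by
        omega
      rcases h7 with h7 | h7
      · have := two_cycles h h5 (cyc3 hx hz.1 hw.1 h7.1 h7.2 h4) z
        simp [hz.2.1, hz.2.2] at this
      · have := two_cycles h h5 (cyc3 hx hw.1 hz.1 h7.1 h7.2 h4) z
        simp [hz.2.1, hz.2.2] at this
  · rintro ⟨x, hx, y, hy, z, hz, ht⟩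
    obtain ⟨h1, h2, h3, h4⟩ := ht
    have h5 := reach_all (cls := cls) (g := g) hx hy (by omega)
    have h6 := cyc3 (g := g) hx hy hz (by omega) (by omega) h5
    rcases h (cls x) with h | ⟨l, h7, h8, h9⟩
    · exact h _ h6
    have h10 := h9 _ h6
    have h11 : ∀ p q r : α, (∀ e, e ∈ ({x, y, z} : Set α) → e ∈ ({p, q, r} : Set α)) →
        HasTri cls g {p, q, r} := fun p q r hh =>
      HasTri.mono ⟨x, by simp, y, by simp, z, by simp, h1, h2, h3, h4⟩ hh
    apply h8
    rcases cycle_cases h7.1 with ⟨p, q, b, e1, e2, rfl⟩ | ⟨p, q, r, e1, e2, rfl⟩ |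
      ⟨p, q, r, e1, e2, rfl⟩
    · exfalso
      have f1 := (h10 x).1 (by simp)
      have f2 := (h10 y).1 (by simp)
      simp only [List.map_cons, List.map_nil, List.mem_cons, List.not_mem_nil, or_false] at f1 f2
      rcases f1 with rfl | rfl <;> rcases f2 with rfl | rfl <;> omega
    · have := cyc_of_tri e1 e2 (h11 p q r (fun e he => by
        have := (h10 e).1 (by simpa using he)
        simpa using this))
      simpa [GainGraph.Balanced, GainGraph.dartGain, tg, mul_assoc] using this
    · have := cyc_of_tri e1 e2 (h11 p q r (fun e he => by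
        have := (h10 e).1 (by simpa using he)
        simp only [List.map_cons, List.map_nil, List.mem_cons, List.not_mem_nil, or_false] at this
        simp only [Set.mem_insert_iff, Set.mem_singleton_iff]
        tauto))
      simp only [GainGraph.Balanced, GainGraph.dartGain, tg, List.map_cons, List.map_nil,
        List.prod_cons, List.prod_nil, Bool.false_eq_true, if_false, mul_one]
      have h12 : (g r)⁻¹ * ((g q)⁻¹ * (g p)⁻¹) = (g p * g q * g r)⁻¹ := by group
      rw [h12, this]; simp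

lemma frame_of_ind [Finite α] (hg : ∀ x y, cls x = cls y → g x = g y → x = y) {X : Set α}
    (h : Ind cls g X) : (tg cls g).FrameIndep X := by
  intro w
  by_cases hl : ∀ l, ¬ (tg cls g).CycleIn X w l
  · exact Or.inl hl
  right
  push Not at hl
  obtain ⟨l, hl⟩ := hl
  -- description of the edge sets of the cycles
  have key : ∀ l, (tg cls g).CycleIn X w l →
      (∃ x y, x ∈ X ∧ y ∈ X ∧ x ≠ y ∧ cls x = cls y ∧ ∀ e, e ∈ l.map Prod.fst ↔ e = x ∨ e = y) ∨
      (∃ x y z, cls y = cls x + 1 ∧ cls z = cls y + 1 ∧ X = {x, y, z} ∧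
        ∀ e, e ∈ l.map Prod.fst ↔ e ∈ X) := by
    intro l hl
    have full : ∀ x y z, x ∈ X → y ∈ X → z ∈ X → cls y = cls x + 1 → cls z = cls y + 1 →
        X = {x, y, z} := by
      intro x y z hx hy hz e1 e2
      refine (Set.eq_of_subset_of_ncard_le
        (by intro w hw; rcases hw with rfl | rfl | rfl <;> assumption) ?_).symm
      rw [Set.ncard_eq_three.2 ⟨x, y, z, by rintro rfl; omega, by rintro rfl; omega,
        by rintro rfl; omega, rfl⟩]
      exact h.1
    rcases cycle_cases hl.1 with ⟨p, q, b, e1, e2, rfl⟩ | ⟨p, q, r, e1, e2, rfl⟩ |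
      ⟨p, q, r, e1, e2, rfl⟩
    · exact Or.inl ⟨p, q, (hl.2 (p, b) (by simp)).1, (hl.2 (q, !b) (by simp)).1, e1, e2, by simp⟩
    · have := full p q r (hl.2 (p, true) (by simp)).1 (hl.2 (q, true) (by simp)).1
        (hl.2 (r, true) (by simp)).1 e1 e2
      exact Or.inr ⟨p, q, r, e1, e2, this, by rw [this]; simp⟩
    · have := full p q r (hl.2 (p, false) (by simp)).1 (hl.2 (q, false) (by simp)).1
        (hl.2 (r, false) (by simp)).1 e1 e2
      exact Or.inr ⟨p, q, r, e1, e2, this, by rw [this]; simp; tauto⟩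
  refine ⟨l, hl, ?_, fun l' hl' e => ?_⟩
  · intro hb
    rcases cycle_cases hl.1 with ⟨p, q, b, e1, e2, rfl⟩ | ⟨p, q, r, e1, e2, rfl⟩ |
      ⟨p, q, r, e1, e2, rfl⟩
    · apply e1
      apply hg _ _ e2
      cases b
      · simpa [GainGraph.Balanced, GainGraph.dartGain, tg, inv_mul_eq_one] using hb
      · simpa [GainGraph.Balanced, GainGraph.dartGain, tg, mul_inv_eq_one] using hb
    · apply h.2.2
      refine (tri_of_cyc e1 e2 ?_).mono ?_
      · simpa [GainGraph.Balanced, GainGraph.dartGain, tg, mul_assoc] using hb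
      · intro e he
        rcases he with rfl | rfl | rfl
        · exact (hl.2 (e, true) (by simp)).1
        · exact (hl.2 (e, true) (by simp)).1
        · exact (hl.2 (e, true) (by simp)).1
    · apply h.2.2
      refine (tri_of_cyc e1 e2 ?_).mono ?_
      · simp only [GainGraph.Balanced, GainGraph.dartGain, tg, List.map_cons, List.map_nil,
          List.prod_cons, List.prod_nil, Bool.false_eq_true, if_false, mul_one] at hb
        have h12 : (g r)⁻¹ * ((g q)⁻¹ * (g p)⁻¹) = (g p * g q * g r)⁻¹ := by group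
        rw [h12] at hb
        exact inv_eq_one.1 hb
      · intro e he
        rcases he with rfl | rfl | rfl
        · exact (hl.2 (e, false) (by simp)).1
        · exact (hl.2 (e, false) (by simp)).1
        · exact (hl.2 (e, false) (by simp)).1
  · rcases key l hl with ⟨x, y, hx, hy, h1, h2, h3⟩ | ⟨x, y, z, h1, h2, h3, h4⟩ <;>
      rcases key l' hl' with ⟨x', y', hx', hy', h1', h2', h3'⟩ | ⟨x', y', z', h1', h2', h3', h4'⟩
    · rw [h3, h3']
      by_cases hc : cls x = cls x'
      · have k1 : ∀ p q, p ∈ X → q ∈ X → p ≠ q → cls p = cls q → ∀ r ∈ X, cls r = cls p →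
            r = p ∨ r = q := by
          intro p q hp hq hpq hc r hr hrp
          by_contra hcon
          rw [not_or] at hcon
          exact h.2.1 ⟨r, hr, p, hp, q, hq, hcon.1, hcon.2, hpq, hrp, hc⟩
        constructor
        · rintro (rfl | rfl)
          · exact k1 x y hx hy h1 h2 _ hx' hc.symm
          · exact k1 x y hx hy h1 h2 _ hy' (h2'.symm.trans hc.symm)
        · rintro (rfl | rfl)
          · exact k1 x' y' hx' hy' h1' h2' _ hx hc
          · exact k1 x' y' hx' hy' h1' h2' _ hy (h2.symm.trans hc)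
      · exfalso
        have e1 : x ≠ x' := by rintro rfl; exact hc rfl
        have e2 : x ≠ y' := by rintro rfl; exact hc h2'.symm
        have e3 : y ≠ x' := by rintro rfl; exact hc h2
        have e4 : y ≠ y' := by rintro rfl; exact hc (h2.trans h2'.symm)
        have h5 : ({x, y, x', y'} : Set α).ncard = 4 := by
          rw [Set.ncard_insert_of_notMem (by simp [h1, e1, e2]),
            Set.ncard_insert_of_notMem (by simp [e3, e4]), Set.ncard_pair h1']
        have h6 : ({x, y, x', y'} : Set α).ncard ≤ X.ncard := Set.ncard_le_ncard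
          (by intro w hw; rcases hw with rfl | rfl | rfl | rfl <;> assumption)
        have := h.1
        omega
    · exfalso
      rw [h3'] at hx hy
      rcases hx with rfl | rfl | rfl <;> rcases hy with rfl | rfl | rfl <;>
        first | exact h1 rfl | omega
    · exfalso
      rw [h3] at hx' hy'
      rcases hx' with rfl | rfl | rfl <;> rcases hy' with rfl | rfl | rfl <;>
        first | exact h1' rfl | omega
    · rw [h4, h4']

lemma mat_gg [Finite α] (hg : ∀ x y, cls x = cls y → g x = g y → x = y) :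
    IsGainGraphic H (mat hg) :=
  ⟨Set.toFinite _, Fin 3, inferInstance, tg cls g, fun X => by
    rw [mat_indep, mat_E]
    exact ⟨fun h => ⟨Set.subset_univ _, frame_of_ind hg h⟩, fun h => ind_of_frame h.2⟩⟩

end Pool.Agent.H347Z.MS
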